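import Pool.Agent.H75.CF.Defs

/-!
# SF-6: minimal good sets of directions (pure topology)

A closed subset `Q` of the unit sphere of `V` is good if for every `δ > 0` some orthogonal ray `ρ` has
`Qd φ C ρ ⊆ thickening δ Q`.
* `exists_minimal_cgood`: Zorn (`zorn_superset`). The unit sphere is good. For a nonempty chain `c` of good sets,
  `Q∞ = ⋂₀ c` is good: given `δ`, the open set `thickening (δ / 2) Q∞` contains some `Q ∈ c` by compactness
  (`exists_subset_nhds_of_isCompact` / `IsCompact.elim_directed_family_closed_of_isCompact`), and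
  `thickening (δ / 2) Q ⊆ thickening δ Q∞`.
* `CGood.near`: suppose that for every `δ > 0` there is an orthogonal ray `ρ` with `Qd φ C ρ ⊆ thickening δ Q` and
  `dist v e ≥ ε` for all `v ∈ Qd φ C ρ`.  Then `Q' = {x ∈ Q | ε / 2 ≤ dist x e}` is good: for `δ' = min δ (ε / 2)` take
  such a `ρ`; each `v ∈ Qd φ C ρ` is `δ'`-close to some `x ∈ Q`, and `dist x e ≥ dist v e - δ' ≥ ε / 2`.  By minimality
  `Q ⊆ Q'`, but `e ∈ Q`, `e ∉ Q'`.
* `CGood.nonempty`: obvious.
-/

open Set Filter Topology Metric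
open Pool.Agent.H29 Pool.Agent.H29.RR
open Pool.Agent.H75.SF (busR Orth dir Bdd)

set_option linter.unusedSectionVars false

namespace Pool.Agent.H75.CF

variable {X : Type*} [MetricSpace X]
variable {V : Type*} [NormedAddCommGroup V] [InnerProductSpace ℝ V]

/-- good sets of directions -/
def CGood (φ : V → X) (C : Set X) (Q : Set V) : Prop :=
  IsClosed Q ∧ Q ⊆ sphere (0 : V) 1 ∧
    ∀ δ : ℝ, 0 < δ → ∃ ρ : ℝ → X, Orth C ρ ∧ Qd φ C ρ ⊆ thickening δ Q

variable {φ : V → X} {C : Set X} {Q : Set V}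

theorem exists_minimal_cgood [FiniteDimensional ℝ V] (hne : ∃ ρ : ℝ → X, Orth C ρ) :
    ∃ Q : Set V, CGood φ C Q ∧ ∀ Q' ⊆ Q, CGood φ C Q' → Q ⊆ Q' := by
  have hK : IsCompact (sphere (0 : V) 1) := isCompact_sphere 0 1
  obtain ⟨Q, hQ⟩ := zorn_superset {Q : Set V | CGood φ C Q} (fun c hc hchain => by
    rcases c.eq_empty_or_nonempty with rfl | hcne
    · refine ⟨sphere (0 : V) 1, ⟨isClosed_sphere, subset_rfl, fun δ hδ => ?_⟩, by simp⟩
      obtain ⟨ρ, hρ⟩ := hne
      refine ⟨ρ, hρ, fun v hv => self_subset_thickening hδ _ ?_⟩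
      simpa using hv.1
    · refine ⟨⋂₀ c, ⟨isClosed_sInter fun Q hQ => (hc hQ).1, ?_, fun δ hδ => ?_⟩,
        fun s hs => sInter_subset_of_mem hs⟩
      · obtain ⟨Q0, hQ0⟩ := hcne
        exact (sInter_subset_of_mem hQ0).trans (hc hQ0).2.1
      · -- some member of the chain lies in the thickening
        have hsub : ∃ Q1 ∈ c, Q1 ⊆ thickening (δ / 2) (⋂₀ c) := by
          have : Nonempty c := hcne.to_subtype
          have hU : ∀ x ∈ ⋂ i : c, (i : Set V), thickening (δ / 2) (⋂₀ c) ∈ 𝓝 x := by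
            intro x hx
            rw [← sInter_eq_iInter] at hx
            exact isOpen_thickening.mem_nhds (self_subset_thickening (half_pos hδ) _ hx)
          obtain ⟨i, hi⟩ := exists_subset_nhds_of_isCompact' (V := fun i : c => (i : Set V))
            (U := thickening (δ / 2) (⋂₀ c))
            (by
              intro i j
              rcases hchain.total i.2 j.2 with h | h
              · exact ⟨i, subset_rfl, h⟩
              · exact ⟨j, h, subset_rfl⟩)
            (fun i => hK.of_isClosed_subset (hc i.2).1 (hc i.2).2.1)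
            (fun i => (hc i.2).1) hU
          exact ⟨i, i.2, hi⟩
        obtain ⟨Q1, hQ1, hsub⟩ := hsub
        obtain ⟨ρ, hρ, hρ1⟩ := (hc hQ1).2.2 (δ / 2) (half_pos hδ)
        refine ⟨ρ, hρ, hρ1.trans ?_⟩
        calc thickening (δ / 2) Q1 ⊆ thickening (δ / 2) (thickening (δ / 2) (⋂₀ c)) :=
              thickening_subset_of_subset _ hsub
          _ ⊆ thickening (δ / 2 + δ / 2) (⋂₀ c) := thickening_thickening_subset _ _ _
          _ = thickening δ (⋂₀ c) := by rw [add_halves])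
  exact ⟨Q, hQ.prop, fun Q' hQ' hg => hQ.le_of_le hg hQ'⟩

lemma CGood.near (hQ : CGood φ C Q) (hmin : ∀ Q' ⊆ Q, CGood φ C Q' → Q ⊆ Q') {e : V}
    (he : e ∈ Q) {ε : ℝ} (hε : 0 < ε) :
    ∃ δ : ℝ, 0 < δ ∧ ∀ ρ : ℝ → X, Orth C ρ → Qd φ C ρ ⊆ thickening δ Q →
      ∃ v ∈ Qd φ C ρ, dist v e < ε := by
  by_contra hcon
  push Not at hcon
  have hgood : CGood φ C {x ∈ Q | ε / 2 ≤ dist x e} := by
    refine ⟨?_, fun x hx => hQ.2.1 hx.1, fun δ hδ => ?_⟩
    · exact hQ.1.inter (isClosed_le continuous_const (continuous_id.dist continuous_const))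
    · obtain ⟨ρ, hρ, hsub, hfar⟩ := hcon (min δ (ε / 2)) (lt_min hδ (half_pos hε))
      refine ⟨ρ, hρ, fun v hv => ?_⟩
      obtain ⟨x, hx, hvx⟩ := mem_thickening_iff.1 (hsub hv)
      refine mem_thickening_iff.2 ⟨x, ⟨hx, ?_⟩, hvx.trans_le (min_le_left _ _)⟩
      have h1 := hfar v hv
      have h2 := dist_triangle v x e
      have h3 := hvx.trans_le (min_le_right _ _)
      linarith
  have h := hmin _ (fun x hx => hx.1) hgood he
  have h2 := h.2
  rw [dist_self] at h2
  linarith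

lemma CGood.nonempty (hQ : CGood φ C Q) (h : ∀ ρ : ℝ → X, Orth C ρ → (Qd φ C ρ).Nonempty) :
    Q.Nonempty := by
  obtain ⟨ρ, hρ, hsub⟩ := hQ.2.2 1 one_pos
  obtain ⟨v, hv⟩ := h ρ hρ
  obtain ⟨x, hx, -⟩ := mem_thickening_iff.1 (hsub hv)
  exact ⟨x, hx⟩

end Pool.Agent.H75.CF
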