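import Pool.Agent.H75.CF.LP
import Pool.Agent.H75.CF.Min

/-!
# The sum of opposite Busemann functions is bounded on large balls (adapted from `SF/AC`)
-/

open Set Filter Topology Metric
open Pool.Agent.H29 Pool.Agent.H29.RR Pool.Agent.H75.SF
open scoped RealInnerProductSpace

set_option linter.unusedSectionVars false

namespace Pool.Agent.H75.CF

variable {X : Type*} [MetricSpace X] [IsCAT0 X] [ProperSpace X]
variable {V : Type*} [NormedAddCommGroup V] [InnerProductSpace ℝ V] {φ : V → X}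
variable {r : ℝ} {C : Set X} {Q : Set V}

private lemma ac_compare' (hφ : Isometry φ) {e v : V} (he : ‖e‖ = 1) (hv : ‖v‖ = 1) (x y : X)
    {M ε : ℝ} (hd : dist x y ≤ M) (h1 : dist v e ≤ ε) :
    busR (dir φ e) y - busR (dir φ e) x ≤ busR (dir φ v) y - busR (dir φ v) x + M * ε := by
  have h2 : ∀ t, 0 ≤ t → dist (dir φ e t) (dir φ v t) ≤ ‖e - v‖ * t + 0 := by
    intro t ht
    have h3 := dist_flat hφ 0 0 e v ht
    rw [zero_add, zero_add, sub_zero, norm_zero] at h3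
    exact h3
  have h4 := busR_compare (isRay_dir hφ he) (isRay_dir hφ hv) h2 x y
  have h5 := (abs_le.1 h4).2
  have h6 : ‖e - v‖ ≤ ε := by rwa [← dist_eq_norm, dist_comm]
  have h7 : ‖e - v‖ * dist x y ≤ ε * M :=
    mul_le_mul h6 hd dist_nonneg (le_trans (norm_nonneg _) h6)
  linarith

private lemma ac_inner' [FiniteDimensional ℝ V] (hφ : Isometry φ) (hr : 0 ≤ r)
    (hC : DSide (NF φ r) C) {ρ ρ' : ℝ → X} (h : Orth C ρ)
    (h' : Orth C ρ') {t τ : ℝ} (ht : 0 ≤ t) (hτ : 0 ≤ τ) {v : V} (hv : v ∈ Qd φ C ρ') :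
    busR (dir φ v) (ρ' τ) - busR (dir φ v) (ρ t) ≤
      ⟪pf φ (ρ 0) - pf φ (ρ' 0), v⟫ + 2 * r := by
  have h1 := busR_const' hC hφ h' hv hτ
  have h2 := busR_proj_le' hφ hr hC hv.1 (ρ t)
  rw [orth_proj_eq hC h ht] at h2
  have h3 := (abs_le.1 (abs_busR_pf hφ hv.1 (ρ' 0))).2
  have h4 := (abs_le.1 (abs_busR_pf hφ hv.1 (ρ 0))).1
  have h5 : infDist (ρ' 0) (range φ) ≤ r := orth_foot hC h'
  have h6 : infDist (ρ 0) (range φ) ≤ r := orth_foot hC h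
  rw [inner_sub_left, h1]
  linarith

lemma pair_bound' [FiniteDimensional ℝ V] (hφ : Isometry φ) (hr : 0 ≤ r)
    (hC : DSide (NF φ r) C) {ρ ρ' : ℝ → X} (h : Orth C ρ)
    (h' : Orth C ρ') {t τ : ℝ} (ht : 0 ≤ t) (hτ : 0 ≤ τ) {M ε : ℝ}
    (hd : dist (ρ t) (ρ' τ) ≤ M) {e v v' : V} (he : ‖e‖ = 1) (hv : v ∈ Qd φ C ρ')
    (hv' : v' ∈ Qd φ C ρ') (h1 : dist v e ≤ ε) (h2 : dist v' (-e) ≤ ε) :
    (busR (dir φ e) (ρ' τ) + busR (dir φ (-e)) (ρ' τ)) -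
      (busR (dir φ e) (ρ t) + busR (dir φ (-e)) (ρ t)) ≤ 4 * M * ε + 4 * r := by
  have a1 := ac_compare' hφ he hv.1 (ρ t) (ρ' τ) hd h1
  have a2 := ac_compare' hφ (by rw [norm_neg, he] : ‖-e‖ = 1) hv'.1 (ρ t) (ρ' τ) hd h2
  have a3 := ac_inner' hφ hr hC h h' ht hτ hv
  have a4 := ac_inner' hφ hr hC h h' ht hτ hv'
  have hε : 0 ≤ ε := le_trans dist_nonneg h1
  have hM : 0 ≤ M := le_trans dist_nonneg hd
  have b1 : ‖pf φ (ρ 0) - pf φ (ρ' 0)‖ ≤ M := by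
    have b2 := proj_lipschitz hC.closed ⟨_, orth_mem hC h⟩ hC.convex (ρ t) (ρ' τ)
    rw [orth_proj_eq hC h ht, orth_proj_eq hC h' hτ] at b2
    exact (norm_pf_sub hφ _ _).trans (b2.trans hd)
  have b3 : ‖v + v'‖ ≤ 2 * ε := by
    have b4 : v + v' = (v - e) + (v' - (-e)) := by abel
    rw [b4]
    refine (norm_add_le _ _).trans ?_
    rw [← dist_eq_norm, ← dist_eq_norm]
    linarith
  have b5 : ⟪pf φ (ρ 0) - pf φ (ρ' 0), v⟫ + ⟪pf φ (ρ 0) - pf φ (ρ' 0), v'⟫ ≤ M * (2 * ε) := by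
    rw [← inner_add_right]
    refine (real_inner_le_norm _ _).trans ?_
    exact mul_le_mul b1 b3 (norm_nonneg _) hM
  linarith

theorem almost_bdd [FiniteDimensional ℝ V] (hgc : GeodesicallyComplete X) (hφ : Isometry φ)
    (hr : 0 ≤ r) (hC : DSide (NF φ r) C) (hQ : CGood φ C Q)
    (hmin : ∀ Q' ⊆ Q, CGood φ C Q' → Q ⊆ Q') {e : V}
    (he : e ∈ Q) (hne : -e ∈ Q) {M : ℝ} (hM : 0 < M) :
    ∃ x : X, ∀ y, dist x y ≤ M →
      |(busR (dir φ e) y + busR (dir φ (-e)) y) - (busR (dir φ e) x + busR (dir φ (-e)) x)|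
        ≤ 1 + 4 * r := by
  have he1 : ‖e‖ = 1 := by simpa using hQ.2.1 he
  have hε' : 0 < 1 / (4 * M) := by positivity
  have hεe : 4 * M * (1 / (4 * M)) = 1 := by field_simp
  obtain ⟨δ₁, hδ₁, hn1⟩ := hQ.near hmin he hε'
  obtain ⟨δ₂, hδ₂, hn2⟩ := hQ.near hmin hne hε'
  have hmin0 : 0 < min δ₁ δ₂ := lt_min hδ₁ hδ₂
  set δ : ℝ := min δ₁ δ₂ / 2 with hδ
  have hδ0 : 0 < δ := by rw [hδ]; linarith
  have hd1 : δ + δ ≤ δ₁ := by rw [hδ]; have := min_le_left δ₁ δ₂; linarith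
  have hd2 : δ + δ ≤ δ₂ := by rw [hδ]; have := min_le_right δ₁ δ₂; linarith
  obtain ⟨ρ, hρ, hρQ⟩ := hQ.2.2 δ hδ0
  obtain ⟨H, hH⟩ := limit_principle' hφ hC hρ hδ0 hM.le
  set h : ℝ := max H (M + 1) with hh
  have hhH : H ≤ h := le_max_left _ _
  have hhM : M + 1 ≤ h := le_max_right _ _
  have hh0 : 0 ≤ h := by linarith
  refine ⟨ρ h, fun y hy => ?_⟩
  have hyC : y ∉ C := by
    intro hyC
    have h1 := infDist_le_dist_of_mem (x := ρ h) hyC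
    rw [hρ.infDist h hh0] at h1
    linarith
  obtain ⟨ρ', hρ', hρy⟩ := exists_orth' hgc hC hyC
  have hτ : 0 ≤ infDist y C := infDist_nonneg
  generalize infDist y C = τ at hρy hτ
  subst hρy
  have hsub := (hH h hhH ρ' τ hτ hρ' (by rw [dist_comm]; exact hy)).1
  have hsub2 : Qd φ C ρ' ⊆ thickening (δ + δ) Q := by
    intro v hv
    have h1 := hsub hv
    rw [mem_thickening_iff] at h1
    obtain ⟨z, hz, hvz⟩ := h1
    have h2 := hρQ hz
    rw [mem_thickening_iff] at h2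
    obtain ⟨z', hz', hzz'⟩ := h2
    rw [mem_thickening_iff]
    refine ⟨z', hz', ?_⟩
    have := dist_triangle v z z'
    linarith
  obtain ⟨v, hv, hv1⟩ := hn1 ρ' hρ' (hsub2.trans (thickening_mono hd1 Q))
  obtain ⟨v', hv', hv1'⟩ := hn2 ρ' hρ' (hsub2.trans (thickening_mono hd2 Q))
  obtain ⟨w, hw, hw1⟩ := hn1 ρ hρ (hρQ.trans (thickening_mono (by linarith) Q))
  obtain ⟨w', hw', hw1'⟩ := hn2 ρ hρ (hρQ.trans (thickening_mono (by linarith) Q))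
  have p1 := pair_bound' hφ hr hC hρ hρ' hh0 hτ hy he1 hv hv' hv1.le hv1'.le
  have hy' : dist (ρ' τ) (ρ h) ≤ M := by rw [dist_comm]; exact hy
  have p2 := pair_bound' hφ hr hC hρ' hρ hτ hh0 hy' he1 hw hw' hw1.le hw1'.le
  rw [hεe] at p1 p2
  rw [abs_le]
  constructor <;> linarith

end Pool.Agent.H75.CF
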