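import Pool.Agent.H75.CF.Sides
import Pool.Agent.H75.SF.Trans

/-!
# States, the relation `Beyond`, and the basic step
-/

open Set Filter Topology Metric
open Pool.Agent.H29 Pool.Agent.H29.RR Pool.Agent.H75.SF
open scoped Pointwise

set_option linter.unusedSectionVars false

namespace Pool.Agent.H75.CF

universe u

/-- a state: a translate of the flat, an end, a radius -/
structure St (G : Type*) where
  g : G
  j : Bool
  r : ℝ

variable {X : Type u} [MetricSpace X] [IsCAT0 X] [ProperSpace X]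
variable {G : Type*} [Group G] [MulAction G X] [IsIsometricSMul G X]
variable {V : Type*} [NormedAddCommGroup V] [InnerProductSpace ℝ V] [FiniteDimensional ℝ V]
variable {φ : V → X} {r₀ : ℝ} {E : Bool → ℝ → Set X} {s s' s'' : St G}

/-- `s'` lies beyond `s` -/
structure Beyond (φ : V → X) (E : Bool → ℝ → Set X) (s s' : St G) : Prop where
  sub : s'.g • E s'.j s'.r ⊆ s.g • E s.j s.r
  flat : s'.g • range φ ⊆ s.g • NF φ s.r ∪ s.g • E s.j s.r
  disj : Disjoint (s.g • range φ) (s'.g • E s'.j s'.r)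
  meet : ∃ z ∈ s'.g • range φ, z ∈ s.g • E s.j s.r
  ncl : ¬ CL (fun u => s.g • φ u) (fun u => s'.g • φ u)

lemma isometry_smul_flat (hφ : Isometry φ) (g : G) : Isometry (fun u => g • φ u) :=
  (isometry_smul X g).comp hφ

lemma isClosed_smul_NF (g : G) (r : ℝ) : IsClosed (g • NF φ r) := by
  rw [smul_NF]
  exact isClosed_NF r

lemma gconvex_smul_NF (hφ : Isometry φ) (g : G) (r : ℝ) : GConvex (g • NF φ r) := by
  rw [smul_NF]
  exact gconvex_NF (isometry_smul_flat hφ g) r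

lemma Ends.side' (hE : Ends φ r₀ E) (g : G) (j : Bool) {r : ℝ} (hr : r₀ ≤ r) :
    ∃ z, z ∉ g • NF φ r ∧ g • E j r = Side (g • NF φ r) z := by
  obtain ⟨z, hz, h⟩ := hE.side j r hr
  refine ⟨g • z, fun hcon => hz (Set.smul_mem_smul_set_iff.mp hcon), ?_⟩
  rw [h]
  exact side_smul g _ z

lemma Ends.disj' (hE : Ends φ r₀ E) (g : G) (j : Bool) {r : ℝ} (hr : r₀ ≤ r) :
    Disjoint (g • E j r) (g • NF φ r) := by
  obtain ⟨z, -, h⟩ := hE.side' g j hr
  rw [h]
  exact side_disjoint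

lemma sep_st (hφ : Isometry φ) (hE : Ends φ r₀ E) {s : St G} (hs : r₀ ≤ s.r) {g' : G} {x : X}
    (hx : x ∉ s.g • E s.j s.r) (hf : g' • range φ ⊆ s.g • NF φ s.r ∪ s.g • E s.j s.r) :
    infDist x (s.g • range φ) ≤ infDist x (g' • range φ) + s.r := by
  obtain ⟨z, hz, h⟩ := hE.side' s.g s.j hs
  rw [h] at hx hf
  have h1 := sep_infDist hx hf (range_nonempty φ).smul_set
  have h2 := infDist_range_le_NF (φ := fun u => s.g • φ u) (hE.r0.trans hs) x
  rw [← smul_NF, ← smul_range'] at h2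
  linarith

theorem Beyond.trans (hdim : 2 ≤ Module.finrank ℝ V) (hφ : Isometry φ) (hE : Ends φ r₀ E)
    (hs : r₀ ≤ s.r) (hs' : r₀ ≤ s'.r) (h : Beyond φ E s s') (h' : Beyond φ E s' s'') :
    Beyond φ E s s'' := by
  have hψ := isometry_smul_flat hφ s.g
  have hψ' := isometry_smul_flat hφ s'.g
  have hψ'' := isometry_smul_flat hφ s''.g
  have hncl : ¬ CL (fun u => s.g • φ u) (fun u => s''.g • φ u) := by
    rintro ⟨v, w, hv, hw, ⟨M, hM⟩, ⟨M', hM'⟩⟩
    apply h.ncl
    have hℓ : Isometry (fun t : ℝ => s.g • φ (t • v)) := by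
      refine hψ.comp ?_
      refine Isometry.of_dist_eq fun a b => ?_
      rw [dist_eq_norm, ← sub_smul, norm_smul, hv, mul_one, Real.dist_eq, Real.norm_eq_abs]
    refine cl_of_line (M := max M M' + s'.r) hψ hψ' hℓ (fun t => mem_range_self (t • v))
      fun t => ?_
    have h1 : (s.g • φ (t • v)) ∉ s'.g • E s'.j s'.r := fun hcon =>
      Set.disjoint_left.mp h.disj (smul_mem_smul_set (mem_range_self _)) hcon
    have h2 := sep_st hφ hE hs' h1 h'.flat
    have h3 : infDist (s.g • φ (t • v)) (s''.g • range φ) ≤ max M M' := by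
      rcases le_total 0 t with ht | ht
      · refine le_trans ?_ (le_max_left _ _)
        refine (infDist_le_dist_of_mem (smul_mem_smul_set (mem_range_self (t • w)))).trans ?_
        exact hM t ht
      · refine le_trans ?_ (le_max_right _ _)
        refine (infDist_le_dist_of_mem (smul_mem_smul_set (mem_range_self (t • w)))).trans ?_
        have := hM' (-t) (by linarith)
        simp only [dir, smul_neg, neg_smul, neg_neg] at this
        exact this
    rw [smul_range'] at h2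
    linarith
  refine ⟨h'.sub.trans h.sub, ?_, h.disj.mono_right h'.sub, ?_, hncl⟩
  · obtain ⟨z, hz, hside⟩ := hE.side' s.g s.j hs
    obtain ⟨y, hy, hyE⟩ := h'.meet
    rw [hside, smul_range']
    rw [smul_range'] at hy
    refine flat_one_side hdim hψ'' (isClosed_smul_NF s.g s.r) (gconvex_smul_NF hφ s.g s.r) ?_
      ⟨y, hy, ?_⟩
    · rw [smul_NF]
      exact no_line_in_NF hψ'' hψ (fun hcl => hncl hcl.symm) s.r
    · rw [← hside]
      exact h.sub hyE
  · obtain ⟨y, hy, hyE⟩ := h'.meet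
    exact ⟨y, hy, h.sub hyE⟩

theorem step (hdim : 2 ≤ Module.finrank ℝ V) (hφ : Isometry φ) (hE : Ends φ r₀ E)
    {ρ : Bool → ℝ → X} {c T : ℝ} (hP : Poles' φ r₀ E ρ c T) {R₁ N ε : ℝ}
    (hK : Kills' G (range φ) (φ 0) R₁ N ε) (s : St G) (hs : r₀ ≤ s.r) :
    ∃ t₀ : ℝ, ∀ t, t₀ ≤ t → ∀ ϱ : ℝ → X, IsRay ϱ → ϱ 0 = s.g • ρ s.j t →
      ∃ s' : St G, s'.r = s.r + r₀ ∧ Beyond φ E s s' ∧ dist (ϱ 0) (s'.g • φ 0) ≤ R₁ ∧
        ∀ r' : ℝ → X, IsRay r' → r' 0 = ϱ 0 → dist (ϱ N) (r' N) ≤ ε →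
          ¬ Bdd r' (s'.g • range φ) := by
  have hr0 := hE.r0
  have hc := hP.cpos
  set Z : ℝ := max (dist (φ 0) (ρ false (s.r + 1))) (dist (φ 0) (ρ true (s.r + 1))) with hZ
  have hZj : ∀ j, dist (φ 0) (ρ j (s.r + 1)) ≤ Z := by
    intro j
    cases j
    · exact le_max_left _ _
    · exact le_max_right _ _
  have hZ0 : 0 ≤ Z := dist_nonneg.trans (hZj false)
  refine ⟨max T (max (R₁ / c + 1) (R₁ + Z + s.r - r₀ + 1)), fun t ht ϱ hϱ hϱ0 => ?_⟩
  have ht1 : T ≤ t := (le_max_left _ _).trans ht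
  have ht2 : R₁ < c * t := by
    have h1 : R₁ / c + 1 ≤ t := ((le_max_left _ _).trans (le_max_right _ _)).trans ht
    have h2 : c * (R₁ / c + 1) = R₁ + c := by field_simp
    have h3 := mul_le_mul_of_nonneg_left h1 hc.le
    linarith
  have ht3 : R₁ + Z < t + r₀ - s.r := by
    have h1 : R₁ + Z + s.r - r₀ + 1 ≤ t := ((le_max_right _ _).trans (le_max_right _ _)).trans ht
    linarith
  obtain ⟨g', hg', hkill⟩ := hK.2.2.2 ϱ hϱ
  have hψ := isometry_smul_flat hφ s.g
  have hψ' := isometry_smul_flat hφ g'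
  rw [hϱ0] at hg'
  -- points close to `s.g • ρ s.j t` are in the half-space
  have hdeep : ∀ z, dist (s.g • ρ s.j t) z < t + r₀ - s.r → z ∈ s.g • E s.j s.r := by
    intro z hz
    rw [mem_smul_set_iff_inv_smul_mem]
    apply hP.deep s.j s.r t _ hs
    rwa [← dist_smul s.g (ρ s.j t), smul_inv_smul]
  have hA : g' • φ 0 ∈ s.g • E s.j s.r := hdeep _ (by linarith)
  have hncl : ¬ CL (fun u => s.g • φ u) (fun u => g' • φ u) :=
    no_CL_of_far hφ (hP.far s.j) ht1 s.g g' 0 (by linarith)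
  obtain ⟨z₁, hz₁, hside⟩ := hE.side' s.g s.j hs
  have hflat : g' • range φ ⊆ s.g • NF φ s.r ∪ s.g • E s.j s.r := by
    rw [hside, smul_range']
    refine flat_one_side hdim hψ' (isClosed_smul_NF s.g s.r) (gconvex_smul_NF hφ s.g s.r) ?_
      ⟨g' • φ 0, mem_range_self _, ?_⟩
    · rw [smul_NF]
      exact no_line_in_NF hψ' hψ (fun hcl => hncl hcl.symm) s.r
    · rw [← hside]
      exact hA
  -- the end
  obtain ⟨j', hj'⟩ : ∃ j', Disjoint (s.g • range φ) (g' • E j' r₀) := by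
    by_contra hcon
    push Not at hcon
    obtain ⟨a, ha, ha'⟩ := Set.not_disjoint_iff.mp (hcon false)
    obtain ⟨b, hb, hb'⟩ := Set.not_disjoint_iff.mp (hcon true)
    obtain ⟨z, hz, hs0⟩ := hE.side' g' false (le_refl r₀)
    have h1 : s.g • range φ ⊆ g' • NF φ r₀ ∪ g' • E false r₀ := by
      rw [hs0, smul_range']
      refine flat_one_side hdim hψ (isClosed_smul_NF g' r₀) (gconvex_smul_NF hφ g' r₀) ?_
        ⟨a, ?_, ?_⟩
      · rw [smul_NF]
        exact no_line_in_NF hψ hψ' hncl r₀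
      · rwa [← smul_range']
      · rwa [← hs0]
    rcases h1 hb with h2 | h2
    · exact Set.disjoint_left.mp (hE.disj' g' true le_rfl) hb' h2
    · exact Set.disjoint_left.mp (Set.disjoint_smul_set.2 hE.disj) h2 hb'
  have hanti : g' • E j' (s.r + r₀) ⊆ g' • E j' r₀ :=
    smul_set_mono (hE.anti j' _ _ le_rfl (by linarith))
  obtain ⟨z₂, hz₂, hside₂⟩ := hE.side' g' j' (show r₀ ≤ s.r + r₀ by linarith)
  obtain ⟨z₃, hz₃, hside₃⟩ := hE.side' g' j' (le_refl r₀)
  have hdisj : Disjoint (g' • E j' (s.r + r₀)) (s.g • NF φ s.r) := by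
    rw [Set.disjoint_left]
    intro z hz hz'
    rw [smul_NF] at hz'
    have hd := dist_phi_pf hψ z
    set p := (fun u => s.g • φ u) (pf (fun u => s.g • φ u) z) with hp
    have hd' : dist z p ≤ s.r := by rw [hd]; exact hz'
    have hpF : p ∈ s.g • range φ := smul_mem_smul_set (mem_range_self _)
    apply Set.disjoint_left.mp hj' hpF
    have hz3 := hanti hz
    rw [hside₃] at hz3 ⊢
    refine side_of_seg hz3 fun l hl hmem => ?_
    have h1 : z ∉ g' • NF φ (s.r + r₀) := fun hcon =>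
      Set.disjoint_left.mp (hE.disj' g' j' (by linarith)) hz hcon
    rw [smul_NF, mem_NF, not_le] at h1
    rw [smul_NF, mem_NF] at hmem
    have h2 := infDist_le_infDist_add_dist (s := range fun u => g' • φ u) (x := z)
      (y := pt z p l)
    rw [dist_left_pt z p hl] at h2
    have h3 : l * dist z p ≤ 1 * dist z p := mul_le_mul_of_nonneg_right hl.2 dist_nonneg
    linarith
  refine ⟨⟨g', j', s.r + r₀⟩, rfl, ⟨?_, hflat, hj'.mono_right hanti,
    ⟨g' • φ 0, smul_mem_smul_set (mem_range_self _), hA⟩, hncl⟩, by rw [hϱ0]; exact hg',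
    fun r' h1 h2 h3 => hkill r' h1 h2 h3⟩
  show g' • E j' (s.r + r₀) ⊆ s.g • E s.j s.r
  have hz0 : g' • ρ j' (s.r + 1) ∈ g' • E j' (s.r + r₀) := by
    refine smul_mem_smul_set (hP.deep j' (s.r + r₀) (s.r + 1) _ (by linarith) ?_)
    rw [dist_self]
    linarith
  have hz0' : g' • ρ j' (s.r + 1) ∈ s.g • E s.j s.r := by
    apply hdeep
    have h1 := dist_triangle (s.g • ρ s.j t) (g' • φ 0) (g' • ρ j' (s.r + 1))
    rw [dist_smul] at h1
    have := hZj j'
    linarith
  rw [hside₂] at hz0 hdisj ⊢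
  rw [hside] at hz0' ⊢
  exact side_subset_of_mem hz0 hz0' hdisj

end Pool.Agent.H75.CF
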