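import Pool.Agent.H75.CF.Orth

/-!
# Neighbourhoods of the flat, the projection to the flat
-/

open Set Filter Topology Metric
open Pool.Agent.H29 Pool.Agent.H29.RR Pool.Agent.H75.SF
open scoped RealInnerProductSpace Pointwise

set_option linter.unusedSectionVars false

namespace Pool.Agent.H75.CF

variable {X : Type*} [MetricSpace X] [IsCAT0 X] [ProperSpace X]
variable {V : Type*} [NormedAddCommGroup V] [InnerProductSpace ℝ V] [FiniteDimensional ℝ V]
variable {φ : V → X}

lemma mem_NF {r : ℝ} {x : X} : x ∈ NF φ r ↔ infDist x (range φ) ≤ r := Iff.rfl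

lemma range_subset_NF {r : ℝ} (hr : 0 ≤ r) : range φ ⊆ NF φ r := fun x hx => by
  rw [mem_NF, infDist_zero_of_mem hx]
  exact hr

lemma NF_mono {r r' : ℝ} (h : r ≤ r') : NF φ r ⊆ NF φ r' := fun _ hx => le_trans hx h

lemma isClosed_NF (r : ℝ) : IsClosed (NF φ r) :=
  isClosed_le (continuous_infDist_pt _) continuous_const

lemma gconvex_NF (hφ : Isometry φ) (r : ℝ) : GConvex (NF φ r) := by
  intro x hx y hy t ht
  have h1 := gconvexFun_infDist (isClosed_range_flat hφ) (range_nonempty φ) (gconvex_range hφ)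
    x y t ht
  have h2 := mul_le_mul_of_nonneg_left (mem_NF.1 hx) (sub_nonneg.2 ht.2)
  have h3 := mul_le_mul_of_nonneg_left (mem_NF.1 hy) ht.1
  rw [mem_NF]
  linarith

lemma NF_nonempty {r : ℝ} (hr : 0 ≤ r) : (NF φ r).Nonempty :=
  (range_nonempty φ).mono (range_subset_NF hr)

/-- rays close to a neighbourhood of the flat are close to the flat -/
lemma bdd_of_bdd_NF {r : ℝ} (hr : 0 ≤ r) {σ : ℝ → X} (h : Bdd σ (NF φ r)) :
    Bdd σ (range φ) := by
  obtain ⟨M, hM⟩ := h
  refine ⟨M + r, fun t ht => ?_⟩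
  obtain ⟨z, hz, hd⟩ := (isClosed_NF (φ := φ) r).exists_infDist_eq_dist (NF_nonempty hr) (σ t)
  have h1 := infDist_le_infDist_add_dist (s := range φ) (x := σ t) (y := z)
  have h2 := hM t ht
  have h3 := mem_NF.1 hz
  linarith

lemma bdd_NF_of_bdd {r : ℝ} (hr : 0 ≤ r) {σ : ℝ → X} (h : Bdd σ (range φ)) :
    Bdd σ (NF φ r) := by
  obtain ⟨M, hM⟩ := h
  refine ⟨M, fun t ht => ?_⟩
  exact (infDist_le_infDist_of_subset (range_subset_NF hr) (range_nonempty φ)).trans (hM t ht)

lemma infDist_range_le_NF {r : ℝ} (hr : 0 ≤ r) (x : X) :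
    infDist x (range φ) ≤ infDist x (NF φ r) + r := by
  obtain ⟨z, hz, hd⟩ := (isClosed_NF (φ := φ) r).exists_infDist_eq_dist (NF_nonempty hr) x
  have h1 := infDist_le_infDist_add_dist (s := range φ) (x := x) (y := z)
  have h3 := mem_NF.1 hz
  linarith

/-- translates -/
lemma smul_NF {G : Type*} [Group G] [MulAction G X] [IsIsometricSMul G X] (g : G) (r : ℝ) :
    g • NF φ r = NF (fun u => g • φ u) r := by
  ext x
  rw [mem_smul_set_iff_inv_smul_mem, mem_NF, mem_NF]
  have h1 : range (fun u => g • φ u) = g • range φ := by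
    ext y
    simp only [mem_smul_set, mem_range]
    constructor
    · rintro ⟨u, rfl⟩
      exact ⟨φ u, ⟨u, rfl⟩, rfl⟩
    · rintro ⟨z, ⟨u, rfl⟩, rfl⟩
      exact ⟨u, rfl⟩
  rw [h1, ← infDist_smul_smul g (g⁻¹ • x) (range φ), smul_inv_smul]

lemma phi_pf (hφ : Isometry φ) (x : X) : φ (pf φ x) = proj (range φ) x :=
  Function.invFun_eq (proj_mem (isClosed_range_flat hφ) (range_nonempty φ) x)

lemma dist_phi_pf (hφ : Isometry φ) (x : X) : dist x (φ (pf φ x)) = infDist x (range φ) := by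
  rw [phi_pf hφ, dist_proj (isClosed_range_flat hφ) (range_nonempty φ)]

lemma norm_pf_sub (hφ : Isometry φ) (x y : X) : ‖pf φ x - pf φ y‖ ≤ dist x y := by
  rw [← dist_eq_norm, ← hφ.dist_eq, phi_pf hφ, phi_pf hφ]
  exact proj_lipschitz (isClosed_range_flat hφ) (range_nonempty φ) (gconvex_range hφ) x y

lemma abs_busR_pf (hφ : Isometry φ) {v : V} (hv : ‖v‖ = 1) (x : X) :
    |busR (dir φ v) x + ⟪pf φ x, v⟫| ≤ infDist x (range φ) := by
  have h1 := abs_busR_sub_le (isRay_dir hφ hv) x (φ (pf φ x))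
  rw [busR_dir hφ _ hv, sub_neg_eq_add, dist_phi_pf hφ] at h1
  exact h1

end Pool.Agent.H75.CF
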