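import Pool.Agent.H75.CF.Omega
import Pool.Agent.H75.CF.Flat

/-!
# Common lines at infinity; flats on one side
-/

open Set Filter Topology Metric
open Pool.Agent.H29 Pool.Agent.H29.RR Pool.Agent.H75.SF
open scoped Pointwise

set_option linter.unusedSectionVars false

namespace Pool.Agent.H75.CF

universe u

variable {X : Type u} [MetricSpace X] [IsCAT0 X] [ProperSpace X]
variable {V : Type*} [NormedAddCommGroup V] [InnerProductSpace ℝ V] [FiniteDimensional ℝ V]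
variable {φ ψ ψ' : V → X}

lemma CL.symm (h : CL ψ ψ') : CL ψ' ψ := by
  obtain ⟨v, w, hv, hw, h1, h2⟩ := h
  exact ⟨w, v, hw, hv, h1.symm, h2.symm⟩

lemma cl_of_line (hψ : Isometry ψ) (hψ' : Isometry ψ') {ℓ : ℝ → X} (hℓ : Isometry ℓ)
    (h1 : ∀ s, ℓ s ∈ range ψ) {M : ℝ} (h2 : ∀ s, infDist (ℓ s) (range ψ') ≤ M) : CL ψ ψ' := by
  obtain ⟨z, w, hw, e⟩ := line_in_flat hψ hℓ h1
  have hn : ‖-w‖ = 1 := by rw [norm_neg]; exact hw
  obtain ⟨w₁, hw₁, a1⟩ := exists_dir_of_Bdd hψ' (isRay_of_isometry hℓ) ⟨M, fun t _ => h2 t⟩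
  obtain ⟨w₂, hw₂, a2⟩ := exists_dir_of_Bdd hψ' (isRay_of_isometry (isometry_comp_neg hℓ))
    ⟨M, fun t _ => h2 (-t)⟩
  have b1 : Asym (dir ψ w) ℓ := by
    refine ⟨‖z‖, fun t _ => ?_⟩
    rw [← e t]
    show dist (ψ (t • w)) (ψ (z + t • w)) ≤ ‖z‖
    rw [hψ.dist_eq, dist_comm, dist_eq_norm, add_sub_cancel_right]
  have b2 : Asym (dir ψ (-w)) (fun t => ℓ (-t)) := by
    refine ⟨‖z‖, fun t _ => ?_⟩
    show dist (ψ (t • (-w))) (ℓ (-t)) ≤ ‖z‖
    rw [← e (-t), hψ.dist_eq, dist_comm, dist_eq_norm, neg_smul, smul_neg, add_sub_cancel_right]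
  have c1 := b1.trans a1
  have c2 := b2.trans a2
  have := opposite_of_asym hψ hψ' hw hw₁ hw₂ c1 c2
  subst this
  exact ⟨w, w₁, hw, hw₁, c1, c2⟩

lemma no_line_in_NF (hψ : Isometry ψ) (hψ' : Isometry ψ') (h : ¬ CL ψ ψ') (r : ℝ) :
    ¬ ∃ ℓ : ℝ → X, Isometry ℓ ∧ (∀ s, ℓ s ∈ range ψ) ∧ ∀ s, ℓ s ∈ NF ψ' r := by
  rintro ⟨ℓ, hℓ, h1, h2⟩
  exact h (cl_of_line hψ hψ' hℓ h1 h2)

lemma convex_preimage' (hψ : Isometry ψ) {C : Set X} (hC : GConvex C) :
    Convex ℝ (ψ ⁻¹' C) := by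
  intro u hu w hw a b ha hb hab
  have hb1 : b ∈ Icc (0 : ℝ) 1 := ⟨hb, by linarith⟩
  have h := hC (ψ u) hu (ψ w) hw b hb1
  rw [← flat_pt hψ u w hb1] at h
  have ha' : a = 1 - b := by linarith
  rw [mem_preimage, ha']
  exact h

lemma flat_one_side (hdim : 2 ≤ Module.finrank ℝ V) (hψ : Isometry ψ) {D : Set X}
    (hcl : IsClosed D) (hcv : GConvex D) {x : X}
    (hno : ¬ ∃ ℓ : ℝ → X, Isometry ℓ ∧ (∀ s, ℓ s ∈ range ψ) ∧ ∀ s, ℓ s ∈ D)
    (h1 : ∃ z ∈ range ψ, z ∈ Side D x) : range ψ ⊆ D ∪ Side D x := by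
  obtain ⟨_, ⟨z₁, rfl⟩, hz₁⟩ := h1
  intro y hy
  by_contra hcon
  obtain ⟨u, rfl⟩ := hy
  have hcl1 : IsClosed (D ∪ Side D x) := isClosed_union_side hcl x
  have hcl2 : IsClosed (Side D x)ᶜ := (isOpen_side hcl x).isClosed_compl
  have hcv1 : GConvex (D ∪ Side D x) := gconvex_union_side hcv x
  have hcv2 : GConvex (Side D x)ᶜ := gconvex_compl_side hcv x
  obtain ⟨z, w, hw, hzw⟩ := cover_line hdim (K₁ := ψ ⁻¹' (D ∪ Side D x))
    (K₂ := ψ ⁻¹' (Side D x)ᶜ)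
    (hcl1.preimage hψ.continuous) (hcl2.preimage hψ.continuous)
    (convex_preimage' hψ hcv1) (convex_preimage' hψ hcv2)
    (by
      ext v
      simp only [mem_union, mem_preimage, mem_compl_iff, mem_univ, iff_true]
      by_cases h : ψ v ∈ Side D x
      · exact Or.inl (Or.inr h)
      · exact Or.inr h)
    (by
      intro h
      have : u ∈ ψ ⁻¹' (D ∪ Side D x) := by rw [h]; exact mem_univ _
      exact hcon this)
    (by
      intro h
      have : z₁ ∈ ψ ⁻¹' (Side D x)ᶜ := by rw [h]; exact mem_univ _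
      exact this hz₁)
  refine hno ⟨fun t => ψ (z + t • w), ?_, fun s => mem_range_self _, ?_⟩
  · refine Isometry.of_dist_eq (fun s t => ?_)
    rw [hψ.dist_eq, dist_eq_norm, Real.dist_eq]
    have : z + s • w - (z + t • w) = (s - t) • w := by rw [sub_smul]; abel
    rw [this, norm_smul, hw, mul_one, Real.norm_eq_abs]
  · intro s
    obtain ⟨h1, h2⟩ := hzw s
    rcases h1 with h1 | h1
    · exact h1
    · exact absurd h1 h2

section

variable {G : Type*} [Group G] [MulAction G X] [IsIsometricSMul G X]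

lemma no_CL_of_far (hφ : Isometry φ) {ρ : ℝ → X} {c T : ℝ} (hfar : Far φ ρ c T)
    {t : ℝ} (ht : T ≤ t) (g g' : G) (p : V) (hd : dist (g • ρ t) (g' • φ p) < c * t) :
    ¬ CL (fun u => g • φ u) (fun u => g' • φ u) := by
  rintro ⟨v, w, hv, hw, ⟨M, hM⟩, ⟨M', hM'⟩⟩
  have hlin : Isometry (fun s : ℝ => p + s • w) := by
    apply Isometry.of_dist_eq
    intro s s'
    rw [dist_add_left, dist_eq_norm, ← sub_smul, norm_smul, hw, mul_one, Real.dist_eq,
      Real.norm_eq_abs]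
  have hℓ' : Isometry (fun s : ℝ => g⁻¹ • g' • φ (p + s • w)) :=
    (isometry_smul X g⁻¹).comp ((isometry_smul X g').comp (hφ.comp hlin))
  have hb : ∀ (s : ℝ) (a b : V), dist (g⁻¹ • g' • φ (p + b)) (φ a) ≤
      ‖p‖ + dist (g • φ a) (g' • φ b) := by
    intro s a b
    have k1 : dist (g⁻¹ • g' • φ (p + b)) (φ a) = dist (g' • φ (p + b)) (g • φ a) := by
      rw [← dist_smul g (g⁻¹ • g' • φ (p + b)) (φ a), smul_inv_smul]
    have k2 : dist (g' • φ (p + b)) (g' • φ b) = ‖p‖ := by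
      rw [dist_smul, hφ.dist_eq, dist_eq_norm, add_sub_cancel_right]
    rw [k1]
    have := dist_triangle (g' • φ (p + b)) (g' • φ b) (g • φ a)
    rw [k2, dist_comm (g' • φ b)] at this
    exact this
  have ha1 : Asym (fun s : ℝ => g⁻¹ • g' • φ (p + s • w)) (dir φ v) := by
    refine ⟨‖p‖ + M, fun s hs => (hb s (s • v) (s • w)).trans ?_⟩
    have := hM s hs
    simp only [dir] at this
    linarith
  have ha2 : Asym (fun s : ℝ => g⁻¹ • g' • φ (p + (-s) • w)) (dir φ (-v)) := by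
    refine ⟨‖p‖ + M', fun s hs => (hb s (s • -v) ((-s) • w)).trans ?_⟩
    have := hM' s hs
    simp only [dir] at this
    rw [smul_neg s w, ← neg_smul] at this
    linarith
  have := hfar t ht v hv _ hℓ' ha1 ha2 0
  simp only [zero_smul, add_zero] at this
  rw [← dist_smul g (ρ t), smul_inv_smul] at this
  linarith

end

end Pool.Agent.H75.CF
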