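import Pool.Agent.H75.SF.LP1
import Pool.Agent.H75.SF.Cross1
import Pool.Agent.H75.SF.Omega2
import Pool.Agent.H75.SF.Kill
import Pool.Agent.H75.SF.NC
import Pool.Agent.H75.SF.NegDir

/-!
# Rank rigidity with a coarsely separating flat: definitions

`X` is a proper CAT(0) space, `φ : V → X` an isometric embedding of a finite dimensional inner
product space, `F = range φ` a flat, `NF φ r` its closed `r`-neighbourhood.  `C ⊆ X` will be the
complement of a path component of the complement of `D = NF φ r`: a closed convex set containing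
`D` with `C \ D` open (`DSide D C`).
-/

open Set Filter Topology Metric
open Pool.Agent.H29 Pool.Agent.H29.RR Pool.Agent.H75.SF
open scoped Pointwise

set_option linter.unusedSectionVars false

namespace Pool.Agent.H75.CF

section

variable {X : Type*} [MetricSpace X]

/-- the closed `r`-neighbourhood of the flat -/
def NF {V : Type*} (φ : V → X) (r : ℝ) : Set X := {x | infDist x (range φ) ≤ r}

/-- points of `C` where the Busemann function of `ρ` is not positive -/
def Pset (C : Set X) (ρ : ℝ → X) : Set X := {x | x ∈ C ∧ busR ρ x ≤ 0}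

variable [IsCAT0 X]

/-- `C` is a closed convex set containing `D` such that `C \ D` is open -/
structure DSide (D C : Set X) : Prop where
  closed : IsClosed C
  convex : GConvex C
  ne : D.Nonempty
  sub : D ⊆ C
  isOpen : IsOpen (C \ D)

end

section

variable {X : Type*} [MetricSpace X] {V : Type*} [NormedAddCommGroup V] [InnerProductSpace ℝ V]

/-- the unit directions of the flat which are the directions of rays in `Pset C ρ` -/
def Qd (φ : V → X) (C : Set X) (ρ : ℝ → X) : Set V :=
  {v | ‖v‖ = 1 ∧ ∃ σ : ℝ → X, IsRay σ ∧ Asym σ (dir φ v) ∧ ∀ t, 0 ≤ t → σ t ∈ Pset C ρ}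

/-- the points of the flat at distance at most `r` from `Pset C ρ` -/
def Kd (φ : V → X) (r : ℝ) (C : Set X) (ρ : ℝ → X) : Set V := {u | infDist (φ u) (Pset C ρ) ≤ r}

/-- the point of `V` corresponding to the projection to the flat -/
noncomputable def pf [IsCAT0 X] (φ : V → X) (x : X) : V := Function.invFun φ (proj (range φ) x)

/-- two flats have a common line at infinity -/
def CL (ψ ψ' : V → X) : Prop :=
  ∃ v w : V, ‖v‖ = 1 ∧ ‖w‖ = 1 ∧ Asym (dir ψ v) (dir ψ' w) ∧ Asym (dir ψ (-v)) (dir ψ' (-w))

end

end Pool.Agent.H75.CF
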