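import Pool.Agent.H75.CF.OrthQ

/-!
# Growth along a strong pole
-/

open Set Filter Topology Metric
open Pool.Agent.H29 Pool.Agent.H29.RR Pool.Agent.H75.SF
open scoped RealInnerProductSpace

set_option linter.unusedSectionVars false

namespace Pool.Agent.H75.CF

variable {X : Type*} [MetricSpace X] [IsCAT0 X] [ProperSpace X]
variable {V : Type*} [NormedAddCommGroup V] [InnerProductSpace ℝ V] {φ : V → X}
variable {r : ℝ} {C : Set X} {ρ : ℝ → X}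

/-- rays in `C` from the foot with given direction -/
lemma exists_sigma (hφ : Isometry φ) (hr : 0 ≤ r) (hC : DSide (NF φ r) C) (h : Orth C ρ) :
    ∃ σ : V → ℝ → X, ∀ v : V, ‖v‖ = 1 → IsRay (σ v) ∧ σ v 0 = ρ 0 ∧ Asym (σ v) (dir φ v) ∧
      ∀ t, 0 ≤ t → σ v t ∈ C := by
  have : ∀ v : V, ∃ σ : ℝ → X, ‖v‖ = 1 → IsRay σ ∧ σ 0 = ρ 0 ∧ Asym σ (dir φ v) ∧
      ∀ t, 0 ≤ t → σ t ∈ C := by
    intro v
    by_cases hv : ‖v‖ = 1
    · have hbd : Bdd (dir φ v) C := by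
        refine ⟨0, fun t ht => (infDist_zero_of_mem (hC.sub ?_)).le⟩
        show infDist (φ (t • v)) (range φ) ≤ r
        rw [infDist_zero_of_mem (mem_range_self _)]
        exact hr
      obtain ⟨σ, h1, h2, h3, h4⟩ := exists_ray_in hC.closed hC.convex (isRay_dir hφ hv)
        hbd (orth_mem hC h)
      exact ⟨σ, fun _ => ⟨h1, h2, h3, h4⟩⟩
    · exact ⟨fun _ => ρ 0, fun hcon => absurd hcon hv⟩
  choose σ hσ using this
  exact ⟨σ, hσ⟩

lemma exists_kappa' [FiniteDimensional ℝ V] (hφ : Isometry φ) (h : Orth C ρ)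
    (hb : Bornology.IsBounded (Pset C ρ)) {σ : V → ℝ → X}
    (hσ : ∀ v : V, ‖v‖ = 1 → IsRay (σ v) ∧ σ v 0 = ρ 0 ∧ Asym (σ v) (dir φ v) ∧
      ∀ t, 0 ≤ t → σ v t ∈ C) :
    ∃ s₀ κ : ℝ, 0 < s₀ ∧ 0 < κ ∧ ∀ v : V, ‖v‖ = 1 → κ ≤ busR ρ (σ v s₀) := by
  obtain ⟨R, hR⟩ := hb.subset_closedBall (ρ 0)
  set s₀ : ℝ := |R| + 1 with hs₀
  have hs₀pos : 0 < s₀ := by positivity
  have hpos : ∀ v : V, ‖v‖ = 1 → 0 < busR ρ (σ v s₀) := by
    intro v hv
    obtain ⟨h1, h2, h3, h4⟩ := hσ v hv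
    by_contra hcon
    push Not at hcon
    have h5 : σ v s₀ ∈ Pset C ρ := ⟨h4 _ hs₀pos.le, hcon⟩
    have h6 := hR h5
    rw [mem_closedBall, ← h2, h1 _ _ hs₀pos.le le_rfl, sub_zero, abs_of_pos hs₀pos] at h6
    have := le_abs_self R
    linarith
  rcases (sphere (0 : V) 1).eq_empty_or_nonempty with hem | hne
  · refine ⟨s₀, 1, hs₀pos, one_pos, fun v hv => ?_⟩
    have : v ∈ sphere (0 : V) 1 := by simpa using hv
    rw [hem] at this
    exact absurd this (notMem_empty v)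
  · have hcont : ContinuousOn (fun v : V => busR ρ (σ v s₀)) (sphere (0 : V) 1) := by
      refine (continuous_busR h.ray).comp_continuousOn ?_
      rw [Metric.continuousOn_iff]
      intro v hv ε hε
      refine ⟨ε / s₀, by positivity, fun w hw hwv => ?_⟩
      rw [mem_sphere_zero_iff_norm] at hv hw
      obtain ⟨h1, h2, h3, -⟩ := hσ v hv
      obtain ⟨k1, k2, k3, -⟩ := hσ w hw
      have h5 := dist_le_of_dir hφ k1 h1 (h2.trans k2.symm) k3 h3 hs₀pos.le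
      refine h5.trans_lt ?_
      rw [← dist_eq_norm, mul_comm]
      rwa [lt_div_iff₀ hs₀pos] at hwv
    obtain ⟨v₀, hv₀, hmin⟩ := (isCompact_sphere (0 : V) 1).exists_isMinOn hne hcont
    refine ⟨s₀, busR ρ (σ v₀ s₀), hs₀pos, hpos v₀ (by simpa using hv₀), ?_⟩
    intro v hv
    exact hmin (show v ∈ sphere (0 : V) 1 by simpa using hv)

theorem growth' [FiniteDimensional ℝ V] (hφ : Isometry φ) (hr : 0 ≤ r)
    (hC : DSide (NF φ r) C) (h : Orth C ρ) (hb : Bornology.IsBounded (Pset C ρ)) :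
    ∃ c T : ℝ, 0 < c ∧ 0 < T ∧ ∀ v : V, ‖v‖ = 1 → ∀ t, T ≤ t →
      busR (dir φ v) (ρ 0) + c * t ≤ busR (dir φ v) (ρ t) := by
  obtain ⟨σ, hσ⟩ := exists_sigma hφ hr hC h
  obtain ⟨s₀, κ, hs₀, hκ, hk⟩ := exists_kappa' hφ h hb hσ
  refine ⟨κ / (2 * s₀), s₀ ^ 2 / κ, by positivity, by positivity, ?_⟩
  intro v hv t ht
  obtain ⟨hσr, hσ0, hσa, -⟩ := hσ v hv
  have ht0 : 0 < t := lt_of_lt_of_le (by positivity) ht
  have hκt : s₀ ^ 2 ≤ κ * t := by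
    rw [div_le_iff₀ hκ] at ht
    linarith
  have h1 := busR_lower hσr (ρ t) hs₀
  have h2 : dist (ρ t) (σ v 0) = t := by
    rw [hσ0, h.ray t 0 ht0.le le_rfl, sub_zero, abs_of_pos ht0]
  have h3 : κ ≤ dist (σ v s₀) (ρ t) - t := (hk v hv).trans (busR_le h.ray _ ht0.le)
  rw [h2] at h1
  have h4 : (t + κ) ^ 2 ≤ dist (ρ t) (σ v s₀) ^ 2 := by
    apply pow_le_pow_left₀ (by positivity)
    rw [dist_comm]
    linarith
  have h5 : κ / (2 * s₀) * t ≤ (dist (ρ t) (σ v s₀) ^ 2 - s₀ ^ 2 - t ^ 2) / (2 * s₀) := by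
    rw [div_mul_eq_mul_div]
    apply div_le_div_of_nonneg_right _ (by positivity)
    nlinarith [mul_pos hκ ht0]
  have h7 := busR_asym hσr (isRay_dir hφ hv) hσa (ρ 0) (ρ t)
  have h8 : busR (σ v) (ρ 0) = 0 := by
    rw [← hσ0, busR_apply hσr le_rfl, neg_zero]
  linarith

theorem parallel_far' [FiniteDimensional ℝ V] (hφ : Isometry φ) (hr : 0 ≤ r)
    (hC : DSide (NF φ r) C) (h : Orth C ρ) (hb : Bornology.IsBounded (Pset C ρ)) :
    ∃ c T : ℝ, 0 < c ∧ 0 < T ∧ ∀ t, T ≤ t → ∀ v : V, ‖v‖ = 1 → ∀ ℓ : ℝ → X, Isometry ℓ →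
      Asym ℓ (dir φ v) → Asym (fun t => ℓ (-t)) (dir φ (-v)) → ∀ s, c * t ≤ dist (ρ t) (ℓ s) := by
  obtain ⟨c, T, hc, hT, hg⟩ := growth' hφ hr hC h hb
  refine ⟨c, T, hc, hT, ?_⟩
  intro t ht v hv ℓ hℓ h1 h2 s
  have hv' : ‖-v‖ = 1 := by rw [norm_neg]; exact hv
  have a1 := hg v hv t ht
  have a2 := hg (-v) hv' t ht
  have a3 := sum_zero_of_parallel hφ hv hℓ h1 h2 s
  have a4 : 0 ≤ busR (dir φ v) (ρ 0) + busR (dir φ (-v)) (ρ 0) := by
    have hm : Isometry (dir φ v) := by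
      apply hφ.comp
      apply Isometry.of_dist_eq
      intro a b
      rw [dist_eq_norm, ← sub_smul, norm_smul, hv, mul_one, Real.dist_eq, Real.norm_eq_abs]
    have e0 : dir φ (-v) = fun t => dir φ v (-t) := by
      funext t
      simp [dir]
    rw [e0]
    exact busF_add_nonneg hm _
  have a5 := busR_lip (isRay_dir hφ hv) (ρ t) (ℓ s)
  have a6 := busR_lip (isRay_dir hφ hv') (ρ t) (ℓ s)
  linarith

end Pool.Agent.H75.CF
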