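import Pool.Agent.H75.SF.Split

/-!
# Two rays whose Busemann functions have a bounded sum on large balls

Adapted from `SF/Split`.
-/

open Set Filter Topology Metric
open Pool.Agent.H29 Pool.Agent.H29.RR Pool.Agent.H75.SF

set_option linter.unusedSectionVars false

namespace Pool.Agent.H75.CF

universe u

variable {X : Type u} [MetricSpace X] [IsCAT0 X] [ProperSpace X]

theorem line_of_almost_bdd {G : Type*} [Group G] [MulAction G X] [IsIsometricSMul G X]
    [Nonempty X] (hcoc : Cocompact G X) (hgc : GeodesicallyComplete X)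
    (hirr : MetricIrreducible X) {α β : ℝ → X}
    (hα : IsRay α) (hβ : IsRay β) {B : ℝ}
    (h : ∀ M : ℝ, 0 < M → ∃ x : X, ∀ y, dist x y ≤ M →
      |(busR α y + busR β y) - (busR α x + busR β x)| ≤ B) :
    ∃ c : ℝ → X, Isometry c ∧ Function.Surjective c := by
  obtain ⟨o⟩ := ‹Nonempty X›
  obtain ⟨R, hR⟩ := hcoc.orbit o
  have hx : ∀ n : ℕ, ∃ x : X, ∀ y, dist x y ≤ (n : ℝ) + 1 →
      |(busR α y + busR β y) - (busR α x + busR β x)| ≤ B :=
    fun n => h _ (by positivity)
  choose x hx using hx
  choose g hg using fun n => hR (x n)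
  let α' : ℕ → ℝ → X := fun n t => (g n)⁻¹ • α t
  let β' : ℕ → ℝ → X := fun n t => (g n)⁻¹ • β t
  have hα' : ∀ n, IsRay (α' n) := fun n => hα.smul _
  have hβ' : ∀ n, IsRay (β' n) := fun n => hβ.smul _
  have hbα : ∀ n y, busR (α' n) y = busR α (g n • y) := by
    intro n y
    have h1 := busR_smul (g n)⁻¹ α (g n • y)
    rwa [inv_smul_smul] at h1
  have hbβ : ∀ n y, busR (β' n) y = busR β (g n • y) := by
    intro n y
    have h1 := busR_smul (g n)⁻¹ β (g n • y)
    rwa [inv_smul_smul] at h1
  let D : ℕ → X → ℝ := fun n y => busR (α' n) y + busR (β' n) y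
  have hDlip : ∀ n y z, |D n y - D n z| ≤ 2 * dist y z := by
    intro n y z
    have h1 := abs_le.1 (abs_busR_sub_le (hα' n) y z)
    have h2 := abs_le.1 (abs_busR_sub_le (hβ' n) y z)
    rw [abs_le]
    simp only [D]
    constructor <;> linarith [h1.1, h1.2, h2.1, h2.2]
  have hD1 : ∀ (n : ℕ) (y : X), dist o y + R ≤ (n : ℝ) + 1 →
      |D n y - (busR α (x n) + busR β (x n))| ≤ B := by
    intro n y hy
    simp only [D]
    rw [hbα, hbβ]
    refine hx n _ ?_
    have h1 := dist_triangle (x n) (g n • o) (g n • y)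
    rw [dist_smul] at h1
    have h2 := hg n
    linarith
  have hD : ∀ (n : ℕ) (y z : X), dist o y + R ≤ (n : ℝ) + 1 → dist o z + R ≤ (n : ℝ) + 1 →
      D n z - D n y ≤ 2 * B := by
    intro n y z hy hz
    have h1 := (abs_le.1 (hD1 n y hy)).1
    have h2 := (abs_le.1 (hD1 n z hz)).2
    linarith
  set U : Ultrafilter ℕ := Filter.hyperfilter ℕ with hU
  have hUle : (U : Filter ℕ) ≤ atTop := by
    rw [← Nat.cofinite_eq_atTop]
    exact Filter.hyperfilter_le_cofinite
  -- the limit of `D n y - D n o`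
  have hElim : ∀ y : X, ∃ E : ℝ, Tendsto (fun n => D n y - D n o) U (𝓝 E) := by
    intro y
    obtain ⟨E, -, hE⟩ := (isCompact_iff_ultrafilter_le_nhds.1
      (isCompact_closedBall (0 : ℝ) (2 * dist y o))) (U.map (fun n => D n y - D n o)) (by
        rw [le_principal_iff]
        have : ∀ᶠ n in (U : Filter ℕ), D n y - D n o ∈ closedBall (0 : ℝ) (2 * dist y o) :=
          Eventually.of_forall fun n => by
            rw [mem_closedBall, Real.dist_eq, sub_zero]
            exact hDlip n y o
        exact this)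
    exact ⟨E, hE⟩
  choose E hE using hElim
  have hEconv : GConvexFun E := by
    intro y z t ht
    refine le_of_tendsto_of_tendsto (hE (pt y z t))
      (((hE y).const_mul (1 - t)).add ((hE z).const_mul t)) (Eventually.of_forall fun n => ?_)
    have h1 := gconvexFun_busR (hα' n) y z t ht
    have h2 := gconvexFun_busR (hβ' n) y z t ht
    simp only [D]
    nlinarith
  have hEbdd : ∀ y, E y ≤ 2 * B := by
    intro y
    refine le_of_tendsto (hE y) ?_
    apply hUle
    obtain ⟨N, hN⟩ := exists_nat_ge (dist o y + R)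
    filter_upwards [eventually_ge_atTop N] with n hn
    have hn' : (N : ℝ) ≤ n := by exact_mod_cast hn
    refine hD n o y ?_ (by linarith)
    have := dist_nonneg (x := o) (y := y)
    rw [dist_self]
    linarith
  have hE0 : ∀ y, E y = 0 := by
    intro y
    have h1 := hgc.const_of_bdd hEconv hEbdd y o
    rw [h1]
    refine tendsto_nhds_unique (hE o) ?_
    simp only [sub_self]
    exact tendsto_const_nhds
  have hDz : ∀ y, Tendsto (fun n => D n y - D n o) U (𝓝 0) := by
    intro y
    have := hE y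
    rwa [hE0 y] at this
  choose r hr1 hr2 hr3 using fun (z : X) (n : ℕ) => exists_ray_from (hα' n) z
  choose q hq1 hq2 hq3 using fun (z : X) (n : ℕ) => exists_ray_from (hβ' n) z
  choose σ hσ1 hσ2 hσ3 using fun z : X => exists_ray_limit U (ρ := r z) (o := z)
    (Eventually.of_forall fun n => ⟨hr1 z n, hr2 z n⟩)
  choose τ hτ1 hτ2 hτ3 using fun z : X => exists_ray_limit U (ρ := q z) (o := z)
    (Eventually.of_forall fun n => ⟨hq1 z n, hq2 z n⟩)
  -- (a)
  have ha : ∀ z w t, 0 ≤ t → dist (σ z t) (σ w t) ≤ dist z w := by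
    intro z w t ht
    refine le_of_tendsto ((hσ3 z t ht).dist (hσ3 w t ht)) (Eventually.of_forall fun n => ?_)
    have h1 := Asym.dist_le ((hr3 z n).symm.trans (hr3 w n)) (hr1 z n) (hr1 w n) t ht
    rwa [hr2, hr2] at h1
  have ha' : ∀ z w t, 0 ≤ t → dist (τ z t) (τ w t) ≤ dist z w := by
    intro z w t ht
    refine le_of_tendsto ((hτ3 z t ht).dist (hτ3 w t ht)) (Eventually.of_forall fun n => ?_)
    have h1 := Asym.dist_le ((hq3 z n).symm.trans (hq3 w n)) (hq1 z n) (hq1 w n) t ht
    rwa [hq2, hq2] at h1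
  -- (b)
  have hb : ∀ z s t, 0 ≤ s → 0 ≤ t → dist (σ z s) (τ z t) = s + t := by
    intro z s t hs ht
    apply le_antisymm
    · have h1 := dist_triangle (σ z s) z (τ z t)
      have h2 := hσ1 z s 0 hs le_rfl
      have h3 := hτ1 z 0 t le_rfl ht
      rw [hσ2, sub_zero, abs_of_nonneg hs] at h2
      rw [hτ2, zero_sub, abs_neg, abs_of_nonneg ht] at h3
      linarith
    · have hq0 : Tendsto (fun n => dist (q z n t) (τ z t)) U (𝓝 0) := by
        have h1 := (hτ3 z t ht).dist (tendsto_const_nhds (x := τ z t))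
        rwa [dist_self] at h1
      have hT : Tendsto (fun n : ℕ => s + t + (D n (τ z t) - D n o) - (D n z - D n o)
          - 2 * dist (q z n t) (τ z t)) U (𝓝 (s + t + 0 - 0 - 2 * 0)) :=
        (((hDz (τ z t)).const_add (s + t)).sub (hDz z)).sub (hq0.const_mul 2)
      rw [add_zero, sub_zero, mul_zero, sub_zero] at hT
      refine le_of_tendsto_of_tendsto hT ((hσ3 z s hs).dist (hτ3 z t ht))
        (Eventually.of_forall fun n => ?_)
      have h3 := (abs_le.1 (hDlip n (q z n t) (τ z t))).1
      have h4 := busR_along_asym (hβ' n) (hq1 z n) (hq3 z n) (hq2 z n) ht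
      have h5 := busR_along_asym (hα' n) (hr1 z n) (hr3 z n) (hr2 z n) hs
      have h6 := busR_lip (hα' n) (q z n t) (r z n s)
      rw [dist_comm] at h6
      have h7 : D n (q z n t) = busR (α' n) (q z n t) + busR (β' n) (q z n t) := rfl
      have h8 : D n z = busR (α' n) z + busR (β' n) z := rfl
      show _ ≤ dist (r z n s) (q z n t)
      linarith
  -- (c)
  have hc : ∀ z, Isometry (fun t : ℝ => if 0 ≤ t then σ z t else τ z (-t)) :=
    fun z => isometry_of_two_rays (hσ1 z) (hτ1 z) (hb z)
  refine ⟨_, hc o, surjective_of_parallel hirr (hc o) fun z => ⟨_, hc z, ?_, dist o z, fun t => ?_⟩⟩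
  · simp only [le_refl, if_true]
    exact hσ2 z
  · by_cases ht : 0 ≤ t
    · simp only [if_pos ht]
      exact ha o z t ht
    · simp only [if_neg ht]
      exact ha' o z (-t) (by linarith)

end Pool.Agent.H75.CF
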