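import Pool.Agent.H75.CF.Symm
import Pool.Agent.H75.CF.AC
import Pool.Agent.H75.CF.Split
import Pool.Agent.H75.SF.Pole

/-!
# Strong poles exist
-/

open Set Filter Topology Metric
open Pool.Agent.H29 Pool.Agent.H29.RR Pool.Agent.H75.SF
open scoped RealInnerProductSpace

set_option linter.unusedSectionVars false

namespace Pool.Agent.H75.CF

universe u

theorem exists_strong_pole' {X : Type u} [MetricSpace X] [IsCAT0 X] [ProperSpace X]
    {G : Type*} [Group G] [MulAction G X] [IsIsometricSMul G X]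
    {V : Type*} [NormedAddCommGroup V] [InnerProductSpace ℝ V] [FiniteDimensional ℝ V]
    {φ : V → X} {r : ℝ} {C : Set X}
    (hcoc : Cocompact G X) (hgc : GeodesicallyComplete X) (hirr : MetricIrreducible X)
    (hdim : 2 ≤ Module.finrank ℝ V) (hφ : Isometry φ) (hr : 0 ≤ r) (hC : DSide (NF φ r) C)
    (hne : C ≠ univ) :
    ∃ ρ : ℝ → X, Orth C ρ ∧ Bornology.IsBounded (Pset C ρ) := by
  by_contra hcon
  push Not at hcon
  obtain ⟨y, hy⟩ : ∃ y, y ∉ C := by
    by_contra h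
    push Not at h
    exact hne (eq_univ_of_forall h)
  have : Nonempty X := ⟨y⟩
  obtain ⟨ρ₀, hρ₀, -⟩ := exists_orth' hgc hC hy
  obtain ⟨Q, hQ, hmin⟩ := exists_minimal_cgood (φ := φ) ⟨ρ₀, hρ₀⟩
  obtain ⟨e, he⟩ := hQ.nonempty (fun ρ hρ => Qd_nonempty hφ hC hρ (hcon ρ hρ))
  have hneg := minimal_symm' hgc hφ hr hC hQ hmin he
  have he1 : ‖e‖ = 1 := by simpa using hQ.2.1 he
  have he2 : ‖-e‖ = 1 := by rw [norm_neg]; exact he1
  exact not_line_of_flat hdim hφ (line_of_almost_bdd hcoc hgc hirr (isRay_dir hφ he1)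
    (isRay_dir hφ he2) (B := 1 + 4 * r)
    (fun M hM => almost_bdd hgc hφ hr hC hQ hmin he hneg hM))

end Pool.Agent.H75.CF
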