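import Pool.Agent.H75.CF.Sides
import Pool.Agent.H75.CF.Pole
import Pool.Agent.H75.CF.NC

/-!
# Ends and strong poles of a coarsely separating flat
-/

open Set Filter Topology Metric
open Pool.Agent.H29 Pool.Agent.H29.RR Pool.Agent.H75.SF
open scoped Pointwise

set_option linter.unusedSectionVars false

namespace Pool.Agent.H75.CF

universe u

variable {X : Type u} [MetricSpace X] [IsCAT0 X] [ProperSpace X]
variable {V : Type*} [NormedAddCommGroup V] [InnerProductSpace ℝ V] [FiniteDimensional ℝ V]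
variable {φ : V → X} {r₀ : ℝ}

lemma dside_of_side (hφ : Isometry φ) (hr : 0 ≤ r₀) (x : X) :
    DSide (NF φ r₀) (Side (NF φ r₀) x)ᶜ := by
  refine ⟨(isOpen_side (isClosed_NF r₀) x).isClosed_compl, gconvex_compl_side (gconvex_NF hφ r₀) x,
    NF_nonempty hr, fun z hz hcon => side_subset hcon hz, ?_⟩
  have h1 : (Side (NF φ r₀) x)ᶜ \ NF φ r₀ = (NF φ r₀ ∪ Side (NF φ r₀) x)ᶜ := by
    ext z
    simp only [Set.mem_sdiff, mem_compl_iff, mem_union, not_or]
    exact and_comm
  rw [h1]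
  exact (isClosed_union_side (isClosed_NF r₀) x).isOpen_compl

lemma orth_infDist (hφ : Isometry φ) (hr : 0 ≤ r₀) {C : Set X} (hC : DSide (NF φ r₀) C)
    {ρ : ℝ → X} (h : Orth C ρ) {t : ℝ} (ht : 0 < t) : t + r₀ ≤ infDist (ρ t) (range φ) := by
  have h1 : t ≤ infDist (ρ t) (NF φ r₀) := by
    have h2 := infDist_le_infDist_of_subset (x := ρ t) hC.sub hC.ne
    rwa [h.infDist t ht.le] at h2
  have h2 : ρ t ∉ NF φ r₀ := by
    intro hcon
    rw [infDist_zero_of_mem hcon] at h1
    linarith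
  have h3 := infDist_add_le hφ hr h2
  linarith

lemma side_orth (hφ : Isometry φ) (hr : 0 ≤ r₀) {C : Set X} (hC : DSide (NF φ r₀) C)
    {ρ : ℝ → X} (h : Orth C ρ) {r a b : ℝ} (hr' : r₀ ≤ r) (ha : r - r₀ < a) (hb : r - r₀ < b) :
    ρ b ∈ Side (NF φ r) (ρ a) := by
  have ha0 : 0 < a := by linarith
  have hb0 : 0 < b := by linarith
  have key : ∀ t, r - r₀ < t → ρ t ∉ NF φ r := by
    intro t ht hcon
    have h1 := orth_infDist hφ hr hC h (t := t) (by linarith)
    have h2 := mem_NF.1 hcon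
    linarith
  refine side_of_seg (mem_side_self (key a ha)) fun t ht => ?_
  rw [← ray_pt2 h.ray ha0.le hb0.le ht]
  apply key
  have h1 := mul_le_mul_of_nonneg_left ha.le (sub_nonneg.2 ht.2)
  have h2 := mul_le_mul_of_nonneg_left hb.le ht.1
  rcases ht.1.eq_or_lt with h3 | h3
  · rw [← h3]
    linarith
  · have h4 := mul_lt_mul_of_pos_left hb h3
    linarith

theorem exists_ends {G : Type*} [Group G] [MulAction G X] [IsIsometricSMul G X]
    (hcoc : Cocompact G X) (hgc : GeodesicallyComplete X) (hirr : MetricIrreducible X)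
    (hdim : 2 ≤ Module.finrank ℝ V) (hφ : Isometry φ) (hr : 0 ≤ r₀) {x : Bool → X}
    (hx : ∀ j, x j ∉ NF φ r₀) (hxx : ¬ JoinedIn (NF φ r₀)ᶜ (x false) (x true)) :
    ∃ (E : Bool → ℝ → Set X) (ρ : Bool → ℝ → X) (c T : ℝ), Ends φ r₀ E ∧
      Poles' φ r₀ E ρ c T := by
  have key : ∀ j, ∃ (ρ : ℝ → X) (c T : ℝ), 0 < c ∧ 0 < T ∧ Orth (Side (NF φ r₀) (x j))ᶜ ρ ∧
      Far φ ρ c T := by
    intro j
    have hC := dside_of_side hφ hr (x j)
    obtain ⟨ρ, hρ, hb⟩ := exists_strong_pole' hcoc hgc hirr hdim hφ hr hC (by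
      intro hcon
      have h1 : x j ∈ (Side (NF φ r₀) (x j))ᶜ := by rw [hcon]; exact mem_univ _
      exact h1 (mem_side_self (hx j)))
    obtain ⟨c, T, hc, hT, hfar⟩ := parallel_far' hφ hr hC hρ hb
    exact ⟨ρ, c, T, hc, hT, hρ, hfar⟩
  choose ρ c T hc hT hρ hfar using key
  have hC := fun j => dside_of_side hφ hr (x j)
  have hx1 : ∀ j, ρ j 1 ∈ Side (NF φ r₀) (x j) := by
    intro j
    by_contra hcon
    have h1 := (hρ j).infDist 1 zero_le_one
    rw [infDist_zero_of_mem (show ρ j 1 ∈ (Side (NF φ r₀) (x j))ᶜ from hcon)] at h1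
    linarith
  refine ⟨fun j r => Side (NF φ r) (ρ j (r - r₀ + 1)), ρ, min (c false) (c true),
    max (max (T false) (T true)) 0, ⟨hr, ?_, ?_, ?_⟩, ⟨lt_min (hc _) (hc _),
    fun j => (hρ j).ray, ?_, ?_⟩⟩
  · intro j r hr'
    refine ⟨ρ j (r - r₀ + 1), fun hcon => ?_, rfl⟩
    have h1 := orth_infDist hφ hr (hC j) (hρ j) (t := r - r₀ + 1) (by linarith)
    have h2 := mem_NF.1 hcon
    linarith
  · intro j r r' h1 h2
    have h3 := side_orth hφ hr (hC j) (hρ j) h1 (a := r - r₀ + 1) (b := r' - r₀ + 1)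
      (by linarith) (by linarith)
    show Side (NF φ r') (ρ j (r' - r₀ + 1)) ⊆ Side (NF φ r) (ρ j (r - r₀ + 1))
    rw [side_eq h3]
    exact side_anti (NF_mono h2) _
  · simp only [sub_self, zero_add]
    rw [← side_eq (hx1 false), ← side_eq (hx1 true), Set.disjoint_left]
    intro z hz1 hz2
    exact hxx ((mem_side.mp hz1).trans (mem_side.mp hz2).symm)
  · intro j r t z hr' hz
    have ht : r - r₀ < t := by
      have := dist_nonneg (x := ρ j t) (y := z)
      linarith
    have ht0 : 0 < t := by linarith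
    have h1 := side_orth hφ hr (hC j) (hρ j) hr' (a := r - r₀ + 1) (b := t) (by linarith) ht
    refine side_of_seg h1 fun s hs hmem => ?_
    have h2 := orth_infDist hφ hr (hC j) (hρ j) ht0
    have h3 := infDist_le_infDist_add_dist (s := range φ) (x := ρ j t) (y := pt (ρ j t) z s)
    rw [dist_left_pt _ _ hs] at h3
    have h4 := mem_NF.1 hmem
    have h5 : s * dist (ρ j t) z ≤ 1 * dist (ρ j t) z := mul_le_mul_of_nonneg_right hs.2 dist_nonneg
    linarith
  · intro j t ht v hv ℓ hℓ h1 h2 s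
    have ht' : T j ≤ t := by
      refine le_trans ?_ ht
      cases j
      · exact (le_max_left _ _).trans (le_max_left _ _)
      · exact (le_max_right _ _).trans (le_max_left _ _)
    have hc' : min (c false) (c true) ≤ c j := by
      cases j
      · exact min_le_left _ _
      · exact min_le_right _ _
    have ht0 : 0 ≤ t := (hT j).le.trans ht'
    exact (mul_le_mul_of_nonneg_right hc' ht0).trans (hfar j t ht' v hv ℓ hℓ h1 h2 s)

end Pool.Agent.H75.CF
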