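import Pool.Agent.H75.CF.Sides
import Pool.Agent.H75.SF.HP3

/-!
# A translation of a half-space without common rays is rank one (no adjacency needed)

Adapted from `SF/Ends1`, `SF/Ends2`, `SF/Ends3`, `SF/HP1a`, `SF/HP1`, `SF/RankThm`.
-/

open Set Filter Topology Metric
open Pool.Agent.H29 Pool.Agent.H29.RR Pool.Agent.H75.SF
open scoped Pointwise

set_option linter.unusedSectionVars false

namespace Pool.Agent.H75.CF

variable {X : Type*} [MetricSpace X] [IsCAT0 X] [ProperSpace X]
variable {G : Type*} [Group G] [MulAction G X] [IsIsometricSMul G X]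
variable {D A : Set X} {g : G}

/-- `g` maps the half-space `A` (a side of the closed convex set `D`) into itself -/
structure Trn (D A : Set X) (g : G) : Prop where
  closed : IsClosed D
  convex : GConvex D
  ne : D.Nonempty
  side : ∃ x, x ∉ D ∧ A = Side D x
  out : ∃ x, x ∉ D ∪ A
  mapA : g • A ⊆ A
  mapD : g • D ⊆ D ∪ A
  nocommon : ∀ r : ℝ → X, IsRay r → Bdd r D → ¬ Bdd r (g • D)
  ray : ∃ r : ℝ → X, IsRay r ∧ Bdd r D

lemma Trn.map_union (h : Trn D A g) : g • (D ∪ A) ⊆ D ∪ A := by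
  rw [smul_set_union]
  exact union_subset h.mapD (h.mapA.trans subset_union_right)

lemma pow_smul_sub {g : G} {B : Set X} (hg : g • B ⊆ B) : ∀ n : ℕ, g ^ n • B ⊆ B := by
  intro n
  induction n with
  | zero => simp
  | succ n ih =>
    rw [pow_succ', mul_smul]
    exact (smul_set_mono ih).trans hg

lemma pow_axis {g : G} {c : ℝ → X} {l : ℝ} (hgc : ∀ t, g • c t = c (t + l)) :
    ∀ (n : ℕ) (t : ℝ), g ^ n • c t = c (t + n * l) := by
  intro n
  induction n with
  | zero => intro t; simp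
  | succ n ih =>
    intro t
    rw [pow_succ, mul_smul, hgc, ih]
    congr 1
    push_cast
    ring

lemma Trn.inf_order (h : Trn D A g) : ∀ n : ℕ, 0 < n → g ^ n ≠ 1 := by
  obtain ⟨x, _, hA⟩ := h.side
  have hdis : Disjoint A D := by
    rw [hA]
    exact side_disjoint
  have hne : g • A ≠ A := by
    intro he
    have h1 : g • D ⊆ D := by
      intro z hz
      rcases h.mapD hz with h2 | h2
      · exact h2
      · exfalso
        rw [← he] at h2
        exact Set.disjoint_left.mp (Set.disjoint_smul_set.2 hdis) h2 hz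
    obtain ⟨r, hr, hrD⟩ := h.ray
    have h2 : Bdd (fun t => g • r t) (g • D) := hrD.smul g
    refine h.nocommon (fun t => g • r t) (hr.smul g) ?_ h2
    obtain ⟨M, hM⟩ := h2
    exact ⟨M, fun t ht => (infDist_le_infDist_of_subset h1 h.ne.smul_set).trans (hM t ht)⟩
  intro n hn hgn
  apply hne
  apply Subset.antisymm h.mapA
  obtain ⟨m, rfl⟩ : ∃ m, n = m + 1 := ⟨n - 1, by omega⟩
  have h3 : g ^ (m + 1) • A = A := by rw [hgn, one_smul]
  rw [pow_succ', mul_smul] at h3
  calc A = g • g ^ m • A := h3.symm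
    _ ⊆ g • A := smul_set_mono (pow_smul_sub h.mapA m)

lemma conv_alt {f : ℝ → ℝ} (hf : ConvR f) :
    Tendsto f atTop atTop ∨ ∀ t, 0 ≤ t → f t ≤ f 0 := by
  by_cases h : ∀ t, 0 ≤ t → f t ≤ f 0
  · exact Or.inr h
  left
  push Not at h
  obtain ⟨t, ht0, ht⟩ := h
  have htpos : 0 < t := by
    rcases ht0.lt_or_eq with h1 | h1
    · exact h1
    · rw [← h1] at ht
      exact absurd ht (lt_irrefl _)
  have hκ : 0 < (f t - f 0) / t := div_pos (by linarith) htpos
  have h1 : Tendsto (fun s : ℝ => f 0 + s * ((f t - f 0) / t)) atTop atTop :=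
    tendsto_atTop_add_const_left _ _ (tendsto_id.atTop_mul_const hκ)
  refine tendsto_atTop_mono' _ ?_ h1
  filter_upwards [eventually_ge_atTop t] with s hs
  have hspos : 0 < s := htpos.trans_le hs
  have h2 := hf 0 s (t / s) ⟨by positivity, by rw [div_le_one hspos]; exact hs⟩
  rw [show (1 - t / s) * 0 + t / s * s = t by field_simp; ring] at h2
  have h3 : s * f t ≤ (s - t) * f 0 + t * f s := by
    have h4 := mul_le_mul_of_nonneg_left h2 hspos.le
    calc s * f t ≤ s * ((1 - t / s) * f 0 + t / s * f s) := h4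
      _ = (s - t) * f 0 + t * f s := by field_simp
  have h5 : (f 0 + s * ((f t - f 0) / t)) * t ≤ f s * t := by
    have h6 : (f 0 + s * ((f t - f 0) / t)) * t = f 0 * t + s * (f t - f 0) := by field_simp
    rw [h6]
    nlinarith
  exact le_of_mul_le_mul_right h5 htpos

lemma Trn.half (h : Trn D A g) {c : ℝ → X}
    (hc : Isometry c) {l : ℝ} (hgc : ∀ t, g⁻¹ • c t = c (t + l)) :
    Tendsto (fun t => infDist (c t) D) atTop atTop := by
  have hf := (gconvexFun_infDist h.closed h.ne h.convex).comp_line hc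
  rcases conv_alt hf with h1 | h1
  · exact h1
  exfalso
  have hr : IsRay c := isRay_of_isometry hc
  refine h.nocommon c hr ⟨infDist (c 0) D, h1⟩ ⟨infDist (c 0) D + |l|, fun t ht => ?_⟩
  have h2 : infDist (c t) (g • D) = infDist (c (t + l)) D := by
    rw [← hgc t, ← infDist_smul_smul g (g⁻¹ • c t) D, smul_inv_smul]
  rw [h2]
  by_cases h3 : 0 ≤ t + l
  · have := h1 (t + l) h3
    have := abs_nonneg l
    linarith
  · have h4 : infDist (c (t + l)) D ≤ infDist (c 0) D + dist (c (t + l)) (c 0) :=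
      infDist_le_infDist_add_dist
    have h5 : dist (c (t + l)) (c 0) ≤ |l| := by
      rw [hc.dist_eq, Real.dist_eq, sub_zero, abs_of_neg (by linarith)]
      have := neg_abs_le l
      linarith
    linarith

lemma Trn.tendsto_axis (h : Trn D A g) {c : ℝ → X}
    (hc : Isometry c) {l : ℝ} (hgc : ∀ t, g • c t = c (t + l)) :
    Tendsto (fun t => infDist (c t) D) atTop atTop ∧
      Tendsto (fun t => infDist (c t) D) atBot atTop := by
  have hinv : ∀ t, g⁻¹ • c t = c (t + -l) := fun t => by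
    rw [inv_smul_eq_iff, hgc]
    congr 1
    ring
  constructor
  · exact h.half hc hinv
  · have h1 := h.half (isometry_comp_neg hc) (l := l) (fun t => by
      show g⁻¹ • c (-t) = c (-(t + l))
      rw [hinv]
      congr 1
      ring)
    have h2 := h1.comp tendsto_neg_atBot_atTop
    refine h2.congr fun t => ?_
    simp

lemma joined_of_lt {u v : X} (h : dist u v < infDist v D) : JoinedIn Dᶜ u v := by
  apply joinedIn_of_pt
  intro t ht hcon
  have h1 : infDist v D ≤ dist v (pt u v t) := infDist_le_dist_of_mem hcon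
  rw [dist_comm, dist_pt_right u v ht] at h1
  have h2 : (1 - t) * dist u v ≤ 1 * dist u v :=
    mul_le_mul_of_nonneg_right (by linarith [ht.1]) dist_nonneg
  linarith

lemma Trn.fwd (h : Trn D A g) {c : ℝ → X}
    (hc : Isometry c) {l : ℝ} (hl : 0 < l) (hgc : ∀ t, g • c t = c (t + l))
    (ht : Tendsto (fun t => infDist (c t) D) atTop atTop) : ∀ᶠ t in atTop, c t ∈ A := by
  obtain ⟨x, hx, hA⟩ := h.side
  have hxA : x ∈ A := by
    rw [hA]
    exact mem_side_self hx
  filter_upwards [ht.eventually_gt_atTop (dist x (c 0) + l), eventually_ge_atTop 0] with t h1 h2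
  set n : ℕ := ⌊t / l⌋₊ with hn
  have h3 : (n : ℝ) * l ≤ t := by
    have := Nat.floor_le (div_nonneg h2 hl.le)
    rwa [← hn, le_div_iff₀ hl] at this
  have h4 : t < (n + 1 : ℝ) * l := by
    have := Nat.lt_floor_add_one (t / l)
    rwa [← hn, div_lt_iff₀ hl] at this
  have h5 : g ^ n • x ∈ A := pow_smul_sub h.mapA n (smul_mem_smul_set hxA)
  have h6 : dist (g ^ n • x) (c (n * l)) = dist x (c 0) := by
    have := pow_axis hgc n 0
    rw [zero_add] at this
    rw [← this, dist_smul]
  have h7 : dist (c (n * l)) (c t) ≤ l := by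
    rw [hc.dist_eq, Real.dist_eq, abs_le]
    constructor <;> linarith
  have h8 : JoinedIn Dᶜ (g ^ n • x) (c t) := by
    apply joined_of_lt
    have := dist_triangle (g ^ n • x) (c (n * l)) (c t)
    linarith
  rw [hA] at h5 ⊢
  exact (mem_side.mp h5).trans h8

lemma Trn.bwd (h : Trn D A g) {c : ℝ → X}
    (hc : Isometry c) {l : ℝ} (hl : 0 < l) (hgc : ∀ t, g • c t = c (t + l))
    (ht : Tendsto (fun t => infDist (c t) D) atBot atTop) :
    ∀ᶠ t in atBot, c t ∉ D ∪ A := by
  obtain ⟨x, hx1⟩ := h.out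
  have hcl := h.map_union
  filter_upwards [ht.eventually_gt_atTop (dist x (c 0) + l), eventually_le_atBot 0] with t h1 h2
  set n : ℕ := ⌊(-t) / l⌋₊ with hn
  have h3 : (n : ℝ) * l ≤ -t := by
    have := Nat.floor_le (div_nonneg (neg_nonneg.mpr h2) hl.le)
    rwa [← hn, le_div_iff₀ hl] at this
  have h4 : -t < (n + 1 : ℝ) * l := by
    have := Nat.lt_floor_add_one ((-t) / l)
    rwa [← hn, div_lt_iff₀ hl] at this
  set y : X := (g ^ n)⁻¹ • x with hy
  have hgy : g ^ n • y = x := smul_inv_smul _ _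
  have h5 : y ∉ D ∪ A := by
    intro hcon
    apply hx1
    rw [← hgy]
    exact pow_smul_sub hcl n (smul_mem_smul_set hcon)
  have h6 : dist y (c (-(n * l))) = dist x (c 0) := by
    have := pow_axis hgc n (-(n * l))
    rw [neg_add_cancel] at this
    rw [← this, ← hgy, dist_smul]
  have h7 : dist (c (-(n * l))) (c t) ≤ l := by
    rw [hc.dist_eq, Real.dist_eq, abs_le]
    constructor <;> linarith
  have h8 : JoinedIn Dᶜ y (c t) := by
    apply joined_of_lt
    have := dist_triangle y (c (-(n * l))) (c t)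
    linarith
  rintro (h9 | h9)
  · exact h8.target_mem h9
  · apply h5
    right
    obtain ⟨z, _, hz⟩ := h.side
    rw [hz] at h9 ⊢
    exact (mem_side.mp h9).trans h8.symm

lemma exists_first' {D A : Set X} (hD : IsClosed D) (hside : ∃ x, A = Side D x)
    {F : ℝ → ℝ → X} (hF : HPlane F) {s : ℝ}
    (hs : 0 ≤ s) (h1 : ∃ t, F t s ∈ D ∪ A) (h2 : ∀ᶠ t in atBot, F t s ∉ D ∪ A) :
    ∃ α : ℝ, F α s ∈ D ∧ ∀ t < α, F t s ∉ D ∪ A := by
  obtain ⟨x, hAx⟩ := hside
  have hcl : IsClosed (D ∪ A) := by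
    rw [hAx]
    exact isClosed_union_side hD x
  have hop : IsOpen A := by
    rw [hAx]
    exact isOpen_side hD x
  have hcont : Continuous (fun t => F t s) := (hF.isometry hs).continuous
  set E : Set ℝ := {t | F t s ∈ D ∪ A} with hE
  have hEcl : IsClosed E := hcl.preimage hcont
  have hEne : E.Nonempty := h1
  obtain ⟨b, hb⟩ := (eventually_atBot.mp h2)
  have hEb : BddBelow E := by
    refine ⟨b, fun t ht => ?_⟩
    by_contra hlt
    push Not at hlt
    exact hb t hlt.le ht
  have hmem : sInf E ∈ E := hEcl.csInf_mem hEne hEb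
  refine ⟨sInf E, ?_, fun t ht hm => ?_⟩
  · rcases hmem with h3 | h3
    · exact h3
    · exfalso
      have h4 : (fun t => F t s) ⁻¹' A ∈ 𝓝 (sInf E) :=
        (hop.preimage hcont).mem_nhds h3
      obtain ⟨ε, hε, hball⟩ := Metric.mem_nhds_iff.mp h4
      have h5 : sInf E - ε / 2 ∈ ball (sInf E) ε := by
        rw [mem_ball, Real.dist_eq]
        have : sInf E - ε / 2 - sInf E = -(ε / 2) := by ring
        rw [this, abs_neg, abs_of_pos (by positivity)]
        linarith
      have h6 : sInf E - ε / 2 ∈ E := Or.inr (hball h5)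
      have h7 := csInf_le hEb h6
      linarith
  · exact notMem_of_lt_csInf ht hEb hm

lemma joined_of_lt' {E : Set X} {x y : X} (h : dist x y < infDist x E) :
    JoinedIn Eᶜ x y := by
  apply joinedIn_of_pt
  intro t ht hcon
  have h1 := infDist_le_dist_of_mem (x := x) hcon
  rw [dist_left_pt x y ht] at h1
  have h2 : t * dist x y ≤ 1 * dist x y := mul_le_mul_of_nonneg_right ht.2 dist_nonneg
  linarith

lemma Trn.crossings (h : Trn D A g) {c : ℝ → X} (hc : Isometry c) {l : ℝ}
    (hgc : ∀ t, g • c t = c (t + l))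
    (h1 : Tendsto (fun t => infDist (c t) D) atTop atTop)
    (h2 : Tendsto (fun t => infDist (c t) D) atBot atTop)
    (h3 : ∀ᶠ t in atTop, c t ∈ A) (h4 : ∀ᶠ t in atBot, c t ∉ D ∪ A)
    {F : ℝ → ℝ → X} (hF : HPlane F) (hF0 : ∀ t, F t 0 = c t) :
    ∃ (α : ℕ → ℝ → ℝ) (κ B : ℝ), 0 < κ ∧
      (∀ n s, 0 ≤ s → F (α n s) s ∈ g ^ n • D) ∧
      (∀ n s, 0 ≤ s → α n s ≤ α (n + 1) s) ∧
      (∀ n, α n 0 = α 0 0 + n * l) ∧
      ∀ n s, 0 ≤ s → |α n s - n * l| ≤ (s + B) / κ := by
  obtain ⟨x₀, hx₀, hA⟩ := h.side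
  have hgn := pow_axis hgc
  have hgn' : ∀ (n : ℕ) (t : ℝ), c t = g ^ n • c (t - n * l) := by
    intro n t
    rw [hgn, sub_add_cancel]
  have hmem : ∀ (n : ℕ) (t : ℝ) (S : Set X), c t ∈ g ^ n • S ↔ c (t - n * l) ∈ S := by
    intro n t S
    rw [hgn' n t, Set.smul_mem_smul_set_iff]
  have hinf : ∀ (n : ℕ) (t : ℝ), infDist (c t) (g ^ n • D) = infDist (c (t - n * l)) D := by
    intro n t
    rw [hgn' n t, infDist_smul_smul]
  have hdist : ∀ t s : ℝ, 0 ≤ s → dist (c t) (F t s) = s := by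
    intro t s hs
    rw [← hF0 t]
    have h5 := hF t 0 t s le_rfl hs
    have h6 : dist (F t 0) (F t s) ^ 2 = s ^ 2 := by rw [h5]; ring
    exact (pow_left_inj₀ dist_nonneg hs two_ne_zero).1 h6
  have hshT : ∀ n : ℕ, Tendsto (fun t : ℝ => t - n * l) atTop atTop :=
    fun n => tendsto_atTop_add_const_right _ _ tendsto_id
  have hshB : ∀ n : ℕ, Tendsto (fun t : ℝ => t - n * l) atBot atBot :=
    fun n => tendsto_atBot_add_const_right _ _ tendsto_id
  have key : ∀ (n : ℕ) (s : ℝ), ∃ α : ℝ, 0 ≤ s → F α s ∈ g ^ n • D ∧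
      ∀ t < α, F t s ∉ g ^ n • D ∪ g ^ n • A := by
    intro n s
    by_cases hs : 0 ≤ s
    · have hside : g ^ n • A = Side (g ^ n • D) (g ^ n • x₀) := by
        rw [hA, side_smul]
      have e1 : ∃ t, F t s ∈ g ^ n • D ∪ g ^ n • A := by
        have ev1 := (hshT n).eventually h3
        have ev2 := (h1.comp (hshT n)).eventually (eventually_gt_atTop s)
        obtain ⟨t, ht1, ht2⟩ := (ev1.and ev2).exists
        refine ⟨t, Or.inr ?_⟩
        have hct : c t ∈ g ^ n • A := (hmem n t _).2 ht1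
        have hj : JoinedIn (g ^ n • D)ᶜ (c t) (F t s) := by
          apply joined_of_lt'
          rw [hdist t s hs, hinf]
          exact ht2
        rw [hside] at hct ⊢
        exact (mem_side.mp hct).trans hj
      have e2 : ∀ᶠ t in atBot, F t s ∉ g ^ n • D ∪ g ^ n • A := by
        have ev1 := (hshB n).eventually h4
        have ev2 := (h2.comp (hshB n)).eventually (eventually_gt_atTop s)
        filter_upwards [ev1, ev2] with t ht1 ht2
        have hj : JoinedIn (g ^ n • D)ᶜ (c t) (F t s) := by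
          apply joined_of_lt'
          rw [hdist t s hs, hinf]
          exact ht2
        rintro (h5 | h5)
        · exact hj.target_mem h5
        · apply ht1
          right
          rw [← hmem n t, hside]
          rw [hside] at h5
          exact (mem_side.mp h5).trans hj.symm
      obtain ⟨α, hα1, hα2⟩ := exists_first' (h.closed.smul (g ^ n)) ⟨_, hside⟩ hF hs e1 e2
      exact ⟨α, fun _ => ⟨hα1, hα2⟩⟩
    · exact ⟨0, fun h => absurd h hs⟩
  choose α hα using key
  obtain ⟨κ, B, hκ, hgr⟩ := linear_growth h.closed h.convex h.ne hc h1 h2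
  refine ⟨α, κ, B, hκ, fun n s hs => (hα n s hs).1, ?_, ?_, ?_⟩
  · intro n s hs
    by_contra hlt
    rw [not_le] at hlt
    have h5 := (hα n s hs).2 _ hlt
    apply h5
    have h6 := (hα (n + 1) s hs).1
    rw [pow_succ, mul_smul] at h6
    have h9 : g ^ n • (g • D) ⊆ g ^ n • (D ∪ A) := Set.smul_set_mono h.mapD
    rw [Set.smul_set_union] at h9
    exact h9 h6
  · intro n
    have e1 := hα n 0 le_rfl
    have e2 := hα 0 0 le_rfl
    rw [hF0, hmem] at e1
    rw [hF0, pow_zero, one_smul] at e2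
    apply le_antisymm
    · by_contra hlt
      rw [not_le] at hlt
      have h5 := e1.2 _ hlt
      rw [hF0, ← Set.smul_set_union, hmem, add_sub_cancel_right] at h5
      exact h5 (Or.inl e2.1)
    · by_contra hlt
      rw [not_le] at hlt
      have h5 := e2.2 (α n 0 - n * l) (by linarith)
      rw [hF0, one_smul] at h5
      exact h5 (Or.inl e1.1)
  · intro n s hs
    have h5 := infDist_le_dist_of_mem (x := c (α n s)) (hα n s hs).1
    rw [hdist _ _ hs, hinf] at h5
    have h6 := hgr (α n s - n * l)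
    rw [le_div_iff₀ hκ]
    linarith

theorem Trn.rankOne [ProperlyDiscontinuousSMul G X] (hcoc : Cocompact G X) (h : Trn D A g) :
    IsRankOne (X := X) g := by
  have : Nonempty X := h.ne.to_type
  obtain ⟨c, hc, l, hl, hgc⟩ := exists_axis hcoc h.inf_order
  obtain ⟨h1, h2⟩ := h.tendsto_axis hc hgc
  refine ⟨c, hc, ⟨l, hl.ne', hgc⟩, ?_⟩
  rintro ⟨F, hF0, hF⟩
  obtain ⟨α, κ, B, hκ, a1, a2, a3, a4⟩ := h.crossings hc hgc h1 h2
    (h.fwd hc hl hgc h1) (h.bwd hc hl hgc h2) hF hF0
  obtain ⟨b, a, hs⟩ := exists_slopes h.closed h.convex hF hκ a1 a2 a3 a4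
  obtain ⟨r, hr, hr1, hr2⟩ := common_ray_of_slopes h.closed hgc hF hF0 hs
  exact h.nocommon r hr hr1 hr2

end Pool.Agent.H75.CF
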