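import Pool.Agent.H75.CF.Flat

/-!
# Busemann functions of the flat along orthogonal rays; recession directions
-/

open Set Filter Topology Metric
open Pool.Agent.H29 Pool.Agent.H29.RR Pool.Agent.H75.SF
open scoped RealInnerProductSpace Pointwise

set_option linter.unusedSectionVars false

namespace Pool.Agent.H75.CF

variable {X : Type*} [MetricSpace X] [IsCAT0 X] [ProperSpace X]
variable {V : Type*} [NormedAddCommGroup V] [InnerProductSpace ℝ V]
variable {φ : V → X} {r : ℝ} {C : Set X} {ρ : ℝ → X}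

lemma busR_proj_le' (hφ : Isometry φ) (hr : 0 ≤ r) (hC : DSide (NF φ r) C) {v : V} (hv : ‖v‖ = 1)
    (x : X) : busR (dir φ v) (proj C x) ≤ busR (dir φ v) x := by
  have hne : C.Nonempty := hC.nonempty
  refine le_of_tendsto_of_tendsto' (tendsto_busR (isRay_dir hφ hv) (proj C x))
    (tendsto_busR (isRay_dir hφ hv) x) fun t => ?_
  have h0 : dir φ v t ∈ C := by
    refine hC.sub ?_
    show infDist (φ (t • v)) (range φ) ≤ r
    rw [infDist_zero_of_mem (mem_range_self _)]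
    exact hr
  have h1 := proj_obtuse hC.closed hne hC.convex x h0
  have h2 : dist (proj C x) (dir φ v t) ≤ dist x (dir φ v t) := by
    refine le_of_abs_le (abs_le_of_sq_le_sq ?_ dist_nonneg)
    nlinarith [sq_nonneg (dist x (proj C x))]
  linarith

lemma busR_const' {D : Set X} (hC : DSide D C) (hφ : Isometry φ) (h : Orth C ρ) {v : V}
    (hv : v ∈ Qd φ C ρ) {t : ℝ} (ht : 0 ≤ t) :
    busR (dir φ v) (ρ t) = busR (dir φ v) (ρ 0) := by
  rcases ht.eq_or_lt with rfl | ht0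
  · rfl
  obtain ⟨hv1, σ', hσ', hσa', hσP'⟩ := hv
  obtain ⟨σ, hσ, hσ0, hσa, hσP⟩ := exists_ray_in (isClosed_Pset hC h) (gconvex_Pset hC h) hσ'
    ⟨0, fun t ht => (infDist_zero_of_mem (hσP' t ht)).le⟩ (foot_mem_Pset hC h)
  have has : Asym σ (dir φ v) := hσa.trans hσa'
  have hd0 : ∀ t' : ℝ, 0 ≤ t' → dist (ρ 0) (σ t') = t' := by
    intro t' ht'
    rw [← hσ0]
    have := hσ 0 t' le_rfl ht'
    rw [this, zero_sub, abs_neg, abs_of_nonneg ht']
  -- two-sided estimate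
  have hlow : ∀ t' : ℝ, 0 ≤ t' → t' ≤ dist (ρ t) (σ t') := by
    intro t' ht'
    have h1 := orth_sq_le hC h (hσP t' ht').1 ht
    rw [hd0 t' ht'] at h1
    refine le_of_abs_le (abs_le_of_sq_le_sq ?_ dist_nonneg)
    nlinarith [sq_nonneg t]
  have hupp : ∀ t' : ℝ, 0 < t' → dist (ρ t) (σ t') ≤ t' + t ^ 2 / (2 * t') := by
    intro t' ht'
    have h1 := busR_lower h.ray (σ t') ht0
    have h2 : busR ρ (σ t') ≤ 0 := (hσP t' ht'.le).2
    have h3 := h1.trans h2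
    rw [div_le_iff₀ (by positivity), zero_mul, dist_comm, dist_comm (σ t') (ρ 0),
      hd0 t' ht'.le] at h3
    refine le_of_abs_le (abs_le_of_sq_le_sq ?_ (by positivity))
    have h4 : (t' + t ^ 2 / (2 * t')) ^ 2 = t' ^ 2 + t ^ 2 + (t ^ 2 / (2 * t')) ^ 2 := by
      field_simp
      ring
    rw [h4]
    nlinarith [sq_nonneg (t ^ 2 / (2 * t'))]
  have hlim : Tendsto (fun t' : ℝ => dist (ρ t) (σ t') - t') atTop (𝓝 0) := by
    have h1 : Tendsto (fun t' : ℝ => t ^ 2 / (2 * t')) atTop (𝓝 0) :=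
      tendsto_const_nhds.div_atTop (tendsto_id.const_mul_atTop (by norm_num))
    refine tendsto_of_tendsto_of_tendsto_of_le_of_le' tendsto_const_nhds h1 ?_ ?_
    · filter_upwards [eventually_ge_atTop 0] with t' ht'
      linarith [hlow t' ht']
    · filter_upwards [eventually_gt_atTop 0] with t' ht'
      linarith [hupp t' ht']
  have hb1 : busR σ (ρ t) = 0 :=
    tendsto_nhds_unique (tendsto_busR hσ (ρ t)) hlim
  have hb0 : busR σ (ρ 0) = 0 := by
    have h1 := busR_apply hσ le_rfl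
    rw [← hσ0, h1, neg_zero]
  have h5 := busR_asym hσ (isRay_dir hφ hv1) has (ρ 0) (ρ t)
  rw [hb1, hb0] at h5
  linarith

/-- an unbounded closed convex set of a Euclidean space contains a ray -/
lemma exists_ray_of_unbounded [FiniteDimensional ℝ V] {K : Set V} (hcl : IsClosed K)
    (hcv : Convex ℝ K) {u₀ : V} (huK : u₀ ∈ K) (hunb : ¬ Bornology.IsBounded K) :
    ∃ v : V, ‖v‖ = 1 ∧ ∀ t : ℝ, 0 ≤ t → u₀ + t • v ∈ K := by
  have hfar : ∀ n : ℕ, ∃ u ∈ K, (n : ℝ) + 1 ≤ ‖u - u₀‖ := by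
    intro n
    by_contra hn
    push Not at hn
    apply hunb
    rw [isBounded_iff_subset_closedBall u₀]
    refine ⟨(n : ℝ) + 1, fun u hu => ?_⟩
    rw [mem_closedBall, dist_eq_norm]
    exact (hn u hu).le
  choose u huK' hun using hfar
  have hpos : ∀ n, 0 < ‖u n - u₀‖ := fun n =>
    lt_of_lt_of_le (by positivity) (hun n)
  have hw : ∀ n, (‖u n - u₀‖⁻¹) • (u n - u₀) ∈ sphere (0 : V) 1 := by
    intro n
    rw [mem_sphere_zero_iff_norm, norm_smul, norm_inv, norm_norm, inv_mul_cancel₀ (hpos n).ne']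
  obtain ⟨v, hv, θ, hθ, hlim⟩ := (isCompact_sphere (0 : V) 1).tendsto_subseq hw
  rw [mem_sphere_zero_iff_norm] at hv
  refine ⟨v, hv, fun t ht => ?_⟩
  have hlim2 : Tendsto (fun n => u₀ + t • ((‖u (θ n) - u₀‖⁻¹) • (u (θ n) - u₀))) atTop
      (𝓝 (u₀ + t • v)) := tendsto_const_nhds.add (hlim.const_smul t)
  refine hcl.mem_of_tendsto hlim2 ?_
  obtain ⟨N, hN⟩ := exists_nat_ge t
  filter_upwards [eventually_ge_atTop N] with n hn
  have h1 : t ≤ ‖u (θ n) - u₀‖ := by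
    have h2 := hun (θ n)
    have h3 : (n : ℝ) ≤ (θ n : ℝ) := by exact_mod_cast hθ.id_le n
    have h4 : (N : ℝ) ≤ (n : ℝ) := by exact_mod_cast hn
    linarith
  have hp := hpos (θ n)
  have hs1 : t * ‖u (θ n) - u₀‖⁻¹ ≤ 1 := by
    rw [← div_eq_mul_inv, div_le_one hp]
    exact h1
  have hs0 : 0 ≤ t * ‖u (θ n) - u₀‖⁻¹ := by positivity
  have h2 := hcv huK (huK' (θ n)) (sub_nonneg.2 hs1) hs0 (sub_add_cancel _ _)
  have h3 : u₀ + t • ((‖u (θ n) - u₀‖⁻¹) • (u (θ n) - u₀)) =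
      (1 - t * ‖u (θ n) - u₀‖⁻¹) • u₀ + (t * ‖u (θ n) - u₀‖⁻¹) • u (θ n) := by
    rw [smul_smul, smul_sub, sub_smul, one_smul]
    abel
  rw [h3]
  exact h2

lemma isClosed_Kd (hφ : Isometry φ) : IsClosed (Kd φ r C ρ) :=
  isClosed_le ((continuous_infDist_pt _).comp hφ.continuous) continuous_const

lemma convex_Kd {D : Set X} (hφ : Isometry φ) (hC : DSide D C) (h : Orth C ρ) :
    Convex ℝ (Kd φ r C ρ) := by
  have h1 := (convexOn_comp_flat hφ (gconvexFun_infDist (isClosed_Pset hC h)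
    ⟨_, foot_mem_Pset hC h⟩ (gconvex_Pset hC h))).convex_le r
  have h2 : Kd φ r C ρ = {x | x ∈ univ ∧ infDist (φ x) (Pset C ρ) ≤ r} := by
    ext x; simp [Kd]
  rw [h2]
  exact h1

lemma pf_mem_Kd [FiniteDimensional ℝ V] (hφ : Isometry φ) (hC : DSide (NF φ r) C) (h : Orth C ρ)
    {p : X} (hp : p ∈ Pset C ρ) : pf φ p ∈ Kd φ r C ρ := by
  show infDist (φ (pf φ p)) (Pset C ρ) ≤ r
  refine (infDist_le_dist_of_mem hp).trans ?_
  rw [dist_comm, dist_phi_pf hφ]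
  exact Pset_subset hC h hp

lemma Qd_of_ray {D : Set X} (hφ : Isometry φ) (hC : DSide D C) (h : Orth C ρ) {u₀ v : V}
    (hv : ‖v‖ = 1) (hray : ∀ t : ℝ, 0 ≤ t → u₀ + t • v ∈ Kd φ r C ρ) : v ∈ Qd φ C ρ := by
  obtain ⟨σ, h1, -, h3, h4⟩ := exists_ray_in (isClosed_Pset hC h) (gconvex_Pset hC h)
    (isRay_flat hφ u₀ hv) ⟨r, hray⟩ (foot_mem_Pset hC h)
  refine ⟨hv, σ, h1, h3.trans ⟨‖u₀‖, fun t _ => ?_⟩, h4⟩
  show dist (φ (u₀ + t • v)) (φ (t • v)) ≤ ‖u₀‖
  rw [hφ.dist_eq, dist_eq_norm, add_sub_cancel_right]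

lemma Qd_nonempty [FiniteDimensional ℝ V] (hφ : Isometry φ) (hC : DSide (NF φ r) C)
    (h : Orth C ρ) (hunb : ¬ Bornology.IsBounded (Pset C ρ)) : (Qd φ C ρ).Nonempty := by
  have h0 := pf_mem_Kd hφ hC h (foot_mem_Pset hC h)
  obtain ⟨v, hv, hray⟩ := exists_ray_of_unbounded (isClosed_Kd hφ) (convex_Kd hφ hC h) h0 (by
    intro hb
    apply hunb
    rw [isBounded_iff_subset_closedBall (pf φ (ρ 0))] at hb
    obtain ⟨R, hR⟩ := hb
    rw [isBounded_iff_subset_closedBall (φ (pf φ (ρ 0)))]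
    refine ⟨r + R, fun p hp => ?_⟩
    have h1 := hR (pf_mem_Kd hφ hC h hp)
    rw [mem_closedBall] at h1 ⊢
    have h2 := dist_triangle p (φ (pf φ p)) (φ (pf φ (ρ 0)))
    rw [hφ.dist_eq, dist_phi_pf hφ] at h2
    have h3 : infDist p (range φ) ≤ r := Pset_subset hC h hp
    linarith)
  exact ⟨v, Qd_of_ray hφ hC h hv hray⟩

end Pool.Agent.H75.CF
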