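import Pool.Agent.H75.CF.Beyond
import Pool.Agent.H75.CF.OrthQ

/-!
# Killing directions and regions
-/

open Set Filter Topology Metric
open Pool.Agent.H29 Pool.Agent.H29.RR Pool.Agent.H75.SF
open scoped Pointwise

set_option linter.unusedSectionVars false

namespace Pool.Agent.H75.CF

universe u

variable {X : Type u} [MetricSpace X] [IsCAT0 X] [ProperSpace X]
variable {G : Type*} [Group G] [MulAction G X] [IsIsometricSMul G X]
variable {V : Type*} [NormedAddCommGroup V] [InnerProductSpace ℝ V] [FiniteDimensional ℝ V]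
variable {φ : V → X} {r₀ : ℝ} {E : Bool → ℝ → Set X} {s s' s'' : St G}

lemma sep_bdd (hφ : Isometry φ) (hE : Ends φ r₀ E) {s₀ : St G} (hs : r₀ ≤ s.r)
    (h : Beyond φ E s₀ s) (h' : Beyond φ E s s') {w : V}
    (hb : Bdd (dir (fun u => s₀.g • φ u) w) (s'.g • range φ)) :
    Bdd (dir (fun u => s₀.g • φ u) w) (s.g • range φ) := by
  obtain ⟨M, hM⟩ := hb
  refine ⟨M + s.r, fun t ht => ?_⟩
  have h1 : dir (fun u => s₀.g • φ u) w t ∉ s.g • E s.j s.r := fun hcon =>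
    Set.disjoint_left.mp h.disj (smul_mem_smul_set (mem_range_self _)) hcon
  have h2 := sep_st hφ hE hs h1 h'.flat
  linarith [hM t ht]

theorem kill_dirs (hdim : 2 ≤ Module.finrank ℝ V) (hφ : Isometry φ) (hE : Ends φ r₀ E)
    {ρ : Bool → ℝ → X} {c T : ℝ} (hP : Poles' φ r₀ E ρ c T) {R₁ N ε : ℝ}
    (hK : Kills' G (range φ) (φ 0) R₁ N ε) (s₀ : St G) (hs₀ : r₀ ≤ s₀.r) :
    ∃ s : St G, r₀ ≤ s.r ∧ Beyond φ E s₀ s ∧
      ∀ w : V, ‖w‖ = 1 → ¬ Bdd (dir (fun u => s₀.g • φ u) w) (s.g • range φ) := by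
  classical
  have hr0 := hE.r0
  have hψ₀ := isometry_smul_flat hφ s₀.g
  have hN := hK.2.1
  have hε := hK.2.2.1
  have hη : 0 < ε / N := by positivity
  have key : ∀ S : Finset V, (∀ v ∈ S, ‖v‖ = 1) → ∃ s : St G, r₀ ≤ s.r ∧ Beyond φ E s₀ s ∧
      ∀ w : V, ‖w‖ = 1 → (∃ v ∈ S, dist v w ≤ ε / N) →
        ¬ Bdd (dir (fun u => s₀.g • φ u) w) (s.g • range φ) := by
    intro S
    induction S using Finset.induction_on with
    | empty =>
      intro _
      obtain ⟨t₀, ht₀⟩ := step hdim hφ hE hP hK s₀ hs₀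
      obtain ⟨ϱ, h1, h2, -⟩ := exists_ray_from (hP.ray s₀.j) (s₀.g • ρ s₀.j t₀)
      obtain ⟨s', h3, h4, -⟩ := ht₀ t₀ le_rfl ϱ h1 h2
      refine ⟨s', by rw [h3]; linarith, h4, ?_⟩
      rintro w - ⟨v, hv, -⟩
      exact absurd hv (Finset.notMem_empty v)
    | insert v S _ ih =>
      intro hS
      obtain ⟨s, hs, h1, h2⟩ := ih (fun u hu => hS u (Finset.mem_insert_of_mem hu))
      have hv1 := hS v (Finset.mem_insert_self v S)
      obtain ⟨t₀, ht₀⟩ := step hdim hφ hE hP hK s hs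
      obtain ⟨ϱ, k1, k2, k3⟩ := exists_ray_from (isRay_dir hψ₀ hv1) (s.g • ρ s.j t₀)
      obtain ⟨s', h3, h4, -, h5⟩ := ht₀ t₀ le_rfl ϱ k1 k2
      refine ⟨s', by rw [h3]; linarith, h1.trans hdim hφ hE hs₀ hs h4, ?_⟩
      rintro w hw ⟨u, hu, huw⟩ hB
      rcases Finset.mem_insert.mp hu with rfl | hu
      · obtain ⟨r', m1, m2, m3⟩ := exists_ray_from (isRay_dir hψ₀ hw) (s.g • ρ s.j t₀)
        refine h5 r' m1 (m2.trans k2.symm) ?_ (hB.asym m3)
        have h6 := dist_le_of_dir hψ₀ k1 m1 (m2.trans k2.symm) k3.symm m3.symm hN.le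
        refine h6.trans ?_
        rw [← dist_eq_norm]
        calc N * dist u w ≤ N * (ε / N) := mul_le_mul_of_nonneg_left huw hN.le
          _ = ε := by field_simp
      · exact h2 w hw ⟨u, hu, huw⟩ (sep_bdd hφ hE hs h1 h4 hB)
  obtain ⟨t, ht, hfin, hcov⟩ := (isCompact_sphere (0 : V) 1).finite_cover_balls hη
  obtain ⟨s, h0, h1, h2⟩ := key hfin.toFinset (by
    intro v hv
    have := ht (hfin.mem_toFinset.mp hv)
    simpa using this)
  refine ⟨s, h0, h1, fun w hw => h2 w hw ?_⟩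
  have hw' : w ∈ sphere (0 : V) 1 := by simpa using hw
  have := hcov hw'
  simp only [mem_iUnion, mem_ball] at this
  obtain ⟨v, hv, hvw⟩ := this
  refine ⟨v, hfin.mem_toFinset.mpr hv, ?_⟩
  rw [dist_comm]
  exact hvw.le

theorem kill_pt (hgc : GeodesicallyComplete X) (hdim : 2 ≤ Module.finrank ℝ V) (hφ : Isometry φ)
    (hE : Ends φ r₀ E) {ρ : Bool → ℝ → X} {c T : ℝ} (hP : Poles' φ r₀ E ρ c T) {R₁ N ε : ℝ}
    (hK : Kills' G (range φ) (φ 0) R₁ N ε) (s : St G) (hs : r₀ ≤ s.r) (p : X) (B : ℝ) :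
    ∃ s' : St G, s'.r = s.r + r₀ ∧ Beyond φ E s s' ∧ B < infDist p (s'.g • range φ) := by
  have hR₁ := hK.1
  have hN := hK.2.1
  have hε := hK.2.2.1
  obtain ⟨t₀, ht₀⟩ := step hdim hφ hE hP hK s hs
  set b := max B 0 with hb
  have hb0 : 0 ≤ b := le_max_right _ _
  set K := R₁ + b with hKd
  have hK0 : 0 < K := by linarith
  set D₀ := dist (s.g • ρ s.j 0) p with hD₀
  have hD₀0 : 0 ≤ D₀ := dist_nonneg
  set t := max t₀ (D₀ + N + 2 * N * K / ε + K + 1) with htd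
  have ht1 : t₀ ≤ t := le_max_left _ _
  have ht2 : D₀ + N + 2 * N * K / ε + K + 1 ≤ t := le_max_right _ _
  have hpos : 0 ≤ 2 * N * K / ε := by positivity
  have htp : 0 ≤ t := by linarith
  set y := s.g • ρ s.j t with hy
  set s₁ := dist y p with hs₁
  have hs₁t : t - D₀ ≤ s₁ := by
    have h1 := dist_triangle (s.g • ρ s.j 0) p y
    rw [hy, dist_smul, hP.ray s.j 0 t le_rfl htp, zero_sub, abs_neg, abs_of_nonneg htp] at h1
    rw [hs₁, dist_comm y p]
    linarith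
  have hs₁pos : 0 < s₁ := by linarith
  have hyp : y ≠ p := dist_pos.1 hs₁pos
  obtain ⟨ϱ, hϱ, hϱ0, hϱ1⟩ := hgc.line hyp
  have hϱr : IsRay ϱ := isRay_of_isometry hϱ
  obtain ⟨s', h1, h2, h3, h4⟩ := ht₀ t ht1 ϱ hϱr hϱ0
  refine ⟨s', h1, h2, ?_⟩
  by_contra hcon
  push Not at hcon
  have hψ' := isometry_smul_flat hφ s'.g
  rw [smul_range'] at hcon
  have hd := dist_phi_pf hψ' p
  set u := pf (fun u => s'.g • φ u) p with hu
  have hd' : dist p (s'.g • φ u) ≤ b := by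
    have : dist p ((fun u => s'.g • φ u) u) ≤ b := by
      rw [hd]
      exact hcon.trans (le_max_left _ _)
    exact this
  have hun : dist (s'.g • φ 0) (s'.g • φ u) = ‖u‖ := by
    rw [dist_smul, hφ.dist_eq, dist_zero_left]
  rw [hϱ0] at h3
  have hu1 : s₁ - K ≤ ‖u‖ := by
    rw [← hun]
    have h5 := dist_triangle4 y (s'.g • φ 0) (s'.g • φ u) p
    rw [dist_comm (s'.g • φ u) p] at h5
    linarith
  have hu2 : ‖u‖ ≤ s₁ + K := by
    rw [← hun]
    have h5 := dist_triangle4 (s'.g • φ 0) y p (s'.g • φ u)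
    rw [dist_comm (s'.g • φ 0) y] at h5
    linarith
  have hu0 : 0 < ‖u‖ := by linarith
  set v := ‖u‖⁻¹ • u with hv
  have hv1 : ‖v‖ = 1 := by
    rw [hv, norm_smul, norm_inv, norm_norm, inv_mul_cancel₀ hu0.ne']
  have hτ : dir (fun u => s'.g • φ u) v ‖u‖ = s'.g • φ u := by
    show s'.g • φ (‖u‖ • v) = s'.g • φ u
    rw [hv, smul_smul, mul_inv_cancel₀ hu0.ne', one_smul]
  obtain ⟨r', m1, m2, m3⟩ := exists_ray_from (isRay_dir hψ' hv1) y
  have h5 : dist (r' ‖u‖) (s'.g • φ u) ≤ R₁ := by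
    have h6 := Asym.dist_le m3.symm m1 (isRay_dir hψ' hv1) ‖u‖ hu0.le
    rw [hτ, m2] at h6
    have h7 : dir (fun u => s'.g • φ u) v 0 = s'.g • φ 0 := by simp [dir]
    rw [h7] at h6
    linarith
  have h6 : dist (r' s₁) p ≤ 2 * K := by
    have h7 := dist_triangle4 (r' s₁) (r' ‖u‖) (s'.g • φ u) p
    rw [m1 _ _ hs₁pos.le hu0.le, dist_comm (s'.g • φ u) p] at h7
    have h8 : |s₁ - ‖u‖| ≤ K := by
      rw [abs_le]
      constructor <;> linarith
    linarith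
  refine h4 r' m1 (m2.trans hϱ0.symm) ?_ ((Bdd.asym ⟨0, fun t ht => ?_⟩ m3))
  · have hl : N / s₁ ∈ Icc (0 : ℝ) 1 := ⟨by positivity, (div_le_one hs₁pos).2 (by linarith)⟩
    have e : N / s₁ * s₁ = N := div_mul_cancel₀ _ hs₁pos.ne'
    have e1 := ray_pt hϱr hs₁pos.le hl
    have e2 := ray_pt m1 hs₁pos.le hl
    rw [e] at e1 e2
    rw [e1, e2, hϱ0, m2, hϱ1]
    refine (dist_pt_pt_left_le _ _ _ hl).trans ?_
    rw [dist_comm p]
    have h7 : N / s₁ * dist (r' s₁) p ≤ N / s₁ * (2 * K) := mul_le_mul_of_nonneg_left h6 hl.1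
    refine h7.trans ?_
    rw [div_mul_eq_mul_div, div_le_iff₀ hs₁pos]
    have h8 : 2 * N * K / ε ≤ s₁ := by linarith
    rw [div_le_iff₀ hε] at h8
    linarith
  · refine (infDist_zero_of_mem ?_).le
    exact smul_mem_smul_set (mem_range_self _)

end Pool.Agent.H75.CF
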