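import Pool.Agent.H75.CF.OrthQ

/-!
# The limit principle (adapted from `SF/LP`)
-/

open Set Filter Topology Metric
open Pool.Agent.H29 Pool.Agent.H29.RR Pool.Agent.H75.SF
open scoped RealInnerProductSpace

set_option linter.unusedSectionVars false

namespace Pool.Agent.H75.CF

variable {X : Type*} [MetricSpace X] [IsCAT0 X] [ProperSpace X]
variable {V : Type*} [NormedAddCommGroup V] [InnerProductSpace ℝ V] {φ : V → X}
variable {D C : Set X} {ρ : ℝ → X}

theorem limit_principle' [FiniteDimensional ℝ V] (hφ : Isometry φ) (hC : DSide D C)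
    (h : Orth C ρ) {δ s : ℝ} (hδ : 0 < δ) (hs : 0 ≤ s) :
    ∃ H : ℝ, ∀ t, H ≤ t → ∀ (ρ' : ℝ → X) (τ : ℝ), 0 ≤ τ → Orth C ρ' →
      dist (ρ' τ) (ρ t) ≤ s →
      Qd φ C ρ' ⊆ thickening δ (Qd φ C ρ) ∧ ∃ p ∈ Pset C ρ, dist (ρ' 0) p < δ := by
  by_contra hcon
  push Not at hcon
  choose tt htt ρ' τ hτ hO hd hbad using fun n : ℕ => hcon (n : ℝ)
  have : ProperSpace V := FiniteDimensional.proper ℝ V
  set U : Ultrafilter ℕ := Filter.hyperfilter ℕ with hU
  have hUle : (U : Filter ℕ) ≤ atTop := by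
    rw [← Nat.cofinite_eq_atTop]
    exact Filter.hyperfilter_le_cofinite
  have hne : C.Nonempty := ⟨ρ 0, orth_mem hC h⟩
  have htt0 : ∀ n, 0 ≤ tt n := fun n => (Nat.cast_nonneg n).trans (htt n)
  -- F1
  have F1 : ∀ n, dist (ρ' n 0) (ρ 0) ≤ s := by
    intro n
    have h1 := proj_lipschitz hC.closed hne hC.convex (ρ' n (τ n)) (ρ (tt n))
    rw [orth_proj_eq hC (hO n) (hτ n), orth_proj_eq hC h (htt0 n)] at h1
    exact h1.trans (hd n)
  have F2 : ∀ n, |τ n - tt n| ≤ s := by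
    intro n
    have h1 := infDist_le_infDist_add_dist (s := C) (x := ρ' n (τ n)) (y := ρ (tt n))
    have h2 := infDist_le_infDist_add_dist (s := C) (x := ρ (tt n)) (y := ρ' n (τ n))
    rw [(hO n).infDist _ (hτ n), h.infDist _ (htt0 n)] at h1 h2
    rw [dist_comm] at h2
    have h3 := hd n
    rw [abs_le]
    constructor <;> linarith
  have F3 : ∀ n, dist (ρ' n (τ n)) (ρ (τ n)) ≤ 2 * s := by
    intro n
    have h1 := dist_triangle (ρ' n (τ n)) (ρ (tt n)) (ρ (τ n))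
    rw [h.ray _ _ (htt0 n) (hτ n), abs_sub_comm] at h1
    have h2 := F2 n
    have h3 := hd n
    linarith
  have F4 : ∀ n r, 0 ≤ r → r ≤ τ n → dist (ρ' n r) (ρ r) ≤ 2 * s := by
    intro n r hr hrn
    rcases eq_or_lt_of_le (hτ n) with h0 | h0
    · have : r = 0 := le_antisymm (by rw [h0]; exact hrn) hr
      rw [this]
      have := F1 n
      linarith
    · have hl : r / τ n ∈ Icc (0 : ℝ) 1 := ⟨div_nonneg hr h0.le, (div_le_one h0).2 hrn⟩
      have e : r / τ n * τ n = r := div_mul_cancel₀ _ h0.ne'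
      have h1 := ray_pt (hO n).ray h0.le hl
      have h2 := ray_pt h.ray h0.le hl
      rw [e] at h1 h2
      rw [h1, h2]
      refine (dist_pt_pt_le _ _ _ _ hl).trans ?_
      have h3 := mul_le_mul_of_nonneg_left (F1 n) (show 0 ≤ 1 - r / τ n by linarith [hl.2])
      have h4 := mul_le_mul_of_nonneg_left (F3 n) hl.1
      have h5 : 0 ≤ (1 - r / τ n) * s := mul_nonneg (by linarith [hl.2]) hs
      nlinarith
  have Flarge : ∀ r : ℝ, ∀ᶠ n : ℕ in (U : Filter ℕ), r ≤ τ n := by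
    intro r
    have h1 : ∀ᶠ n : ℕ in atTop, r + s ≤ (n : ℝ) :=
      tendsto_natCast_atTop_atTop.eventually_ge_atTop _
    apply hUle
    filter_upwards [h1] with n hn
    have h2 := htt n
    have h3 := (abs_le.1 (F2 n)).1
    linarith
  -- the limit ray
  obtain ⟨σ, hσ, hlim⟩ := exists_orth_limit (C := C) U (ρ := ρ') (o := ρ 0) (R := s)
    (Eventually.of_forall fun n => ⟨hO n, F1 n⟩)
  have hasym : Asym ρ σ := by
    refine ⟨2 * s, fun r hr => ?_⟩
    have h1 : Tendsto (fun n => dist (ρ r) (ρ' n r)) U (𝓝 (dist (ρ r) (σ r))) :=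
      tendsto_const_nhds.dist (hlim r hr)
    refine le_of_tendsto h1 ?_
    filter_upwards [Flarge r] with n hn
    rw [dist_comm]
    exact F4 n r hr hn
  have hbus : busR σ = busR ρ := busR_eq_of_asym' hC h hσ hasym
  have hK : Pset C σ = Pset C ρ := by
    unfold Pset
    rw [hbus]
  have hQ : Qd φ C σ = Qd φ C ρ := by
    unfold Qd
    rw [hK]
  -- the feet
  have hsecond : ∀ᶠ n in (U : Filter ℕ), ∃ p ∈ Pset C ρ, dist (ρ' n 0) p < δ := by
    have h1 := (Metric.tendsto_nhds.1 (hlim 0 le_rfl)) δ hδ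
    filter_upwards [h1] with n hn
    refine ⟨σ 0, ?_, hn⟩
    rw [← hK]
    exact foot_mem_Pset hC hσ
  have hfirst : ∀ᶠ n in (U : Filter ℕ), ¬ (Qd φ C (ρ' n) ⊆ thickening δ (Qd φ C ρ)) := by
    filter_upwards [hsecond] with n hn hsub
    obtain ⟨p, hp, hpd⟩ := hn
    exact absurd hpd (not_lt.2 (hbad n hsub p hp))
  have hv : ∀ n, ∃ v : V, ¬ (Qd φ C (ρ' n) ⊆ thickening δ (Qd φ C ρ)) →
      v ∈ Qd φ C (ρ' n) ∧ v ∉ thickening δ (Qd φ C ρ) := by
    intro n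
    by_cases hn : Qd φ C (ρ' n) ⊆ thickening δ (Qd φ C ρ)
    · exact ⟨0, fun h => absurd hn h⟩
    · obtain ⟨v, h1, h2⟩ := Set.not_subset.1 hn
      exact ⟨v, fun _ => ⟨h1, h2⟩⟩
  choose v hv using hv
  have hvQ : ∀ᶠ n in (U : Filter ℕ), v n ∈ Qd φ C (ρ' n) ∧ v n ∉ thickening δ (Qd φ C ρ) := by
    filter_upwards [hfirst] with n hn
    exact hv n hn
  obtain ⟨vL, -, hvL⟩ := (isCompact_iff_ultrafilter_le_nhds.1 (isCompact_closedBall (0 : V) 1))
    (U.map v) (by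
      rw [le_principal_iff]
      have : ∀ᶠ n in (U : Filter ℕ), v n ∈ closedBall (0 : V) 1 := by
        filter_upwards [hvQ] with n hn
        rw [mem_closedBall_zero_iff, hn.1.1]
      exact this)
  have hvL' : Tendsto v U (𝓝 vL) := hvL
  have hvLn : ‖vL‖ = 1 := by
    have h1 : Tendsto (fun n => ‖v n‖) U (𝓝 ‖vL‖) := hvL'.norm
    have h2 : Tendsto (fun n => ‖v n‖) U (𝓝 1) := by
      apply tendsto_const_nhds.congr'
      filter_upwards [hvQ] with n hn
      exact hn.1.1.symm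
    exact tendsto_nhds_unique h1 h2
  have hvLnot : vL ∈ (thickening δ (Qd φ C ρ))ᶜ := by
    refine isOpen_thickening.isClosed_compl.mem_of_tendsto hvL' ?_
    filter_upwards [hvQ] with n hn
    exact hn.2
  -- the rays from the feet
  have hη : ∀ n, ∃ η : ℝ → X, v n ∈ Qd φ C (ρ' n) → IsRay η ∧ η 0 = ρ' n 0 ∧
      Asym η (dir φ (v n)) ∧ ∀ t, 0 ≤ t → η t ∈ Pset C (ρ' n) := by
    intro n
    by_cases hn : v n ∈ Qd φ C (ρ' n)
    · obtain ⟨-, σ', hσ', hσa', hσP'⟩ := hn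
      obtain ⟨η, h1, h2, h3, h4⟩ := exists_ray_in (isClosed_Pset hC (hO n))
        (gconvex_Pset hC (hO n)) hσ'
        ⟨0, fun t ht => (infDist_zero_of_mem (hσP' t ht)).le⟩ (foot_mem_Pset hC (hO n))
      exact ⟨η, fun _ => ⟨h1, h2, h3.trans hσa', h4⟩⟩
    · exact ⟨fun _ => ρ 0, fun hcon => absurd hcon hn⟩
  choose η hη using hη
  have hηQ : ∀ᶠ n in (U : Filter ℕ), IsRay (η n) ∧ η n 0 = ρ' n 0 ∧
      Asym (η n) (dir φ (v n)) ∧ (∀ t, 0 ≤ t → η n t ∈ Pset C (ρ' n)) ∧ ‖v n‖ = 1 := by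
    filter_upwards [hvQ] with n hn
    obtain ⟨h1, h2, h3, h4⟩ := hη n hn.1
    exact ⟨h1, h2, h3, h4, hn.1.1⟩
  obtain ⟨κ, hκ, hκlim⟩ := exists_ray_limit_bdd U (ρ := η) (o := ρ 0) (R := s) (by
    filter_upwards [hηQ] with n hn
    refine ⟨hn.1, ?_⟩
    rw [hn.2.1]
    exact F1 n)
  have hκa : Asym κ (dir φ vL) := by
    refine ⟨s + dist (ρ 0) (φ 0), fun t ht => ?_⟩
    have h1 : Tendsto (fun n => dist (η n t) (dir φ (v n) t)) U
        (𝓝 (dist (κ t) (dir φ vL t))) := by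
      refine (hκlim t ht).dist ?_
      exact (hφ.continuous.tendsto _).comp (hvL'.const_smul t)
    refine le_of_tendsto h1 ?_
    filter_upwards [hηQ] with n hn
    have h2 := Asym.dist_le hn.2.2.1 hn.1 (isRay_dir hφ hn.2.2.2.2) t ht
    rw [hn.2.1] at h2
    have h3 := dist_triangle (ρ' n 0) (ρ 0) (φ 0)
    have h4 := F1 n
    have h5 : dir φ (v n) 0 = φ 0 := by simp [dir]
    rw [h5] at h2
    linarith
  have hκC : ∀ t, 0 ≤ t → κ t ∈ C := by
    intro t ht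
    refine hC.closed.mem_of_tendsto (hκlim t ht) ?_
    filter_upwards [hηQ] with n hn
    exact (hn.2.2.2.1 t ht).1
  have hsq : ∀ t r : ℝ, 0 ≤ t → 0 < r → dist (κ t) (σ r) ^ 2 ≤ r ^ 2 + t ^ 2 := by
    intro t r ht hr
    have h1 : Tendsto (fun n => dist (η n t) (ρ' n r) ^ 2) U (𝓝 (dist (κ t) (σ r) ^ 2)) :=
      Tendsto.pow (Tendsto.dist (hκlim t ht) (hlim r hr.le)) 2
    refine le_of_tendsto h1 ?_
    filter_upwards [hηQ] with n hn
    have h3 : busR (ρ' n) (η n t) ≤ 0 := (hn.2.2.2.1 t ht).2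
    have h4 := (busR_lower (hO n).ray (η n t) hr).trans h3
    rw [div_le_iff₀ (by linarith), zero_mul] at h4
    have h5 : dist (η n t) (ρ' n 0) = t := by
      rw [← hn.2.1, hn.1 t 0 ht le_rfl, sub_zero, abs_of_nonneg ht]
    rw [h5] at h4
    linarith
  have hray : ∀ t : ℝ, 0 ≤ t → κ t ∈ Pset C σ := by
    intro t ht
    refine ⟨hκC t ht, ?_⟩
    by_contra hpos
    push Not at hpos
    set b := busR σ (κ t) with hb
    have hr : 0 < (t ^ 2 + 1) / b := by positivity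
    have h1 := hsq t _ ht hr
    have h2 := busR_le hσ.ray (κ t) hr.le
    rw [← hb] at h2
    have h3 : (b + (t ^ 2 + 1) / b) ^ 2 ≤ dist (κ t) (σ ((t ^ 2 + 1) / b)) ^ 2 := by
      apply pow_le_pow_left₀ (by positivity)
      linarith
    have h4 : b * ((t ^ 2 + 1) / b) = t ^ 2 + 1 := by
      field_simp
    nlinarith [sq_nonneg b, sq_nonneg t]
  have hfin : vL ∈ Qd φ C ρ := by
    rw [← hQ]
    exact ⟨hvLn, κ, hκ, hκa, hray⟩
  exact hvLnot (self_subset_thickening hδ _ hfin)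

end Pool.Agent.H75.CF
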