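import Pool.Agent.H75.CF.KillDirs

/-!
# Killing a region; the full step; a translation of half-spaces
-/

open Set Filter Topology Metric
open Pool.Agent.H29 Pool.Agent.H29.RR Pool.Agent.H75.SF
open scoped Pointwise

set_option linter.unusedSectionVars false

namespace Pool.Agent.H75.CF

universe u

variable {X : Type u} [MetricSpace X] [IsCAT0 X] [ProperSpace X]
variable {G : Type*} [Group G] [MulAction G X] [IsIsometricSMul G X]
variable {V : Type*} [NormedAddCommGroup V] [InnerProductSpace ℝ V] [FiniteDimensional ℝ V]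
variable {φ : V → X} {r₀ : ℝ} {E : Bool → ℝ → Set X}

lemma isClosed_smul_range (hφ : Isometry φ) (g : G) : IsClosed (g • range φ) := by
  rw [smul_range']
  exact isClosed_range_flat (isometry_smul_flat hφ g)

lemma gconvex_smul_range (hφ : Isometry φ) (g : G) : GConvex (g • range φ) := by
  rw [smul_range']
  exact gconvex_range (isometry_smul_flat hφ g)

/-- the part of a flat close to another flat is bounded if there is no common ray -/
lemma isCompact_near (hφ : Isometry φ) (g g' : G)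
    (h : ∀ w : V, ‖w‖ = 1 → ¬ Bdd (dir (fun u => g • φ u) w) (g' • range φ)) (L : ℝ) :
    IsCompact {u : V | infDist (g • φ u) (g' • range φ) ≤ L} := by
  have : ProperSpace V := FiniteDimensional.proper ℝ V
  have hψ := isometry_smul_flat hφ g
  set Z := {u : V | infDist (g • φ u) (g' • range φ) ≤ L} with hZ
  have hcl : IsClosed Z := isClosed_le ((continuous_infDist_pt _).comp hψ.continuous)
    continuous_const
  have hcv : Convex ℝ Z := by
    have h1 := (convexOn_comp_flat hψ (gconvexFun_infDist (isClosed_smul_range hφ g')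
      (range_nonempty φ).smul_set (gconvex_smul_range hφ g'))).convex_le L
    have h2 : Z = {x | x ∈ univ ∧ infDist (g • φ x) (g' • range φ) ≤ L} := by
      ext x; simp [hZ]
    rw [h2]
    exact h1
  refine Metric.isCompact_of_isClosed_isBounded hcl ?_
  rcases Z.eq_empty_or_nonempty with he | ⟨u₀, hu₀⟩
  · rw [he]
    exact Bornology.isBounded_empty
  by_contra hunb
  obtain ⟨v, hv, hray⟩ := exists_ray_of_unbounded hcl hcv hu₀ hunb
  apply h v hv
  have h1 : Bdd (fun t : ℝ => g • φ (u₀ + t • v)) (g' • range φ) := ⟨L, fun t ht => hray t ht⟩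
  refine h1.asym ⟨‖u₀‖, fun t _ => ?_⟩
  show dist (g • φ (u₀ + t • v)) (g • φ (t • v)) ≤ ‖u₀‖
  rw [dist_smul, hφ.dist_eq, dist_eq_norm, add_sub_cancel_right]

theorem far_state (hgc : GeodesicallyComplete X) (hdim : 2 ≤ Module.finrank ℝ V)
    (hφ : Isometry φ) (hE : Ends φ r₀ E) {ρ : Bool → ℝ → X} {c T : ℝ}
    (hP : Poles' φ r₀ E ρ c T) {R₁ N ε : ℝ} (hK : Kills' G (range φ) (φ 0) R₁ N ε)
    (s₀ : St G) (hs₀ : r₀ ≤ s₀.r) (L : ℝ) :
    ∃ s : St G, r₀ ≤ s.r ∧ Beyond φ E s₀ s ∧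
      (∀ w : V, ‖w‖ = 1 → ¬ Bdd (dir (fun u => s₀.g • φ u) w) (s.g • range φ)) ∧
      ∀ u : V, L < infDist (s₀.g • φ u) (s.g • range φ) := by
  classical
  have hr0 := hE.r0
  obtain ⟨s₁, hs₁, hB₁, hw₁⟩ := kill_dirs hdim hφ hE hP hK s₀ hs₀
  have hcomp := isCompact_near hφ s₀.g s₁.g hw₁ (L + s₁.r)
  set Z := {u : V | infDist (s₀.g • φ u) (s₁.g • range φ) ≤ L + s₁.r} with hZ
  have key : ∀ S : Finset V, ∃ s' : St G, r₀ ≤ s'.r ∧ (s' = s₁ ∨ Beyond φ E s₁ s') ∧
      ∀ u ∈ S, ∀ s'' : St G, (s'' = s' ∨ Beyond φ E s' s'') →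
        L + 1 < infDist (s₀.g • φ u) (s''.g • range φ) := by
    intro S
    induction S using Finset.induction_on with
    | empty =>
      exact ⟨s₁, hs₁, Or.inl rfl, fun u hu => absurd hu (Finset.notMem_empty u)⟩
    | insert v S _ ih =>
      obtain ⟨s', h1, h2, h3⟩ := ih
      obtain ⟨s'', k1, k2, k3⟩ := kill_pt hgc hdim hφ hE hP hK s' h1 (s₀.g • φ v)
        (L + 1 + (s'.r + r₀))
      have hs'' : r₀ ≤ s''.r := by rw [k1]; linarith
      have hB1 : Beyond φ E s₁ s'' := by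
        rcases h2 with rfl | h2
        · exact k2
        · exact h2.trans hdim hφ hE hs₁ h1 k2
      have hB0 : Beyond φ E s₀ s'' := hB₁.trans hdim hφ hE hs₀ hs₁ hB1
      refine ⟨s'', hs'', Or.inr hB1, fun u hu s₃ hs₃ => ?_⟩
      rcases Finset.mem_insert.mp hu with rfl | hu
      · rcases hs₃ with rfl | hs₃
        · linarith
        · have h4 : s₀.g • φ u ∉ s''.g • E s''.j s''.r := fun hcon =>
            Set.disjoint_left.mp hB0.disj (smul_mem_smul_set (mem_range_self _)) hcon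
          have h5 := sep_st hφ hE hs'' h4 hs₃.flat
          rw [k1] at h5
          linarith
      · refine h3 u hu s₃ (Or.inr ?_)
        rcases hs₃ with rfl | hs₃
        · exact k2
        · exact k2.trans hdim hφ hE h1 hs'' hs₃
  obtain ⟨t, ht, hfin, hcov⟩ := hcomp.finite_cover_balls (one_pos)
  obtain ⟨s, h1, h2, h3⟩ := key hfin.toFinset
  have hB0 : Beyond φ E s₀ s := by
    rcases h2 with rfl | h2
    · exact hB₁
    · exact hB₁.trans hdim hφ hE hs₀ hs₁ h2
  refine ⟨s, h1, hB0, ?_, fun u => ?_⟩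
  · intro w hw hcon
    rcases h2 with rfl | h2
    · exact hw₁ w hw hcon
    · exact hw₁ w hw (sep_bdd hφ hE hs₁ hB₁ h2 hcon)
  · by_cases hu : u ∈ Z
    · have := hcov hu
      simp only [mem_iUnion, mem_ball] at this
      obtain ⟨v, hv, huv⟩ := this
      have h4 := h3 v (hfin.mem_toFinset.mpr hv) s (Or.inl rfl)
      have h5 := infDist_le_infDist_add_dist (s := s.g • range φ) (x := s₀.g • φ v)
        (y := s₀.g • φ u)
      rw [dist_smul, hφ.dist_eq, dist_comm v u] at h5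
      linarith
    · have h4 : L + s₁.r < infDist (s₀.g • φ u) (s₁.g • range φ) := not_le.mp hu
      rcases h2 with rfl | h2
      · linarith
      · have h5 : s₀.g • φ u ∉ s₁.g • E s₁.j s₁.r := fun hcon =>
          Set.disjoint_left.mp hB₁.disj (smul_mem_smul_set (mem_range_self _)) hcon
        have h6 := sep_st hφ hE hs₁ h5 h2.flat
        linarith

theorem full_step (hgc : GeodesicallyComplete X) (hdim : 2 ≤ Module.finrank ℝ V)
    (hφ : Isometry φ) (hE : Ends φ r₀ E) {ρ : Bool → ℝ → X} {c T : ℝ}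
    (hP : Poles' φ r₀ E ρ c T) {R₁ N ε : ℝ} (hK : Kills' G (range φ) (φ 0) R₁ N ε)
    (g₀ : G) (j₀ : Bool) :
    ∃ (g₁ : G) (j₁ : Bool), g₁ • E j₁ r₀ ⊆ g₀ • E j₀ r₀ ∧ g₁ • NF φ r₀ ⊆ g₀ • E j₀ r₀ ∧
      ∀ w : V, ‖w‖ = 1 → ¬ Bdd (fun s : ℝ => g₀ • φ (s • w)) (g₁ • range φ) := by
  have hr0 := hE.r0
  obtain ⟨⟨g₁, j, r⟩, hr, hB, hw, hL⟩ := far_state hgc hdim hφ hE hP hK ⟨g₀, j₀, r₀⟩ le_rfl
    (2 * r₀ + 1)
  have hBf : g₁ • range φ ⊆ g₀ • NF φ r₀ ∪ g₀ • E j₀ r₀ := hB.flat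
  change ∀ w : V, ‖w‖ = 1 → ¬ Bdd (dir (fun u => g₀ • φ u) w) (g₁ • range φ) at hw
  change ∀ u : V, 2 * r₀ + 1 < infDist (g₀ • φ u) (g₁ • range φ) at hL
  have hψ₀ := isometry_smul_flat hφ g₀
  have hψ₁ := isometry_smul_flat hφ g₁
  -- (a)
  have ha : Disjoint (g₁ • NF φ r₀) (g₀ • NF φ r₀) := by
    rw [Set.disjoint_left]
    intro z hz1 hz2
    rw [smul_NF] at hz1 hz2
    have h1 := dist_phi_pf hψ₀ z
    have h2 := hL (pf (fun u => g₀ • φ u) z)
    have h3 := infDist_le_infDist_add_dist (s := g₁ • range φ)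
      (x := g₀ • φ (pf (fun u => g₀ • φ u) z)) (y := z)
    have h4 : infDist z (g₁ • range φ) ≤ r₀ := by
      rw [smul_range']
      exact hz1
    have h5 : dist (g₀ • φ (pf (fun u => g₀ • φ u) z)) z ≤ r₀ := by
      rw [dist_comm]
      exact h1.le.trans hz2
    linarith
  obtain ⟨z₀, hz₀, hside₀⟩ := hE.side' g₀ j₀ (le_refl r₀)
  -- (b)
  have hb : g₁ • NF φ r₀ ⊆ g₀ • E j₀ r₀ := by
    intro z hz
    have hz' := hz
    rw [smul_NF] at hz'
    set p := g₁ • φ (pf (fun u => g₁ • φ u) z) with hp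
    have hpF : p ∈ g₁ • range φ := smul_mem_smul_set (mem_range_self _)
    have hpN : p ∈ g₁ • NF φ r₀ := smul_set_mono (range_subset_NF hr0) hpF
    have hpE : p ∈ g₀ • E j₀ r₀ := by
      rcases hBf hpF with h1 | h1
      · exact absurd h1 (Set.disjoint_left.mp ha hpN)
      · exact h1
    rw [hside₀] at hpE ⊢
    refine side_of_seg hpE fun t ht hmem => ?_
    exact Set.disjoint_left.mp ha (gconvex_smul_NF hφ g₁ r₀ p hpN z hz t ht) hmem
  -- (c)
  obtain ⟨j₁, hj₁⟩ : ∃ j₁, Disjoint (g₁ • E j₁ r₀) (g₀ • NF φ r₀) := by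
    by_contra hcon
    push Not at hcon
    obtain ⟨a, ha', ha0⟩ := Set.not_disjoint_iff.mp (hcon false)
    obtain ⟨b, hb', hb0⟩ := Set.not_disjoint_iff.mp (hcon true)
    obtain ⟨z, -, hs⟩ := hE.side' g₁ false (le_refl r₀)
    have h1 : b ∈ g₁ • E false r₀ := by
      rw [hs] at ha' ⊢
      refine side_of_seg ha' fun t ht hmem => ?_
      exact Set.disjoint_left.mp ha hmem (gconvex_smul_NF hφ g₀ r₀ a ha0 b hb0 t ht)
    exact Set.disjoint_left.mp (Set.disjoint_smul_set.2 hE.disj) h1 hb'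
  refine ⟨g₁, j₁, ?_, hb, hw⟩
  -- (d)
  obtain ⟨z₁, hz₁, hside₁⟩ := hE.side' g₁ j₁ (le_refl r₀)
  rw [hside₁] at hj₁ ⊢
  rw [hside₀] at hb ⊢
  exact side_subset_of_disjoint (gconvex_smul_NF hφ g₁ r₀) ((NF_nonempty hr0).smul_set) hb hj₁

theorem exists_translation' (hgc : GeodesicallyComplete X) (hdim : 2 ≤ Module.finrank ℝ V)
    (hφ : Isometry φ) (hE : Ends φ r₀ E) {ρ : Bool → ℝ → X} {c T : ℝ}
    (hP : Poles' φ r₀ E ρ c T) {R₁ N ε : ℝ} (hK : Kills' G (range φ) (φ 0) R₁ N ε) :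
    ∃ (a b : G) (j : Bool), b • E j r₀ ⊆ a • E j r₀ ∧ b • NF φ r₀ ⊆ a • E j r₀ ∧
      ∀ r : ℝ → X, IsRay r → Bdd r (a • range φ) → ¬ Bdd r (b • range φ) := by
  have hr0 := hE.r0
  obtain ⟨g₁, j₁, h1, h1', h1''⟩ := full_step (G := G) hgc hdim hφ hE hP hK 1 false
  obtain ⟨g₂, j₂, h2, h2', h2''⟩ := full_step (G := G) hgc hdim hφ hE hP hK g₁ j₁
  by_cases e1 : j₁ = false
  · subst e1
    exact ⟨1, g₁, false, h1, h1', fun r hr hr1 => no_common_ray hφ h1'' hr hr1⟩
  · by_cases e2 : j₂ = j₁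
    · subst e2
      exact ⟨g₁, g₂, j₂, h2, h2', fun r hr hr1 => no_common_ray hφ h2'' hr hr1⟩
    · have e3 : j₂ = false := by
        cases j₂ <;> cases j₁ <;> simp_all
      subst e3
      refine ⟨1, g₂, false, h2.trans h1, h2'.trans h1, fun r hr hr1 hr2 => ?_⟩
      have hψ : Isometry (fun u => (1 : G) • φ u) := (isometry_smul X (1 : G)).comp hφ
      rw [smul_range'] at hr1
      obtain ⟨w, hw, hw2⟩ := exists_dir_of_Bdd hψ hr hr1
      obtain ⟨M, hM⟩ := hr2.asym hw2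
      refine h1'' w hw ⟨M + r₀, fun t ht => ?_⟩
      have h3 : (1 : G) • φ (t • w) ∉ g₁ • E j₁ r₀ := by
        intro hcon
        have h4 := h1 hcon
        have h5 : (1 : G) • φ (t • w) ∈ (1 : G) • NF φ r₀ :=
          smul_mem_smul_set (range_subset_NF hr0 (mem_range_self _))
        exact Set.disjoint_left.mp (hE.disj' (1 : G) false le_rfl) h4 h5
      have h6 : g₂ • range φ ⊆ g₁ • NF φ r₀ ∪ g₁ • E j₁ r₀ :=
        ((smul_set_mono (range_subset_NF hr0)).trans h2').trans subset_union_right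
      have h7 := sep_st (s := ⟨g₁, j₁, r₀⟩) hφ hE le_rfl h3 h6
      have h8 := hM t ht
      have h9 : dir (fun u => (1 : G) • φ u) w t = (1 : G) • φ (t • w) := rfl
      rw [h9] at h8
      exact h7.trans (by linarith)

end Pool.Agent.H75.CF
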