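import Pool.Agent.H75.CF.Half
import Pool.Agent.H75.CF.Region
import Pool.Agent.H75.CF.EndsEx

/-!
# Rank rigidity for spaces with a coarsely separating flat (assembly)
-/

open Set Filter Topology Metric
open Pool.Agent.H29 Pool.Agent.H29.RR Pool.Agent.H75.SF
open scoped Pointwise

set_option linter.unusedSectionVars false

namespace Pool.Agent.H75.CF

universe u

variable {X : Type u} [MetricSpace X] [IsCAT0 X] [ProperSpace X]
variable {G : Type*} [Group G] [MulAction G X] [IsIsometricSMul G X]
variable {V : Type*} [NormedAddCommGroup V] [InnerProductSpace ℝ V] [FiniteDimensional ℝ V]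
variable {φ : V → X} {r₀ : ℝ} {E : Bool → ℝ → Set X}

theorem rankOne_of_ends [ProperlyDiscontinuousSMul G X] (hcoc : Cocompact G X)
    (hgc : GeodesicallyComplete X) (hirr : MetricIrreducible X)
    (hdim : 2 ≤ Module.finrank ℝ V) (hφ : Isometry φ) (hE : Ends φ r₀ E)
    {ρ : Bool → ℝ → X} {c T : ℝ} (hP : Poles' φ r₀ E ρ c T) : ∃ g : G, IsRankOne (X := X) g := by
  have hr0 := hE.r0
  obtain ⟨R₁, N, ε, hK⟩ := kill' (G := G) hcoc (isClosed_range_flat hφ) (gconvex_range hφ)
    (mem_range_self (f := φ) 0)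
    (fun r hr => omega' hcoc hgc hirr hdim hφ hP.cpos (hP.far false) hr)
  obtain ⟨a, b, j, h1, h2, h3⟩ := exists_translation' hgc hdim hφ hE hP hK
  have e1 : ∀ S : Set X, (b * a⁻¹) • (a • S) = b • S := fun S => by
    rw [smul_smul, inv_mul_cancel_right]
  refine ⟨b * a⁻¹, Trn.rankOne (D := a • NF φ r₀) (A := a • E j r₀) hcoc
    ⟨isClosed_smul_NF a r₀, gconvex_smul_NF hφ a r₀, (NF_nonempty hr0).smul_set,
      hE.side' a j le_rfl, ?_, ?_, ?_, ?_, ?_⟩⟩
  · obtain ⟨z, hz, hs⟩ := hE.side' a (!j) (le_refl r₀)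
    have hz' : z ∈ a • E (!j) r₀ := by
      rw [hs]
      exact mem_side_self hz
    have hdis : Disjoint (a • E (!j) r₀) (a • E j r₀) := by
      rw [Set.disjoint_smul_set]
      cases j
      · exact hE.disj.symm
      · exact hE.disj
    refine ⟨z, ?_⟩
    rintro (h4 | h4)
    · exact hz h4
    · exact Set.disjoint_left.mp hdis hz' h4
  · rw [e1]
    exact h1
  · rw [e1]
    exact h2.trans subset_union_right
  · intro r hr hr1 hr2
    rw [e1] at hr2
    rw [smul_NF] at hr1 hr2
    have k1 := bdd_of_bdd_NF hr0 hr1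
    have k2 := bdd_of_bdd_NF hr0 hr2
    rw [← smul_range'] at k1 k2
    exact h3 r hr k1 k2
  · have : Nontrivial V := Module.nontrivial_of_finrank_pos (R := ℝ) (by omega)
    obtain ⟨v, hv⟩ := exists_norm_eq V (zero_le_one (α := ℝ))
    refine ⟨fun t => a • φ (t • v), (isRay_dir hφ hv).smul a, 0, fun t _ => ?_⟩
    rw [infDist_zero_of_mem]
    exact smul_mem_smul_set (range_subset_NF hr0 (mem_range_self _))

/-- **Rank rigidity for spaces with a coarsely separating flat.** -/
theorem rankOne_of_coarsely_separating_flat [ProperlyDiscontinuousSMul G X]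
    (hcoc : Cocompact G X) (hgc : GeodesicallyComplete X) (hirr : MetricIrreducible X)
    (hdim : 2 ≤ Module.finrank ℝ V) (hφ : Isometry φ) {r : ℝ} {x y : X}
    (hx : r < infDist x (range φ)) (hy : r < infDist y (range φ))
    (hxy : ¬ JoinedIn {z | r < infDist z (range φ)} x y) :
    ∃ g : G, IsRankOne (X := X) g := by
  have hcompl : ∀ r : ℝ, (NF φ r)ᶜ = {z | r < infDist z (range φ)} := fun r => by
    ext z
    simp [NF]
  rcases lt_or_ge r 0 with hr | hr
  · exfalso
    apply hxy
    apply joinedIn_of_pt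
    intro t _
    exact hr.trans_le infDist_nonneg
  obtain ⟨E, ρ, c, T, hE, hP⟩ := exists_ends (G := G) hcoc hgc hirr hdim hφ hr
    (x := fun j => if j then y else x) (by
      intro j
      cases j
      · exact not_le.mpr hx
      · exact not_le.mpr hy) (by
      rw [hcompl]
      exact hxy)
  exact rankOne_of_ends hcoc hgc hirr hdim hφ hE hP

end Pool.Agent.H75.CF
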