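import Pool.Agent.H75.SF.Omega2
import Pool.Agent.H75.CF.Defs
import Pool.Agent.H75.SF.Omega

/-!
# No ray is at bounded distance from all translates of the flat (adapted from `SF/Omega`)
-/

open Set Filter Topology Metric
open Pool.Agent.H29 Pool.Agent.H29.RR Pool.Agent.H75.SF
open scoped Pointwise

set_option linter.unusedSectionVars false

namespace Pool.Agent.H75.CF

universe u

variable {X : Type u} [MetricSpace X] [IsCAT0 X] [ProperSpace X]
variable {G : Type*} [Group G] [MulAction G X] [IsIsometricSMul G X]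
variable {V : Type*} [NormedAddCommGroup V] [InnerProductSpace ℝ V] [FiniteDimensional ℝ V]
variable {φ : V → X}

/-- lines parallel to lines of the flat are far from `ρ t` -/
def Far (φ : V → X) (ρ : ℝ → X) (c T : ℝ) : Prop :=
  ∀ t, T ≤ t → ∀ v : V, ‖v‖ = 1 → ∀ ℓ : ℝ → X, Isometry ℓ →
      Asym ℓ (dir φ v) → Asym (fun t => ℓ (-t)) (dir φ (-v)) → ∀ s, c * t ≤ dist (ρ t) (ℓ s)

/-- opposite unit directions of one flat are asymptotic to opposite directions of another -/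
lemma opposite_of_asym {ψ : V → X} (hφ : Isometry φ) (hψ : Isometry ψ) {v w w' : V}
    (hv : ‖v‖ = 1) (hw : ‖w‖ = 1) (hw' : ‖w'‖ = 1) (h1 : Asym (dir φ v) (dir ψ w))
    (h2 : Asym (dir φ (-v)) (dir ψ w')) : w' = -w := by
  obtain ⟨M, hM⟩ := h1
  obtain ⟨M', hM'⟩ := h2
  apply om1_opposite hw hw'
  by_contra hcon
  push Not at hcon
  have h3 : ∀ t : ℝ, 0 ≤ t → (2 - ‖w - w'‖) * t ≤ M + M' := by
    intro t ht
    have e1 : dist (φ (t • v)) (φ (t • (-v))) = 2 * t := by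
      rw [hφ.dist_eq, dist_eq_norm, ← smul_sub, norm_smul, sub_neg_eq_add, ← two_smul ℝ v,
        norm_smul, hv, Real.norm_of_nonneg ht]
      norm_num
      ring
    have e2 : dist (ψ (t • w)) (ψ (t • w')) = t * ‖w - w'‖ := by
      rw [hψ.dist_eq, dist_eq_norm, ← smul_sub, norm_smul, Real.norm_of_nonneg ht]
    have e3 := hM t ht
    have e4 := hM' t ht
    simp only [dir] at e3 e4
    have e5 := dist_triangle4 (φ (t • v)) (ψ (t • w)) (ψ (t • w')) (φ (t • (-v)))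
    rw [dist_comm (ψ (t • w')) (φ (t • (-v)))] at e5
    nlinarith
  have h4 : 0 < 2 - ‖w - w'‖ := by linarith
  have h5 := h3 ((|M + M'| + 1) / (2 - ‖w - w'‖)) (by positivity)
  rw [mul_div_cancel₀ _ h4.ne'] at h5
  have := le_abs_self (M + M')
  linarith

lemma om1_unit' (hcoc : Cocompact G X) (hφ : Isometry φ) {ρ : ℝ → X} {c T : ℝ} (hc : 0 < c)
    (hfar : Far φ ρ c T) {v : V} (hv : ‖v‖ = 1)
    (h1 : ∀ g : G, Bdd (dir φ v) (g • range φ))
    (h2 : ∀ g : G, Bdd (dir φ (-v)) (g • range φ)) : False := by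
  have key : ∀ (g : G) (t : ℝ), T ≤ t → c * t ≤ dist (ρ t) (g • φ 0) := by
    intro g t ht
    set ψ : V → X := fun u => g • φ u with hψ
    have hψi : Isometry ψ := (isometry_smul X g).comp hφ
    have hrange : g • range φ = range ψ := by
      rw [hψ, ← Set.image_smul, ← Set.range_comp]
      rfl
    have hv' : ‖-v‖ = 1 := by rw [norm_neg]; exact hv
    obtain ⟨w, hw, hM⟩ := exists_dir_of_Bdd hψi (isRay_dir hφ hv) (hrange ▸ h1 g)
    obtain ⟨w', hw', hM'⟩ := exists_dir_of_Bdd hψi (isRay_dir hφ hv') (hrange ▸ h2 g)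
    have hww := opposite_of_asym hφ hψi hv hw hw' hM hM'
    subst hww
    have hℓ : Isometry (fun t : ℝ => ψ (t • w)) := by
      refine hψi.comp ?_
      refine Isometry.of_dist_eq fun s t => ?_
      rw [dist_eq_norm, ← sub_smul, norm_smul, hw, mul_one, Real.dist_eq, Real.norm_eq_abs]
    have ha1 : Asym (fun t : ℝ => ψ (t • w)) (dir φ v) := hM.symm
    have ha2 : Asym (fun t : ℝ => (fun t : ℝ => ψ (t • w)) (-t)) (dir φ (-v)) := by
      obtain ⟨M', hM'⟩ := hM'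
      refine ⟨M', fun t ht => ?_⟩
      rw [dist_comm]
      have := hM' t ht
      simp only [dir, smul_neg] at this ⊢
      rw [neg_smul]
      exact this
    have h3 := hfar t ht v hv _ hℓ ha1 ha2 0
    simpa [hψ] using h3
  obtain ⟨R, hR⟩ := hcoc.orbit (φ 0)
  obtain ⟨g, hg⟩ := hR (ρ (max T (R / c + 1)))
  have h3 := key g (max T (R / c + 1)) (le_max_left _ _)
  have h4 : c * (R / c + 1) ≤ c * max T (R / c + 1) :=
    mul_le_mul_of_nonneg_left (le_max_right _ _) hc.le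
  have h5 : c * (R / c + 1) = R + c := by
    field_simp
  linarith

lemma omega_pointed' (hcoc : Cocompact G X) (hφ : Isometry φ) {ρ : ℝ → X} {c T : ℝ} (hc : 0 < c)
    (hfar : Far φ ρ c T) {v : V}
    (h1 : ∀ g : G, Bdd (dir φ v) (g • range φ))
    (h2 : ∀ g : G, Bdd (dir φ (-v)) (g • range φ)) : v = 0 := by
  by_contra hv
  have hn : 0 < ‖v‖ := norm_pos_iff.2 hv
  refine om1_unit' (v := ‖v‖⁻¹ • v) hcoc hφ hc hfar ?_ (fun g => ?_) (fun g => ?_)
  · rw [norm_smul, norm_inv, norm_norm, inv_mul_cancel₀ hn.ne']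
  · exact Bdd_dir_smul (h1 g) (inv_nonneg.2 hn.le)
  · rw [← smul_neg]
    exact Bdd_dir_smul (h2 g) (inv_nonneg.2 hn.le)

theorem omega' [ProperlyDiscontinuousSMul G X] (hcoc : Cocompact G X)
    (hgc : GeodesicallyComplete X) (hirr : MetricIrreducible X)
    (hdim : 2 ≤ Module.finrank ℝ V) (hφ : Isometry φ) {ρ : ℝ → X} {c T : ℝ} (hc : 0 < c)
    (hfar : Far φ ρ c T)
    {r : ℝ → X} (hr : IsRay r) : ∃ g : G, ¬ Bdd r (g • range φ) := by
  by_contra hcon
  push Not at hcon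
  obtain ⟨v, hv, hfix⟩ := omega_fixed (G := G) hφ
    (fun v h1 h2 => omega_pointed' hcoc hφ hc hfar h1 h2) hr hcon
  have hray : IsRay (dir φ v) := isRay_dir hφ hv
  refine not_line_of_flat hdim hφ (line_of_ray hgc hcoc hirr (⊤ : Subgroup G) ?_ hray
    (fun n _ => hfix n))
  by_contra htriv
  push Not at htriv
  obtain ⟨K, hK, hKG⟩ := hcoc
  have hall : ∀ x : X, x ∈ K := by
    intro x
    obtain ⟨g, hg⟩ := hKG x
    rwa [htriv g trivial x] at hg
  obtain ⟨R, hR⟩ := hK.isBounded.subset_closedBall (dir φ v 0)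
  have h1 := hR (hall (dir φ v (|R| + 1)))
  rw [mem_closedBall, hray _ _ (by positivity) le_rfl, sub_zero,
    abs_of_nonneg (by positivity : (0 : ℝ) ≤ |R| + 1)] at h1
  linarith [le_abs_self R]

/-- `Kill'`: the conclusion of the next theorem -/
def Kills' (G : Type*) [Group G] {X : Type*} [MetricSpace X] [MulAction G X] (S : Set X) (o : X)
    (R₁ N ε : ℝ) : Prop :=
  0 < R₁ ∧ 0 < N ∧ 0 < ε ∧ ∀ r : ℝ → X, IsRay r →
      ∃ g : G, dist (r 0) (g • o) ≤ R₁ ∧ ∀ r' : ℝ → X, IsRay r' → r' 0 = r 0 →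
        dist (r N) (r' N) ≤ ε → ¬ Bdd r' (g • S)

theorem kill' (hcoc : Cocompact G X) {S : Set X} (hcl : IsClosed S) (hcv : GConvex S)
    {o : X} (ho : o ∈ S)
    (hΩ : ∀ r : ℝ → X, IsRay r → ∃ g : G, ¬ Bdd r (g • S)) :
    ∃ R₁ N ε : ℝ, Kills' G S o R₁ N ε := by
  by_contra hcon
  unfold Kills' at hcon
  push Not at hcon
  have hn : ∀ n : ℕ, (0 : ℝ) < (n : ℝ) + 1 := fun n => by positivity
  -- the rays
  have hex : ∀ n : ℕ, ∃ r : ℝ → X, IsRay r ∧ ∀ g : G, dist (r 0) (g • o) ≤ (n : ℝ) + 1 →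
      ∃ r' : ℝ → X, IsRay r' ∧ r' 0 = r 0 ∧
        dist (r ((n : ℝ) + 1)) (r' ((n : ℝ) + 1)) ≤ 1 / ((n : ℝ) + 1) ∧ Bdd r' (g • S) := by
    intro n
    obtain ⟨r, hr, h⟩ := hcon ((n : ℝ) + 1) ((n : ℝ) + 1) (1 / ((n : ℝ) + 1)) (hn n) (hn n)
      (by have := hn n; positivity)
    exact ⟨r, hr, h⟩
  choose r hr hr' using hex
  have hne : S.Nonempty := ⟨o, ho⟩
  obtain ⟨R, hR⟩ := hcoc.orbit o
  choose k hk using fun n => hR (r n 0)
  -- translated rays
  let ρ : ℕ → ℝ → X := fun n t => (k n)⁻¹ • r n t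
  have hρray : ∀ n, IsRay (ρ n) := fun n => (hr n).smul (k n)⁻¹
  have hρ0 : ∀ n, dist (ρ n 0) o ≤ R := by
    intro n
    have h1 : dist (ρ n 0) o = dist (r n 0) (k n • o) := by
      rw [← dist_smul (k n) (ρ n 0) o]
      simp only [ρ, smul_inv_smul]
    rw [h1]
    exact hk n
  have hρ' : ∀ n : ℕ, ∀ g : G, dist (ρ n 0) (g • o) ≤ (n : ℝ) + 1 →
      ∃ r' : ℝ → X, IsRay r' ∧ r' 0 = ρ n 0 ∧
        dist (ρ n ((n : ℝ) + 1)) (r' ((n : ℝ) + 1)) ≤ 1 / ((n : ℝ) + 1) ∧ Bdd r' (g • S) := by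
    intro n g hg
    have h1 : dist (r n 0) ((k n * g) • o) ≤ (n : ℝ) + 1 := by
      have h2 : dist (r n 0) ((k n * g) • o) = dist (ρ n 0) (g • o) := by
        have h3 : k n • ρ n 0 = r n 0 := smul_inv_smul _ _
        rw [← dist_smul (k n) (ρ n 0) (g • o), h3, mul_smul]
      rw [h2]; exact hg
    obtain ⟨r', h2, h3, h4, h5⟩ := hr' n (k n * g) h1
    refine ⟨fun t => (k n)⁻¹ • r' t, h2.smul _, ?_, ?_, ?_⟩
    · change (k n)⁻¹ • r' 0 = (k n)⁻¹ • r n 0
      rw [h3]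
    · change dist ((k n)⁻¹ • r n ((n : ℝ) + 1)) ((k n)⁻¹ • r' ((n : ℝ) + 1)) ≤ _
      rw [dist_smul]
      exact h4
    · have h6 := h5.smul (k n)⁻¹
      rw [smul_smul, inv_mul_cancel_left] at h6
      exact h6
  -- the limit ray
  obtain ⟨σ, hσ, hlim⟩ := exists_ray_limit_bdd (hyperfilter ℕ) (ρ := ρ) (o := o) (R := R)
    (Eventually.of_forall fun n => ⟨hρray n, hρ0 n⟩)
  obtain ⟨g, hg⟩ := hΩ σ hσ
  apply hg
  have hgcl : IsClosed (g • S) := hcl.smul g
  have hgne : (g • S).Nonempty := hne.smul_set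
  have hgcv : GConvex (g • S) := by
    rintro x ⟨a, ha, rfl⟩ y ⟨b, hb, rfl⟩ t ht
    exact ⟨pt a b t, hcv a ha b hb t ht, smul_pt g a b ht⟩
  refine ⟨dist o (g • o) + R + 1, fun t ht => ?_⟩
  have hcont : Tendsto (fun n => infDist (ρ n t) (g • S)) (hyperfilter ℕ : Filter ℕ)
      (𝓝 (infDist (σ t) (g • S))) :=
    ((continuous_infDist_pt (g • S)).tendsto _).comp (hlim t ht)
  apply le_of_tendsto hcont
  have hlarge : ∀ᶠ n : ℕ in (hyperfilter ℕ : Filter ℕ),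
      t ≤ (n : ℝ) + 1 ∧ dist o (g • o) + R ≤ (n : ℝ) + 1 := by
    apply Nat.hyperfilter_le_atTop
    have h1 : Tendsto (fun n : ℕ => (n : ℝ) + 1) atTop atTop :=
      tendsto_atTop_add_const_right _ _ tendsto_natCast_atTop_atTop
    exact (h1.eventually_ge_atTop t).and (h1.eventually_ge_atTop _)
  filter_upwards [hlarge] with n hnl
  have h0 : dist (ρ n 0) (g • o) ≤ dist o (g • o) + R := by
    have := dist_triangle (ρ n 0) o (g • o)
    linarith [hρ0 n]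
  have h0' : infDist (ρ n 0) (g • S) ≤ dist o (g • o) + R :=
    (infDist_le_dist_of_mem (smul_mem_smul_set ho)).trans h0
  obtain ⟨r', h2, h3, h4, h5⟩ := hρ' n g (h0.trans hnl.2)
  have hl : t / ((n : ℝ) + 1) ∈ Icc (0 : ℝ) 1 :=
    ⟨div_nonneg ht (hn n).le, (div_le_one (hn n)).2 hnl.1⟩
  have ht' : t / ((n : ℝ) + 1) * ((n : ℝ) + 1) = t := div_mul_cancel₀ _ (hn n).ne'
  have h6 : dist (ρ n t) (r' t) ≤ 1 := by
    have e1 := ray_pt (hρray n) (hn n).le hl
    have e2 := ray_pt h2 (hn n).le hl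
    rw [ht'] at e1 e2
    rw [e1, e2, h3]
    have h7 := dist_pt_pt_left_le (ρ n 0) (ρ n ((n : ℝ) + 1)) (r' ((n : ℝ) + 1)) hl
    have h8 : 1 / ((n : ℝ) + 1) ≤ 1 := by
      rw [div_le_one (hn n)]
      have : (0 : ℝ) ≤ (n : ℝ) := Nat.cast_nonneg n
      linarith
    have h9 : t / ((n : ℝ) + 1) * dist (ρ n ((n : ℝ) + 1)) (r' ((n : ℝ) + 1)) ≤ 1 * 1 :=
      mul_le_mul hl.2 (h4.trans h8) dist_nonneg zero_le_one
    linarith
  have h7 : infDist (r' t) (g • S) ≤ infDist (ρ n 0) (g • S) := by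
    rw [← h3]
    exact h5.infDist_le h2 hgcl hgne hgcv ht
  have h8 := infDist_le_infDist_add_dist (s := g • S) (x := ρ n t) (y := r' t)
  linarith

end Pool.Agent.H75.CF
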