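import Pool.Agent.H75.CF.Defs

/-!
# Rays orthogonal to `C` (copy of `SF/OrthRay1` for `DSide D C`)
-/

open Set Filter Topology Metric
open Pool.Agent.H29 Pool.Agent.H29.RR Pool.Agent.H75.SF

set_option linter.unusedSectionVars false

namespace Pool.Agent.H75.CF

variable {X : Type*} [MetricSpace X] [IsCAT0 X] [ProperSpace X]
variable {D C : Set X} {ρ : ℝ → X}

lemma DSide.nonempty (hC : DSide D C) : C.Nonempty := hC.ne.mono hC.sub

lemma orth_mem (hC : DSide D C) (h : Orth C ρ) : ρ 0 ∈ C := by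
  rw [hC.closed.mem_iff_infDist_zero hC.nonempty]
  exact h.infDist 0 le_rfl

lemma exists_orth' (hgc : GeodesicallyComplete X) (hC : DSide D C) {y : X} (hy : y ∉ C) :
    ∃ ρ, Orth C ρ ∧ ρ (infDist y C) = y := by
  have hne := hC.nonempty
  set q := proj C y with hq
  have hqC : q ∈ C := proj_mem hC.closed hne y
  have hqy : q ≠ y := fun h => hy (h ▸ hqC)
  obtain ⟨c, hc, hc0, hcd⟩ := hgc.line hqy
  have hd : infDist y C = dist q y := by rw [← dist_proj hC.closed hne, ← hq, dist_comm]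
  rw [hd]
  set δ := dist q y with hδ
  have hδpos : 0 < δ := dist_pos.mpr hqy
  have hφ := (gconvexFun_infDist hC.closed hne hC.convex).comp_line hc
  have hφ0 : infDist (c 0) C = 0 := by rw [hc0]; exact infDist_zero_of_mem hqC
  have hφδ : infDist (c δ) C = δ := by rw [hcd, hd]
  have hge : ∀ t, 0 ≤ t → t ≤ infDist (c t) C := by
    intro t ht0
    rcases le_total δ t with ht | ht
    · have htpos : 0 < t := lt_of_lt_of_le hδpos ht
      have hl : δ / t ∈ Icc (0 : ℝ) 1 := ⟨by positivity, (div_le_one htpos).mpr ht⟩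
      have h1 := hφ 0 t (δ / t) hl
      simp only [mul_zero, zero_add, hφ0] at h1
      rw [div_mul_cancel₀ _ htpos.ne', hφδ, div_mul_eq_mul_div, le_div_iff₀ htpos] at h1
      exact le_of_mul_le_mul_left (by linarith) hδpos
    · have h1 : infDist (c δ) C ≤ infDist (c t) C + dist (c δ) (c t) := infDist_le_infDist_add_dist
      rw [hφδ, hc.dist_eq, Real.dist_eq, abs_of_nonneg (by linarith)] at h1
      linarith
  refine ⟨c, ⟨?_, ?_⟩, hcd⟩
  · intro s t _ _
    rw [hc.dist_eq, Real.dist_eq]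
  · intro t ht
    apply le_antisymm _ (hge t ht)
    refine (infDist_le_dist_of_mem hqC).trans ?_
    rw [← hc0, hc.dist_eq, Real.dist_eq, sub_zero, abs_of_nonneg ht]

lemma orth_proj_eq (hC : DSide D C) (h : Orth C ρ) {t : ℝ} (ht : 0 ≤ t) : proj C (ρ t) = ρ 0 := by
  symm
  apply eq_proj hC.closed hC.nonempty hC.convex (orth_mem hC h)
  rw [h.infDist t ht, h.ray t 0 ht le_rfl, sub_zero, abs_of_nonneg ht]

lemma orth_foot (hC : DSide D C) (h : Orth C ρ) : ρ 0 ∈ D := by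
  by_contra hcon
  have h0 : ρ 0 ∈ C \ D := ⟨orth_mem hC h, hcon⟩
  obtain ⟨ε, hε, hball⟩ := Metric.isOpen_iff.1 hC.isOpen _ h0
  have h1 : ρ (ε / 2) ∈ ball (ρ 0) ε := by
    rw [mem_ball, h.ray (ε / 2) 0 (by positivity) le_rfl, sub_zero, abs_of_nonneg (by positivity)]
    linarith
  have h2 := h.infDist (ε / 2) (by positivity)
  rw [infDist_zero_of_mem (hball h1).1] at h2
  linarith

lemma orth_sq_le (hC : DSide D C) (h : Orth C ρ) {x : X} (hx : x ∈ C) {t : ℝ} (ht : 0 ≤ t) :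
    t ^ 2 + dist (ρ 0) x ^ 2 ≤ dist (ρ t) x ^ 2 := by
  have h1 := proj_obtuse hC.closed hC.nonempty hC.convex (ρ t) hx
  rw [orth_proj_eq hC h ht, h.ray t 0 ht le_rfl, sub_zero, abs_of_nonneg ht] at h1
  exact h1

lemma Pset_subset (hC : DSide D C) (h : Orth C ρ) : Pset C ρ ⊆ D := by
  rintro x ⟨hx, hb⟩
  by_contra hcon
  have h0 : x ∈ C \ D := ⟨hx, hcon⟩
  obtain ⟨ε, hε, hball⟩ := Metric.isOpen_iff.1 hC.isOpen _ h0
  obtain ⟨y, hy1, hy2⟩ := exists_busR_down h.ray x (s := ε / 2) (by positivity)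
  have h1 : y ∈ ball x ε := by
    rw [mem_ball, dist_comm, hy1]
    linarith
  have h2 := h.busR_nonneg (hball h1).1
  linarith

lemma foot_mem_Pset (hC : DSide D C) (h : Orth C ρ) : ρ 0 ∈ Pset C ρ :=
  ⟨orth_mem hC h, by rw [h.busR_foot]⟩

lemma isClosed_Pset (hC : DSide D C) (h : Orth C ρ) : IsClosed (Pset C ρ) :=
  hC.closed.inter (isClosed_le (continuous_busR h.ray) continuous_const)

lemma gconvex_Pset (hC : DSide D C) (h : Orth C ρ) : GConvex (Pset C ρ) := by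
  rintro x ⟨hx, hx'⟩ y ⟨hy, hy'⟩ t ht
  refine ⟨hC.convex x hx y hy t ht, ?_⟩
  have h1 := gconvexFun_busR h.ray x y t ht
  have h2 := mul_nonpos_of_nonneg_of_nonpos (sub_nonneg.2 ht.2) hx'
  have h3 := mul_nonpos_of_nonneg_of_nonpos ht.1 hy'
  linarith

lemma busR_eq_of_asym' (hC : DSide D C) {σ : ℝ → X} (h : Orth C ρ) (h' : Orth C σ)
    (hasym : Asym ρ σ) : busR σ = busR ρ := by
  funext x
  have h1 := busR_asym h.ray h'.ray hasym x (σ 0)
  have h2 := busR_asym h.ray h'.ray hasym (ρ 0) (σ 0)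
  have h3 := h.busR_foot
  have h4 := h'.busR_foot
  have h5 := h.busR_nonneg (orth_mem hC h')
  have h6 := h'.busR_nonneg (orth_mem hC h)
  rw [h3] at h2
  rw [h4] at h1 h2
  linarith

/-- a ray which starts in a closed convex set and stays close to it stays in it -/
lemma stay {S : Set X} (hcl : IsClosed S) (hcv : GConvex S) {σ : ℝ → X} (hσ : IsRay σ)
    (h0 : σ 0 ∈ S) (hb : Bdd σ S) {t : ℝ} (ht : 0 ≤ t) : σ t ∈ S := by
  have hne : S.Nonempty := ⟨_, h0⟩
  rw [hcl.mem_iff_infDist_zero hne]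
  have h1 := hb.infDist_le hσ hcl hne hcv ht
  rw [infDist_zero_of_mem h0] at h1
  exact le_antisymm h1 infDist_nonneg

/-- rays asymptotic to rays in `S` -/
lemma exists_ray_in {S : Set X} (hcl : IsClosed S) (hcv : GConvex S) {σ : ℝ → X} (hσ : IsRay σ)
    (hb : Bdd σ S) {p : X} (hp : p ∈ S) :
    ∃ τ : ℝ → X, IsRay τ ∧ τ 0 = p ∧ Asym τ σ ∧ ∀ t, 0 ≤ t → τ t ∈ S := by
  obtain ⟨τ, h1, h2, h3⟩ := exists_ray_from hσ p
  refine ⟨τ, h1, h2, h3.symm, fun t ht => ?_⟩
  exact stay hcl hcv h1 (h2.symm ▸ hp) (hb.asym h3) ht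

end Pool.Agent.H75.CF
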