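import Pool.Agent.H75.CF.CL
import Pool.Agent.H75.SF.Wall

/-!
# Sides of neighbourhoods of a flat; ends
-/

open Set Filter Topology Metric
open Pool.Agent.H29 Pool.Agent.H29.RR Pool.Agent.H75.SF
open scoped Pointwise

set_option linter.unusedSectionVars false

namespace Pool.Agent.H75.CF

universe u

section

variable {X : Type*} [MetricSpace X] [IsCAT0 X] [ProperSpace X]

/-- a point of a side whose segment to `w` avoids the set -/
lemma side_of_seg {D : Set X} {x z w : X} (hz : z ∈ Side D x)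
    (h : ∀ t ∈ Icc (0 : ℝ) 1, pt z w t ∉ D) : w ∈ Side D x :=
  (mem_side.mp hz).trans (joinedIn_of_pt h)

lemma side_of_ball {D : Set X} {x z w : X} (hz : z ∈ Side D x) (h : dist z w < infDist z D) :
    w ∈ Side D x := by
  refine side_of_seg hz fun t ht hmem => ?_
  have h1 := infDist_le_dist_of_mem (x := z) hmem
  rw [dist_left_pt z w ht] at h1
  have h2 : t * dist z w ≤ 1 * dist z w := mul_le_mul_of_nonneg_right ht.2 dist_nonneg
  linarith

lemma side_subset_of_mem {D D' : Set X} {x x' z : X} (hz' : z ∈ Side D' x') (hz : z ∈ Side D x)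
    (hd : Disjoint (Side D' x') D) : Side D' x' ⊆ Side D x := by
  intro w hw
  have h1 := joinedIn_side hz' hw
  exact (mem_side.mp hz).trans (h1.mono fun a ha => Set.disjoint_left.mp hd ha)

lemma side_subset_of_disjoint {D D' : Set X} {x x' : X} (hcv : GConvex D') (hne : D'.Nonempty)
    (hD : D' ⊆ Side D x) (hd : Disjoint (Side D' x') D) : Side D' x' ⊆ Side D x := by
  obtain ⟨p, hp⟩ := hne
  intro z hz
  have h1 : ∀ t ∈ Icc (0 : ℝ) 1, pt p z t ∉ D := by
    intro t ht hmem
    rcases gconvex_union_side hcv x' p (Or.inl hp) z (Or.inr hz) t ht with h | h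
    · exact side_subset (hD h) hmem
    · exact Set.disjoint_left.mp hd h hmem
  exact side_of_seg (hD hp) h1

lemma side_disjoint {D : Set X} {x : X} : Disjoint (Side D x) D := by
  rw [Set.disjoint_left]
  intro z hz
  exact side_subset hz

lemma side_anti {D D' : Set X} (h : D ⊆ D') (x : X) : Side D' x ⊆ Side D x := fun _ hz =>
  JoinedIn.mono hz (compl_subset_compl.mpr h)

lemma ray_pt2 {ρ : ℝ → X} (hρ : IsRay ρ) {a b l : ℝ} (ha : 0 ≤ a) (hb : 0 ≤ b)
    (hl : l ∈ Icc (0 : ℝ) 1) : ρ ((1 - l) * a + l * b) = pt (ρ a) (ρ b) l := by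
  have h1 : 0 ≤ 1 - l := by linarith [hl.2]
  have hm : 0 ≤ (1 - l) * a + l * b := add_nonneg (mul_nonneg h1 ha) (mul_nonneg hl.1 hb)
  apply eq_pt hl
  · rw [hρ _ _ ha hm, hρ _ _ ha hb]
    have : a - ((1 - l) * a + l * b) = l * (a - b) := by ring
    rw [this, abs_mul, abs_of_nonneg hl.1]
  · rw [hρ _ _ hm hb, hρ _ _ ha hb]
    have : (1 - l) * a + l * b - b = (1 - l) * (a - b) := by ring
    rw [this, abs_mul, abs_of_nonneg h1]

end

section

variable {X : Type u} [MetricSpace X] [IsCAT0 X] [ProperSpace X]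
variable {V : Type*} [NormedAddCommGroup V] [InnerProductSpace ℝ V] [FiniteDimensional ℝ V]
variable {φ : V → X} {r₀ : ℝ} {E : Bool → ℝ → Set X}

/-- two ends of the complement of the flat -/
structure Ends (φ : V → X) (r₀ : ℝ) (E : Bool → ℝ → Set X) : Prop where
  r0 : 0 ≤ r₀
  side : ∀ j r, r₀ ≤ r → ∃ z, z ∉ NF φ r ∧ E j r = Side (NF φ r) z
  anti : ∀ j r r', r₀ ≤ r → r ≤ r' → E j r' ⊆ E j r
  disj : Disjoint (E false r₀) (E true r₀)

/-- strong poles in the two ends -/
structure Poles' (φ : V → X) (r₀ : ℝ) (E : Bool → ℝ → Set X) (ρ : Bool → ℝ → X) (c T : ℝ) :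
    Prop where
  cpos : 0 < c
  ray : ∀ j, IsRay (ρ j)
  deep : ∀ j r t z, r₀ ≤ r → dist (ρ j t) z < t + r₀ - r → z ∈ E j r
  far : ∀ j, Far φ (ρ j) c T

lemma infDist_add_le (hφ : Isometry φ) {r : ℝ} (hr : 0 ≤ r) {x : X} (hx : x ∉ NF φ r) :
    infDist x (NF φ r) + r ≤ infDist x (range φ) := by
  have hd : r < infDist x (range φ) := not_le.mp hx
  set p := φ (pf φ x) with hp
  have hd1 : dist p x = infDist x (range φ) := by rw [dist_comm, hp, dist_phi_pf hφ]
  set d := infDist x (range φ) with hdd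
  have hdpos : 0 < d := lt_of_le_of_lt hr hd
  have hl : r / d ∈ Icc (0 : ℝ) 1 := ⟨by positivity, (div_le_one hdpos).2 hd.le⟩
  have h1 : dist p (pt p x (r / d)) = r := by
    rw [dist_left_pt p x hl, hd1, div_mul_cancel₀ _ hdpos.ne']
  have h2 : dist (pt p x (r / d)) x = d - r := by
    rw [dist_pt_right p x hl, hd1, sub_mul, one_mul, div_mul_cancel₀ _ hdpos.ne']
  have h3 : pt p x (r / d) ∈ NF φ r := by
    rw [mem_NF]
    have h5 := infDist_le_dist_of_mem (x := pt p x (r / d)) (mem_range_self (f := φ) (pf φ x))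
    rw [dist_comm, ← hp, h1] at h5
    exact h5
  have h4 := infDist_le_dist_of_mem (x := x) h3
  rw [dist_comm, h2] at h4
  linarith

end

end Pool.Agent.H75.CF
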