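import Pool.Agent.H75.CF.LP
import Pool.Agent.H75.CF.Min

/-!
# A minimal good set is symmetric (adapted from `SF/NearK` and `SF/Symm`)
-/

open Set Filter Topology Metric
open Pool.Agent.H29 Pool.Agent.H29.RR Pool.Agent.H75.SF
open scoped RealInnerProductSpace

set_option linter.unusedSectionVars false

namespace Pool.Agent.H75.CF

variable {X : Type*} [MetricSpace X] [IsCAT0 X] [ProperSpace X]
variable {V : Type*} [NormedAddCommGroup V] [InnerProductSpace ℝ V] {φ : V → X}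
variable {r : ℝ} {C : Set X} {Q : Set V}

lemma near_Kd [FiniteDimensional ℝ V] (hgc : GeodesicallyComplete X) (hφ : Isometry φ)
    (hr : 0 ≤ r) (hC : DSide (NF φ r) C) {ρ : ℝ → X} (h : Orth C ρ) {e e' : V}
    (he' : e' ∈ Qd φ C ρ) {ε δ : ℝ} (hε : 0 < ε) (hδ : 0 < δ)
    (hee : dist e' e < ε)
    (hnear : ∀ ρ' : ℝ → X, Orth C ρ' → Qd φ C ρ' ⊆ thickening δ (Qd φ C ρ) →
      ∃ v ∈ Qd φ C ρ', dist v e < ε) {s : ℝ} (hs : 0 < s) :
    ∃ k ∈ Kd φ r C ρ, ‖k - (pf φ (ρ 0) - s • e)‖ ≤ (2 * √ε + ε) * s + (r / √ε + δ) := by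
  obtain ⟨H, hH⟩ := limit_principle' hφ hC h hδ hs.le
  obtain ⟨t, ht⟩ : ∃ t, t = max H (s + 1) := ⟨_, rfl⟩
  have htH : H ≤ t := by rw [ht]; exact le_max_left _ _
  have hts : s + 1 ≤ t := by rw [ht]; exact le_max_right _ _
  have ht0 : 0 ≤ t := by linarith
  obtain ⟨y, hxy, hby⟩ := exists_busR_up hgc (isRay_dir hφ he'.1) (ρ t) hs.le
  have hy : y ∉ C := by
    intro hyC
    have h1 := Metric.infDist_le_dist_of_mem (x := ρ t) hyC
    rw [h.infDist t ht0, hxy] at h1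
    linarith
  obtain ⟨ρ', hρ', hτ⟩ := exists_orth' hgc hC hy
  obtain ⟨hQ, p, hp, hpd⟩ := hH t htH ρ' (infDist y C) Metric.infDist_nonneg hρ'
    (by rw [hτ, dist_comm, hxy])
  obtain ⟨v, hv, hve⟩ := hnear ρ' hρ' hQ
  refine ⟨pf φ p, pf_mem_Kd hφ hC h hp, ?_⟩
  have hL : ‖v - e'‖ ≤ 2 * ε := by
    have h1 := dist_triangle v e e'
    rw [dist_comm e e'] at h1
    rw [← dist_eq_norm]
    linarith
  set u := pf φ (ρ 0) with hu
  set u' := pf φ (ρ' 0) with hu'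
  have hA : busR (dir φ v) (ρ' 0) ≤ - ⟪u', v⟫ + r := by
    have h1 := (abs_le.1 (abs_busR_pf hφ hv.1 (ρ' 0))).2
    have h2 : infDist (ρ' 0) (range φ) ≤ r := orth_foot hC hρ'
    linarith
  have hB : - ⟪u, v⟫ - r ≤ busR (dir φ v) (ρ 0) := by
    have h1 := (abs_le.1 (abs_busR_pf hφ hv.1 (ρ 0))).1
    have h2 : infDist (ρ 0) (range φ) ≤ r := orth_foot hC h
    linarith
  have hC1 : busR (dir φ v) y = busR (dir φ v) (ρ' 0) := by
    have h1 := busR_const' hC hφ hρ' hv (t := infDist y C) Metric.infDist_nonneg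
    rwa [hτ] at h1
  have hC2 : busR (dir φ v) (ρ 0) ≤ busR (dir φ v) (ρ t) := by
    have h1 := busR_proj_le' hφ hr hC hv.1 (ρ t)
    rwa [orth_proj_eq hC h ht0] at h1
  have hcmp := busR_compare (isRay_dir hφ hv.1) (isRay_dir hφ he'.1) (L := ‖v - e'‖) (M := 0)
    (fun r hr => by
      have h1 := dist_flat hφ 0 0 v e' hr
      simpa [dir] using h1) (ρ t) y
  rw [hxy] at hcmp
  have hcmp2 := (abs_le.1 hcmp).1
  have hLs : ‖v - e'‖ * s ≤ 2 * ε * s := mul_le_mul_of_nonneg_right hL hs.le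
  have hin : (1 - 2 * ε) * s - 2 * r ≤ ⟪u - u', v⟫ := by
    rw [inner_sub_left]
    linarith
  have hd : ‖u - u'‖ ≤ s := by
    have h1 : proj C y = ρ' 0 := by
      have h2 := orth_proj_eq hC hρ' (t := infDist y C) Metric.infDist_nonneg
      rwa [hτ] at h2
    refine (norm_pf_sub hφ _ _).trans ?_
    rw [← orth_proj_eq hC h ht0, ← h1, ← hxy]
    exact proj_lipschitz hC.closed ⟨ρ 0, orth_mem hC h⟩ hC.convex _ _
  have hsε : 0 < √ε := Real.sqrt_pos.2 hε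
  have hsq : ‖u - u' - s • v‖ ^ 2 ≤ (2 * √ε * s + r / √ε) ^ 2 := by
    rw [norm_sub_sq_real, inner_smul_right, norm_smul, hv.1, Real.norm_of_nonneg hs.le]
    have h1 : ‖u - u'‖ ^ 2 ≤ s ^ 2 := pow_le_pow_left₀ (norm_nonneg _) hd 2
    have h2 := mul_le_mul_of_nonneg_left hin hs.le
    have h3 : (2 * √ε * s + r / √ε) ^ 2 = 4 * ε * s ^ 2 + 4 * r * s + (r / √ε) ^ 2 := by
      have e1 : √ε ^ 2 = ε := Real.sq_sqrt hε.le
      have e2 : √ε * (r / √ε) = r := by field_simp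
      calc (2 * √ε * s + r / √ε) ^ 2
          = 4 * √ε ^ 2 * s ^ 2 + 4 * (√ε * (r / √ε)) * s + (r / √ε) ^ 2 := by ring
        _ = _ := by rw [e1, e2]
    rw [h3]
    nlinarith [sq_nonneg (r / √ε)]
  have hn : ‖u - u' - s • v‖ ≤ 2 * √ε * s + r / √ε :=
    (sq_le_sq₀ (norm_nonneg _) (by positivity)).1 hsq
  have hke : pf φ p - (u - s • e) = (pf φ p - u') - (u - u' - s • v) + s • (e - v) := by
    rw [smul_sub]
    abel
  have hku : ‖pf φ p - u'‖ ≤ δ := by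
    refine (norm_pf_sub hφ _ _).trans ?_
    rw [dist_comm]
    exact hpd.le
  have hev : ‖s • (e - v)‖ ≤ ε * s := by
    rw [norm_smul, Real.norm_of_nonneg hs.le, mul_comm, ← dist_eq_norm, dist_comm]
    exact mul_le_mul_of_nonneg_right hve.le hs.le
  rw [hke]
  calc ‖(pf φ p - u') - (u - u' - s • v) + s • (e - v)‖
      ≤ ‖(pf φ p - u') - (u - u' - s • v)‖ + ‖s • (e - v)‖ := norm_add_le _ _
    _ ≤ (‖pf φ p - u'‖ + ‖u - u' - s • v‖) + ‖s • (e - v)‖ := by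
        gcongr
        exact norm_sub_le _ _
    _ ≤ (2 * √ε + ε) * s + (r / √ε + δ) := by linarith

theorem minimal_symm' [FiniteDimensional ℝ V] (hgc : GeodesicallyComplete X) (hφ : Isometry φ)
    (hr0 : 0 ≤ r) (hC : DSide (NF φ r) C) (hQ : CGood φ C Q)
    (hmin : ∀ Q' ⊆ Q, CGood φ C Q' → Q ⊆ Q') {e : V}
    (he : e ∈ Q) : -e ∈ Q := by
  have he1 : ‖e‖ = 1 := by simpa using hQ.2.1 he
  rw [← hQ.1.closure_eq, Metric.mem_closure_iff]
  intro ε₁ hε₁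
  set q : ℝ := min (1 / 10) (ε₁ / 10) with hq
  have hq0 : 0 < q := lt_min (by norm_num) (by linarith)
  have hq1 : q ≤ 1 / 10 := min_le_left _ _
  have hq2 : q ≤ ε₁ / 10 := min_le_right _ _
  set ε : ℝ := q ^ 2 with hε
  have hε0 : 0 < ε := by positivity
  have hsq : √ε = q := by rw [hε, Real.sqrt_sq hq0.le]
  have hεr : ε ≤ q := by rw [hε]; nlinarith
  obtain ⟨δ₀, hδ₀, hnear⟩ := hQ.near hmin he hε0
  set δ : ℝ := min δ₀ ε / 2 with hδ
  have hδ0 : 0 < δ := by rw [hδ]; have := lt_min hδ₀ hε0; linarith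
  have hδ1 : δ + δ ≤ δ₀ := by rw [hδ]; have := min_le_left δ₀ ε; linarith
  have hδ2 : δ ≤ ε := by
    rw [hδ]; have := min_le_right δ₀ ε; have := lt_min hδ₀ hε0; linarith
  obtain ⟨ρ, hρ, hρQ⟩ := hQ.2.2 δ hδ0
  obtain ⟨e', he', hee⟩ := hnear ρ hρ (hρQ.trans (thickening_mono (by linarith) Q))
  have hclaim : ∀ s : ℝ, 0 < s → ∃ k ∈ Kd φ r C ρ,
      ‖k - (pf φ (ρ 0) - s • e)‖ ≤ (2 * √ε + ε) * s + (r / √ε + δ) := by
    intro s hs
    refine near_Kd hgc hφ hr0 hC hρ he' hε0 hδ0 hee ?_ hs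
    intro ρ' hρ' hsub
    apply hnear ρ' hρ'
    intro v hv
    have h1 := hsub hv
    rw [mem_thickening_iff] at h1
    obtain ⟨z, hz, hvz⟩ := h1
    have h2 := hρQ hz
    rw [mem_thickening_iff] at h2
    obtain ⟨z', hz', hzz'⟩ := h2
    rw [mem_thickening_iff]
    refine ⟨z', hz', ?_⟩
    have := dist_triangle v z z'
    linarith
  obtain ⟨w, hw1, hw2, hw3⟩ := neg_dir_of_claim (isClosed_Kd hφ) (convex_Kd hφ hC hρ)
    (pf_mem_Kd hφ hC hρ (foot_mem_Pset hC hρ)) he1 (η := 2 * √ε + ε)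
    (by positivity) (by rw [hsq]; linarith) hclaim
  have hwQ : w ∈ Qd φ C ρ := Qd_of_ray hφ hC hρ hw1 hw3
  have h3 := hρQ hwQ
  rw [mem_thickening_iff] at h3
  obtain ⟨q', hq', hwq⟩ := h3
  refine ⟨q', hq', ?_⟩
  have h4 : dist (-e) w ≤ 2 * (2 * √ε + ε) := by
    rw [dist_comm, dist_eq_norm, sub_neg_eq_add]
    exact hw2
  rw [hsq] at h4
  have h5 := dist_triangle (-e) w q'
  linarith

end Pool.Agent.H75.CF
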